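import Pool.Agent.Work.MP_9e71ee_nt.Defs

/-! Bundle of small proof modules (one section per former module). -/

section

/-!
# Gauss norms of polynomials on discs
-/

open Polynomial Filter Topology
open scoped NNReal ENNReal

namespace MP9e71ee

variable {C : Type*} [NontriviallyNormedField C]

/-- Taylor coefficients at `a`. -/
noncomputable def tc (a : C) (H : C[X]) (k : ℕ) : C := (taylor a H).coeff k

/-- The Gauss norm (sup norm) of `H` on the closed disc of centre `a` and radius `r`. -/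
noncomputable def gn (a : C) (r : ℝ≥0) (H : C[X]) : ℝ≥0 :=
  (Finset.range (H.natDegree + 1)).sup (fun k => ‖tc a H k‖₊ * r ^ k)

/-- `m` is the largest dominating index of `H` on the closed disc of centre `a` and radius `r`. -/
def IsTop (a : C) (r : ℝ≥0) (H : C[X]) (m : ℕ) : Prop :=
  ‖tc a H m‖₊ * r ^ m = gn a r H ∧ ∀ k, m < k → ‖tc a H k‖₊ * r ^ k < gn a r H

theorem tc_eq_zero {a : C} {H : C[X]} {k : ℕ} (hk : H.natDegree < k) : tc a H k = 0 := by
  apply Polynomial.coeff_eq_zero_of_natDegree_lt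
  rwa [Polynomial.natDegree_taylor]

@[simp] theorem tc_zero (a : C) (k : ℕ) : tc a 0 k = 0 := by simp [tc]

theorem tc_add (a : C) (F G : C[X]) (k : ℕ) : tc a (F + G) k = tc a F k + tc a G k := by
  simp [tc]

theorem tc_sub (a : C) (F G : C[X]) (k : ℕ) : tc a (F - G) k = tc a F k - tc a G k := by
  simp [tc]

theorem tc_C_mul (a c : C) (F : C[X]) (k : ℕ) : tc a (Polynomial.C c * F) k = c * tc a F k := by
  simp [tc]

theorem tc_index_zero (a : C) (F : C[X]) : tc a F 0 = F.eval a := by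
  simp [tc, Polynomial.taylor_coeff_zero]

theorem le_gn (a : C) (r : ℝ≥0) (H : C[X]) (k : ℕ) : ‖tc a H k‖₊ * r ^ k ≤ gn a r H := by
  by_cases hk : k ∈ Finset.range (H.natDegree + 1)
  · exact Finset.le_sup (f := fun k => ‖tc a H k‖₊ * r ^ k) hk
  · rw [tc_eq_zero (by simpa using hk)]; simp

theorem gn_le {a : C} {r : ℝ≥0} {H : C[X]} {B : ℝ≥0} (h : ∀ k, ‖tc a H k‖₊ * r ^ k ≤ B) :
    gn a r H ≤ B := Finset.sup_le (fun k _ => h k)

theorem exists_gn (a : C) (r : ℝ≥0) (H : C[X]) :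
    ∃ k, k ≤ H.natDegree ∧ ‖tc a H k‖₊ * r ^ k = gn a r H := by
  obtain ⟨k, hk, h⟩ := Finset.exists_mem_eq_sup (Finset.range (H.natDegree + 1)) ⟨0, by simp⟩
    (fun k => ‖tc a H k‖₊ * r ^ k)
  exact ⟨k, by simpa [Nat.lt_succ_iff] using hk, h.symm⟩

/-- The largest dominating index exists as soon as the norm is not zero. -/
theorem exists_isTop {a : C} {r : ℝ≥0} {H : C[X]} (h : gn a r H ≠ 0) : ∃ m, IsTop a r H m := by
  classical
  obtain ⟨k, hk, hk2⟩ := exists_gn a r H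
  let P : ℕ → Prop := fun k => ‖tc a H k‖₊ * r ^ k = gn a r H
  have hb : ∀ n, P n → n ≤ H.natDegree := by
    intro n hn
    by_contra hlt
    push Not at hlt
    have : gn a r H = 0 := by
      rw [← hn, tc_eq_zero hlt]; simp
    exact h this
  refine ⟨Nat.findGreatest P H.natDegree, ?_, ?_⟩
  · exact Nat.findGreatest_spec (P := P) hk hk2
  · intro n hn
    refine lt_of_le_of_ne (le_gn a r H n) ?_
    intro he
    exact absurd (Nat.le_findGreatest (hb n he) he) (not_le.mpr hn)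

theorem gn_zero (a : C) (r : ℝ≥0) : gn a r (0 : C[X]) = 0 := by
  apply le_antisymm _ zero_le
  exact gn_le (fun k => by simp)

theorem gn_mono (a : C) {r s : ℝ≥0} (h : r ≤ s) (H : C[X]) : gn a r H ≤ gn a s H :=
  gn_le (fun k => (mul_le_mul_right (pow_le_pow_left₀ zero_le h k) _).trans (le_gn a s H k))

theorem gn_C_mul (a : C) (r : ℝ≥0) (c : C) (H : C[X]) :
    gn a r (Polynomial.C c * H) = ‖c‖₊ * gn a r H := by
  apply le_antisymm
  · apply gn_le
    intro k
    rw [tc_C_mul, nnnorm_mul, mul_assoc]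
    exact mul_le_mul_right (le_gn a r H k) _
  · obtain ⟨k, _, hk⟩ := exists_gn a r H
    rw [← hk]
    refine le_trans (le_of_eq ?_) (le_gn a r _ k)
    rw [tc_C_mul, nnnorm_mul, mul_assoc]

theorem gn_C (a : C) (r : ℝ≥0) (c : C) : gn a r (Polynomial.C c) = ‖c‖₊ := by
  have : tc a (Polynomial.C c) 0 = c := by simp [tc]
  simp [gn, this]

theorem tc_X_sub_C_zero (a b : C) : tc a (X - Polynomial.C b) 0 = a - b := by
  simp [tc_index_zero]

theorem tc_X_sub_C_one (a b : C) : tc a (X - Polynomial.C b) 1 = 1 := by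
  simp [tc, Polynomial.taylor_X, Polynomial.coeff_X]

theorem gn_X_sub_C (a : C) (r : ℝ≥0) (b : C) : gn a r (X - Polynomial.C b) = max ‖a - b‖₊ r := by
  rw [gn, Polynomial.natDegree_X_sub_C]
  rw [show Finset.range (1 + 1) = {0, 1} from rfl, Finset.sup_insert, Finset.sup_singleton,
    tc_X_sub_C_zero, tc_X_sub_C_one]
  simp

theorem gn_zero_radius (a : C) (H : C[X]) : gn a 0 H = ‖H.eval a‖₊ := by
  apply le_antisymm
  · apply gn_le
    intro k
    rcases Nat.eq_zero_or_pos k with rfl | hk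
    · simp [tc_index_zero]
    · simp [hk.ne']
  · refine le_trans (le_of_eq ?_) (le_gn a 0 H 0)
    simp [tc_index_zero]

theorem gn_neg (a : C) (r : ℝ≥0) (H : C[X]) : gn a r (-H) = gn a r H := by
  have : -H = Polynomial.C (-1) * H := by simp
  rw [this, gn_C_mul]; simp

theorem eval_le_gn (a : C) (r : ℝ≥0) (H : C[X]) : ‖H.eval a‖₊ ≤ gn a r H := by
  have := le_gn a r H 0
  simpa [tc_index_zero] using this

theorem gn_ne_zero {a : C} {r : ℝ≥0} (hr : 0 < r) {H : C[X]} (hH : H ≠ 0) : gn a r H ≠ 0 := by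
  intro h
  apply hH
  have h1 : ∀ k, tc a H k = 0 := by
    intro k
    have := le_gn a r H k
    rw [h] at this
    have h2 : ‖tc a H k‖₊ * r ^ k = 0 := le_antisymm this zero_le
    rcases mul_eq_zero.mp h2 with h3 | h3
    · exact nnnorm_eq_zero.mp h3
    · exact absurd h3 (pow_ne_zero _ hr.ne')
  have h2 : taylor a H = 0 := by
    ext k
    simpa [tc] using h1 k
  exact Polynomial.taylor_injective a (by simpa using h2)

theorem gn_scale (a : C) {r s : ℝ≥0} (hrs : r ≤ s) (H : C[X]) {d : ℕ} (hd : H.natDegree ≤ d) :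
    gn a s H * r ^ d ≤ gn a r H * s ^ d := by
  obtain ⟨k, hk, h⟩ := exists_gn a s H
  rw [← h]
  have hkd : k ≤ d := hk.trans hd
  obtain ⟨e, rfl⟩ := Nat.exists_eq_add_of_le hkd
  calc ‖tc a H k‖₊ * s ^ k * r ^ (k + e) = (‖tc a H k‖₊ * r ^ k) * (s ^ k * r ^ e) := by ring
    _ ≤ gn a r H * (s ^ k * s ^ e) := by
        gcongr
        exact le_gn a r H k
    _ = gn a r H * s ^ (k + e) := by ring

section ultra

variable [IsUltrametricDist C]

theorem gn_add_le (a : C) (r : ℝ≥0) (F G : C[X]) :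
    gn a r (F + G) ≤ max (gn a r F) (gn a r G) := by
  apply gn_le
  intro k
  rw [tc_add]
  have h1 : ‖tc a F k + tc a G k‖₊ ≤ max ‖tc a F k‖₊ ‖tc a G k‖₊ :=
    IsUltrametricDist.nnnorm_add_le_max _ _
  calc ‖tc a F k + tc a G k‖₊ * r ^ k ≤ max ‖tc a F k‖₊ ‖tc a G k‖₊ * r ^ k := by gcongr
    _ = max (‖tc a F k‖₊ * r ^ k) (‖tc a G k‖₊ * r ^ k) := by
        rw [max_mul_of_nonneg _ _ zero_le]
    _ ≤ _ := max_le_max (le_gn _ _ _ _) (le_gn _ _ _ _)

theorem gn_sub_le (a : C) (r : ℝ≥0) (F G : C[X]) :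
    gn a r (F - G) ≤ max (gn a r F) (gn a r G) := by
  rw [sub_eq_add_neg, ← gn_neg a r G]
  exact gn_add_le a r F (-G)

theorem gn_sub_eq_left {a : C} {r : ℝ≥0} {F G : C[X]} (h : gn a r G < gn a r F) :
    gn a r (F - G) = gn a r F := by
  apply le_antisymm
  · exact (gn_sub_le a r F G).trans (by simp [h.le])
  · by_contra hlt
    push Not at hlt
    have h1 : gn a r F ≤ max (gn a r (F - G)) (gn a r G) := by
      have := gn_add_le a r (F - G) G
      simpa using this
    exact absurd (lt_of_le_of_lt h1 (max_lt hlt h)) (lt_irrefl _)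

/-- Bounds for the Taylor coefficients of a product. -/
theorem tc_mul_le {a : C} {r : ℝ≥0} {F G : C[X]} {k : ℕ} {B : ℝ≥0}
    (h : ∀ i j, i + j = k → ‖tc a F i‖₊ * r ^ i * (‖tc a G j‖₊ * r ^ j) ≤ B) :
    ‖tc a (F * G) k‖₊ * r ^ k ≤ B := by
  rcases eq_or_ne (r ^ k) 0 with hr | hr
  · rw [hr]; simp
  · have hr' : 0 < r ^ k := pos_iff_ne_zero.mpr hr
    rw [← le_div_iff₀ hr']
    have : tc a (F * G) k = ∑ p ∈ Finset.HasAntidiagonal.antidiagonal k, tc a F p.1 * tc a G p.2 := by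
      simp [tc, Polynomial.taylor_mul, Polynomial.coeff_mul]
    rw [this]
    apply IsUltrametricDist.nnnorm_sum_le_of_forall_le
    intro p hp
    rw [Finset.HasAntidiagonal.mem_antidiagonal] at hp
    rw [le_div_iff₀ hr']
    refine le_trans (le_of_eq ?_) (h p.1 p.2 hp)
    rw [nnnorm_mul, ← hp, pow_add]; ring

theorem gn_mul_le (a : C) (r : ℝ≥0) (F G : C[X]) : gn a r (F * G) ≤ gn a r F * gn a r G :=
  gn_le (fun _ => tc_mul_le (fun i j _ => mul_le_mul' (le_gn a r F i) (le_gn a r G j)))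

theorem isTop_mul_aux {a : C} {r : ℝ≥0} {F G : C[X]} {m n : ℕ} (hF : IsTop a r F m)
    (hG : IsTop a r G n) (hF0 : gn a r F ≠ 0) (hG0 : gn a r G ≠ 0) :
    ‖tc a (F * G) (m + n)‖₊ * r ^ (m + n) = gn a r F * gn a r G ∧
      ∀ k, m + n < k → ‖tc a (F * G) k‖₊ * r ^ k < gn a r F * gn a r G := by
  have hFp : 0 < gn a r F := pos_iff_ne_zero.mpr hF0
  have hGp : 0 < gn a r G := pos_iff_ne_zero.mpr hG0
  have key : ∀ i j, (m < i ∨ n < j) →
      ‖tc a F i‖₊ * r ^ i * (‖tc a G j‖₊ * r ^ j) < gn a r F * gn a r G := by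
    intro i j hij
    rcases hij with h | h
    · calc ‖tc a F i‖₊ * r ^ i * (‖tc a G j‖₊ * r ^ j)
          ≤ ‖tc a F i‖₊ * r ^ i * gn a r G := by gcongr; exact le_gn _ _ _ _
        _ < gn a r F * gn a r G := mul_lt_mul_of_pos_right (hF.2 i h) hGp
    · calc ‖tc a F i‖₊ * r ^ i * (‖tc a G j‖₊ * r ^ j)
          ≤ gn a r F * (‖tc a G j‖₊ * r ^ j) := by gcongr; exact le_gn _ _ _ _
        _ < gn a r F * gn a r G := mul_lt_mul_of_pos_left (hG.2 j h) hFp
  refine ⟨?_, ?_⟩
  · -- the coefficient of index `m + n`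
    have hmn : 0 < ‖tc a F m‖₊ * r ^ m * (‖tc a G n‖₊ * r ^ n) := by
      rw [hF.1, hG.1]; positivity
    have hr : 0 < r ^ (m + n) := by
      rw [pow_add]
      refine pos_iff_ne_zero.mpr (mul_ne_zero ?_ ?_)
      · intro h; rw [h] at hmn; simp at hmn
      · intro h; rw [h] at hmn; simp at hmn
    have e : tc a (F * G) (m + n) = tc a F m * tc a G n +
        ∑ p ∈ (Finset.HasAntidiagonal.antidiagonal (m + n)).erase (m, n), tc a F p.1 * tc a G p.2 := by
      rw [Finset.add_sum_erase (Finset.HasAntidiagonal.antidiagonal (m + n)) (fun p => tc a F p.1 * tc a G p.2)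
        (a := (m, n)) (by simp)]
      simp [tc, Polynomial.taylor_mul, Polynomial.coeff_mul]
    have hlt : ‖∑ p ∈ (Finset.HasAntidiagonal.antidiagonal (m + n)).erase (m, n), tc a F p.1 * tc a G p.2‖₊ <
        ‖tc a F m * tc a G n‖₊ := by
      have hpos : 0 < ‖tc a F m * tc a G n‖₊ := by
        rw [nnnorm_mul]
        refine pos_iff_ne_zero.mpr (mul_ne_zero ?_ ?_)
        · intro h; rw [h] at hmn; simp at hmn
        · intro h; rw [h] at hmn; simp at hmn
      refine lt_of_le_of_lt (Finset.nnnorm_sum_le_sup_nnnorm _ _) ?_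
      rw [Finset.sup_lt_iff (by simpa [bot_eq_zero] using hpos)]
      intro p hp
      rw [Finset.mem_erase, Finset.HasAntidiagonal.mem_antidiagonal] at hp
      have hor : m < p.1 ∨ n < p.2 := by
        by_contra hcon
        push Not at hcon
        apply hp.1
        ext
        · simp; omega
        · simp; omega
      have := key p.1 p.2 hor
      rw [← hF.1, ← hG.1] at this
      have h1 : ‖tc a F p.1 * tc a G p.2‖₊ * r ^ (m + n) < ‖tc a F m * tc a G n‖₊ * r ^ (m + n) := by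
        rw [nnnorm_mul, nnnorm_mul]
        nth_rewrite 1 [← hp.2]
        calc _ = ‖tc a F p.1‖₊ * r ^ p.1 * (‖tc a G p.2‖₊ * r ^ p.2) := by rw [pow_add]; ring
          _ < _ := this
          _ = _ := by rw [pow_add]; ring
      exact lt_of_mul_lt_mul_right h1 zero_le
    rw [e, IsUltrametricDist.nnnorm_add_eq_max_of_nnnorm_ne_nnnorm hlt.ne', max_eq_left hlt.le,
      nnnorm_mul, ← hF.1, ← hG.1, pow_add]
    ring
  · intro k hk
    have hpos : 0 < gn a r F * gn a r G := by positivity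
    have h2 : ∃ B < gn a r F * gn a r G, ∀ i j, i + j = k →
        ‖tc a F i‖₊ * r ^ i * (‖tc a G j‖₊ * r ^ j) ≤ B := by
      refine ⟨(Finset.HasAntidiagonal.antidiagonal k).sup
        (fun p => ‖tc a F p.1‖₊ * r ^ p.1 * (‖tc a G p.2‖₊ * r ^ p.2)), ?_, ?_⟩
      · rw [Finset.sup_lt_iff (by simpa using hpos)]
        intro p hp
        rw [Finset.HasAntidiagonal.mem_antidiagonal] at hp
        apply key
        by_contra hcon
        push Not at hcon
        omega
      · intro i j hij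
        exact Finset.le_sup (f := fun p : ℕ × ℕ =>
          ‖tc a F p.1‖₊ * r ^ p.1 * (‖tc a G p.2‖₊ * r ^ p.2)) (b := (i, j)) (by simpa using hij)
    obtain ⟨B, hB, hB2⟩ := h2
    exact lt_of_le_of_lt (tc_mul_le hB2) hB

/-- Multiplicativity of the Gauss norm. -/
theorem gn_mul (a : C) (r : ℝ≥0) (F G : C[X]) : gn a r (F * G) = gn a r F * gn a r G := by
  rcases eq_or_ne (gn a r F) 0 with hF | hF
  · apply le_antisymm (gn_mul_le a r F G)
    rw [hF, zero_mul]; exact zero_le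
  rcases eq_or_ne (gn a r G) 0 with hG | hG
  · apply le_antisymm (gn_mul_le a r F G)
    rw [hG, mul_zero]; exact zero_le
  obtain ⟨m, hm⟩ := exists_isTop hF
  obtain ⟨n, hn⟩ := exists_isTop hG
  apply le_antisymm (gn_mul_le a r F G)
  rw [← (isTop_mul_aux hm hn hF hG).1]
  exact le_gn _ _ _ _

theorem isTop_mul {a : C} {r : ℝ≥0} {F G : C[X]} {m n : ℕ} (hF : IsTop a r F m)
    (hG : IsTop a r G n) (hF0 : gn a r F ≠ 0) (hG0 : gn a r G ≠ 0) :
    IsTop a r (F * G) (m + n) := by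
  obtain ⟨h1, h2⟩ := isTop_mul_aux hF hG hF0 hG0
  refine ⟨?_, ?_⟩
  · rw [h1, gn_mul]
  · intro k hk
    rw [gn_mul]; exact h2 k hk

omit [IsUltrametricDist C] in
theorem isTop_unique {a : C} {r : ℝ≥0} {F : C[X]} {m n : ℕ} (hF : IsTop a r F m)
    (hG : IsTop a r F n) : m = n := by
  rcases lt_trichotomy m n with h | h | h
  · exact absurd hG.1 (hF.2 n h).ne
  · exact h
  · exact absurd hF.1 (hG.2 m h).ne

end ultra

end MP9e71ee

end

section

/-!
# Gauss norms and roots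
-/

open Polynomial Filter Topology
open scoped NNReal ENNReal

namespace MP9e71ee

variable {C : Type*} [NontriviallyNormedField C] [IsUltrametricDist C]

omit [IsUltrametricDist C] in
theorem gn_one (a : C) (r : ℝ≥0) : gn a r (1 : C[X]) = 1 := by
  have := gn_C a r (1 : C)
  simpa using this

theorem gn_multiset_prod (a : C) (r : ℝ≥0) (s : Multiset C) :
    gn a r ((s.map (fun b => X - Polynomial.C b)).prod) = (s.map (fun b => max ‖a - b‖₊ r)).prod := by
  induction s using Multiset.induction_on with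
  | empty => simp [gn_one]
  | cons b s ih => rw [Multiset.map_cons, Multiset.prod_cons, gn_mul, ih, gn_X_sub_C,
      Multiset.map_cons, Multiset.prod_cons]

theorem nnnorm_sub_eq_right {x y : C} (h : ‖x‖₊ < ‖y‖₊) : ‖x - y‖₊ = ‖y‖₊ := by
  rw [sub_eq_add_neg, IsUltrametricDist.nnnorm_add_eq_max_of_nnnorm_ne_nnnorm (by simpa using h.ne),
    nnnorm_neg, max_eq_right h.le]

theorem max_recenter {a a' : C} {r : ℝ≥0} (h : ‖a - a'‖₊ ≤ r) (b : C) :
    max ‖a - b‖₊ r = max ‖a' - b‖₊ r := by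
  have key : ∀ {a a' : C}, ‖a - a'‖₊ ≤ r → max ‖a - b‖₊ r ≤ max ‖a' - b‖₊ r := by
    intro a a' h
    apply max_le _ (le_max_right _ _)
    have : a - b = (a - a') + (a' - b) := by ring
    rw [this]
    refine (IsUltrametricDist.nnnorm_add_le_max _ _).trans ?_
    exact max_le (h.trans (le_max_right _ _)) (le_max_left _ _)
  apply le_antisymm (key h)
  apply key
  rwa [← nnnorm_neg, neg_sub]

theorem isTop_X_sub_C_of_le {a b : C} {r : ℝ≥0} (hr : 0 < r) (h : ‖b - a‖₊ ≤ r) :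
    IsTop a r (X - Polynomial.C b) 1 := by
  have h' : ‖a - b‖₊ ≤ r := by rwa [← nnnorm_neg, neg_sub]
  refine ⟨?_, ?_⟩
  · rw [tc_X_sub_C_one, gn_X_sub_C, max_eq_right h']; simp
  · intro k hk
    rw [tc_eq_zero (by rw [Polynomial.natDegree_X_sub_C]; exact hk)]
    simp only [nnnorm_zero, zero_mul]
    rw [gn_X_sub_C]
    exact lt_max_of_lt_right hr

theorem isTop_X_sub_C_of_lt {a b : C} {r : ℝ≥0} (h : r < ‖b - a‖₊) :
    IsTop a r (X - Polynomial.C b) 0 := by
  have h' : r < ‖a - b‖₊ := by rwa [← nnnorm_neg, neg_sub]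
  refine ⟨?_, ?_⟩
  · rw [tc_X_sub_C_zero, gn_X_sub_C, max_eq_left h'.le]; simp
  · intro k hk
    rw [gn_X_sub_C, max_eq_left h'.le]
    rcases Nat.lt_or_ge k 2 with h2 | h2
    · obtain rfl : k = 1 := by omega
      rw [tc_X_sub_C_one]; simpa using h'
    · rw [tc_eq_zero (by rw [Polynomial.natDegree_X_sub_C]; omega)]
      simp only [nnnorm_zero, zero_mul]
      exact lt_of_le_of_lt zero_le h'

theorem isTop_multiset {a : C} {r : ℝ≥0} (hr : 0 < r) (s : Multiset C) :
    IsTop a r ((s.map (fun b => X - Polynomial.C b)).prod)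
      (Multiset.card (s.filter (fun b => ‖b - a‖₊ ≤ r))) := by
  classical
  induction s using Multiset.induction_on with
  | empty =>
    refine ⟨?_, ?_⟩
    · simp [gn_one, tc]
    · intro k hk
      simp only [Multiset.filter_zero, Multiset.card_zero] at hk
      simp only [Multiset.map_zero, Multiset.prod_zero]
      rw [tc_eq_zero (by simpa using hk), gn_one]; simp
  | cons b s ih =>
    have hne : gn a r ((s.map (fun b => X - Polynomial.C b)).prod) ≠ 0 := by
      apply gn_ne_zero hr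
      apply Multiset.prod_ne_zero
      intro h
      rw [Multiset.mem_map] at h
      obtain ⟨c, _, hc⟩ := h
      exact Polynomial.X_sub_C_ne_zero c hc
    have hne2 : gn a r (X - Polynomial.C b) ≠ 0 := gn_ne_zero hr (Polynomial.X_sub_C_ne_zero b)
    rw [Multiset.map_cons, Multiset.prod_cons, Multiset.filter_cons]
    split_ifs with h
    · rw [Multiset.card_add, Multiset.card_singleton]
      exact isTop_mul (isTop_X_sub_C_of_le hr h) ih hne2 hne
    · rw [zero_add]
      have := isTop_mul (isTop_X_sub_C_of_lt (not_le.mp h)) ih hne2 hne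
      rwa [zero_add] at this

theorem isTop_C_mul {a : C} {r : ℝ≥0} {c : C} (hc : c ≠ 0) {F : C[X]} {m : ℕ}
    (h : IsTop a r F m) : IsTop a r (Polynomial.C c * F) m := by
  have hc' : 0 < ‖c‖₊ := by simpa using hc
  refine ⟨?_, ?_⟩
  · rw [tc_C_mul, gn_C_mul, nnnorm_mul, mul_assoc, h.1]
  · intro k hk
    rw [tc_C_mul, gn_C_mul, nnnorm_mul, mul_assoc]
    exact mul_lt_mul_of_pos_left (h.2 k hk) hc'

section algClosed

variable [IsAlgClosed C]

theorem gn_prod (a : C) (r : ℝ≥0) (H : C[X]) :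
    gn a r H = ‖H.leadingCoeff‖₊ * (H.roots.map (fun b => max ‖a - b‖₊ r)).prod := by
  conv_lhs => rw [(IsAlgClosed.splits H).eq_prod_roots]
  rw [gn_C_mul, gn_multiset_prod]

theorem gn_recenter {a a' : C} {r : ℝ≥0} (h : ‖a - a'‖₊ ≤ r) (H : C[X]) :
    gn a r H = gn a' r H := by
  rw [gn_prod, gn_prod]
  congr 3
  ext b
  rw [max_recenter h b]

/-- The number of roots in a closed disc is the largest dominating index. -/
theorem isTop_card_roots (a : C) {r : ℝ≥0} (hr : 0 < r) {H : C[X]} (hH : H ≠ 0) :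
    IsTop a r H (Multiset.card (H.roots.filter (fun b => ‖b - a‖₊ ≤ r))) := by
  have h := isTop_C_mul (a := a) (r := r) (c := H.leadingCoeff)
    (Polynomial.leadingCoeff_ne_zero.mpr hH) (isTop_multiset (a := a) hr H.roots)
  rwa [← (IsAlgClosed.splits H).eq_prod_roots] at h

/-- A polynomial without roots in the open disc of radius `s` around `a` has constant norm there. -/
theorem gn_eq_of_no_roots {a : C} {s : ℝ≥0} {H : C[X]} (h : ∀ b, H.eval b = 0 → s ≤ ‖b - a‖₊)
    {y : C} (hy : ‖y - a‖₊ < s) {r : ℝ≥0} (hr : r ≤ s) : gn y r H = ‖H.eval a‖₊ := by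
  by_cases hH : H = 0
  · subst hH; simp [gn_zero]
  have e1 : ‖H.eval a‖₊ = gn a 0 H := (gn_zero_radius a H).symm
  rw [e1, gn_prod, gn_prod]
  congr 2
  apply Multiset.map_congr rfl
  intro b hb
  have hb' : s ≤ ‖b - a‖₊ := h b (by simpa [hH] using hb)
  have h1 : ‖y - b‖₊ = ‖a - b‖₊ := by
    have : y - b = (y - a) - (b - a) := by ring
    rw [this, nnnorm_sub_eq_right (lt_of_lt_of_le hy hb'), ← nnnorm_neg, neg_sub]
  have h2 : s ≤ ‖a - b‖₊ := by rwa [← nnnorm_neg, neg_sub]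
  rw [h1, max_eq_left (hr.trans h2), max_eq_left zero_le]

/-- Generic points of a disc: distance to finitely many points as large as possible. -/
theorem exists_generic (S : Finset C) (a γ : C) (hγ : γ ≠ 0) :
    ∃ x : C, ‖x - a‖₊ ≤ ‖γ‖₊ ∧ ∀ s ∈ S, ‖x - s‖₊ = max ‖a - s‖₊ ‖γ‖₊ := by
  classical
  set S' : Finset C := insert a (S.filter (fun s => ‖a - s‖₊ ≤ ‖γ‖₊)) with hS'
  have hγ' : 0 < ‖γ‖₊ := by simpa using hγ
  let p : C[X] := ∏ s ∈ S', (X - Polynomial.C s)
  have hp : p.natDegree = S'.card := by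
    simp only [p]
    rw [Polynomial.natDegree_prod_of_monic _ _ (fun s _ => Polynomial.monic_X_sub_C s)]
    simp
  have hcard : 0 < S'.card := Finset.card_pos.mpr ⟨a, by simp [hS']⟩
  have hdeg : (p - Polynomial.C (γ ^ S'.card)).degree ≠ 0 := by
    rw [Polynomial.degree_sub_C]
    · rw [Polynomial.degree_eq_natDegree (Polynomial.Monic.ne_zero
        (Polynomial.monic_prod_of_monic _ _ (fun s _ => Polynomial.monic_X_sub_C s))), hp]
      exact_mod_cast hcard.ne'
    · rw [Polynomial.degree_eq_natDegree (Polynomial.Monic.ne_zero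
        (Polynomial.monic_prod_of_monic _ _ (fun s _ => Polynomial.monic_X_sub_C s))), hp]
      exact_mod_cast hcard
  obtain ⟨x, hx⟩ := IsAlgClosed.exists_root _ hdeg
  have hx' : ∏ s ∈ S', (x - s) = γ ^ S'.card := by
    have : (p - Polynomial.C (γ ^ S'.card)).eval x = 0 := hx
    rw [Polynomial.eval_sub, Polynomial.eval_C, sub_eq_zero] at this
    rw [← this]
    simp [p, Polynomial.eval_prod]
  have hn : ∏ s ∈ S', ‖x - s‖₊ = ∏ s ∈ S', ‖γ‖₊ := by
    rw [← nnnorm_prod, hx', nnnorm_pow]; simp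
  have hmem : ∀ s ∈ S', ‖a - s‖₊ ≤ ‖γ‖₊ := by
    intro s hs
    rw [hS', Finset.mem_insert, Finset.mem_filter] at hs
    rcases hs with rfl | hs
    · simp
    · exact hs.2
  have hle : ‖x - a‖₊ ≤ ‖γ‖₊ := by
    by_contra hcon
    push Not at hcon
    have : ∏ s ∈ S', ‖γ‖₊ < ∏ s ∈ S', ‖x - s‖₊ := by
      apply Finset.prod_lt_prod_of_nonempty
      · intro s _; exact hγ'
      · intro s hs
        have e : x - s = (x - a) + (a - s) := by ring
        rw [e, IsUltrametricDist.nnnorm_add_eq_max_of_nnnorm_ne_nnnorm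
          (ne_of_gt (lt_of_le_of_lt (hmem s hs) hcon))]
        exact lt_max_of_lt_left hcon
      · exact ⟨a, by simp [hS']⟩
    rw [hn] at this
    exact lt_irrefl _ this
  have hle2 : ∀ s ∈ S', ‖x - s‖₊ ≤ ‖γ‖₊ := by
    intro s hs
    have e : x - s = (x - a) + (a - s) := by ring
    rw [e]
    exact (IsUltrametricDist.nnnorm_add_le_max _ _).trans (max_le hle (hmem s hs))
  have heq : ∀ s ∈ S', ‖x - s‖₊ = ‖γ‖₊ := by
    by_contra hcon
    push Not at hcon
    obtain ⟨s, hs, hne⟩ := hcon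
    have : ∏ s ∈ S', ‖x - s‖₊ < ∏ s ∈ S', ‖γ‖₊ := by
      rw [← Finset.mul_prod_erase S' _ hs, ← Finset.mul_prod_erase S' (fun _ => ‖γ‖₊) hs]
      calc ‖x - s‖₊ * ∏ t ∈ S'.erase s, ‖x - t‖₊ ≤ ‖x - s‖₊ * ∏ t ∈ S'.erase s, ‖γ‖₊ := by
            gcongr with t ht
            exact hle2 t (Finset.mem_of_mem_erase ht)
        _ < ‖γ‖₊ * ∏ t ∈ S'.erase s, ‖γ‖₊ := by
            apply mul_lt_mul_of_pos_right (lt_of_le_of_ne (hle2 s hs) hne)
            exact Finset.prod_pos (fun _ _ => hγ')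
    rw [hn] at this
    exact lt_irrefl _ this
  refine ⟨x, hle, ?_⟩
  intro s hs
  by_cases hsa : ‖a - s‖₊ ≤ ‖γ‖₊
  · rw [max_eq_right hsa]
    exact heq s (by rw [hS']; simp [hs, hsa])
  · push Not at hsa
    have e : x - s = (x - a) + (a - s) := by ring
    rw [e, IsUltrametricDist.nnnorm_add_eq_max_of_nnnorm_ne_nnnorm
      (ne_of_lt (lt_of_le_of_lt hle hsa)), max_eq_right (hle.trans hsa.le), max_eq_left hsa.le]

/-- The Gauss norm is attained: it is the norm at a generic point. -/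
theorem exists_eval_eq_gn (a γ : C) (hγ : γ ≠ 0) (H : C[X]) :
    ∃ x : C, ‖x - a‖₊ ≤ ‖γ‖₊ ∧ ‖H.eval x‖₊ = gn a ‖γ‖₊ H := by
  classical
  obtain ⟨x, hx, hs⟩ := exists_generic H.roots.toFinset a γ hγ
  refine ⟨x, hx, ?_⟩
  rw [← gn_zero_radius, gn_prod, gn_prod]
  congr 2
  apply Multiset.map_congr rfl
  intro b hb
  rw [hs b (by simpa using hb), max_eq_left zero_le]

theorem eval_le_gn_of_mem {a x : C} {r : ℝ≥0} (h : ‖x - a‖₊ ≤ r) (H : C[X]) :
    ‖H.eval x‖₊ ≤ gn a r H := by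
  rw [← gn_recenter h]; exact eval_le_gn _ _ _

theorem iSup_eval_eq_gn (a γ : C) (hγ : γ ≠ 0) (H : C[X]) :
    (⨆ z : C, ⨆ _ : ‖z - a‖ ≤ ‖γ‖, ‖H.eval z‖ₑ) = (gn a ‖γ‖₊ H : ℝ≥0∞) := by
  apply le_antisymm
  · apply iSup_le
    intro z
    apply iSup_le
    intro hz
    have : ‖H.eval z‖₊ ≤ gn a ‖γ‖₊ H := eval_le_gn_of_mem (by exact_mod_cast hz) H
    exact_mod_cast this
  · obtain ⟨x, hx, he⟩ := exists_eval_eq_gn a γ hγ H
    rw [← he]
    refine le_iSup_of_le x (le_iSup_of_le (by exact_mod_cast hx) ?_)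
    exact le_rfl

end algClosed

end MP9e71ee

end

section

/-!
# Points of the Berkovich line: disc points and their values
-/

open Polynomial Filter Topology
open scoped NNReal ENNReal

namespace MP9e71ee

variable {C : Type*} [NontriviallyNormedField C]

/-- Polynomials as rational functions. -/
noncomputable abbrev emb (H : C[X]) : RatFunc C := algebraMap C[X] (RatFunc C) H

/-- The function `X - b`. -/
noncomputable abbrev lin (b : C) : RatFunc C := RatFunc.X - RatFunc.C b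

theorem emb_X_sub_C (b : C) : emb (X - Polynomial.C b) = lin b := by
  simp [emb, lin, RatFunc.algebraMap_X, RatFunc.algebraMap_C]

theorem emb_ne_zero {H : C[X]} (h : H ≠ 0) : emb H ≠ 0 := RatFunc.algebraMap_ne_zero h

namespace BerkP1

theorem ext' {ζ ξ : BerkP1 C} (h : ∀ g, ζ g = ξ g) : ζ = ξ := by
  cases ζ; cases ξ; congr; exact funext h

theorem map_C (ζ : BerkP1 C) (a : C) : ζ (RatFunc.C a) = ‖a‖ₑ := ζ.const' a

theorem map_zero (ζ : BerkP1 C) : ζ 0 = 0 := by
  have := ζ.const' 0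
  simpa using this

theorem map_one (ζ : BerkP1 C) : ζ 1 = 1 := by
  have := ζ.const' 1
  simpa using this

theorem map_mul_of_ne_top {ζ : BerkP1 C} {g h : RatFunc C} (hg : ζ g ≠ ⊤) (hh : ζ h ≠ ⊤) :
    ζ (g * h) = ζ g * ζ h := ζ.mul' g h (fun H => hh H.2) (fun H => hg H.1)

theorem map_mul_of_ne_zero {ζ : BerkP1 C} {g h : RatFunc C} (hg : ζ g ≠ 0) (hh : ζ h ≠ 0) :
    ζ (g * h) = ζ g * ζ h := ζ.mul' g h (fun H => hg H.1) (fun H => hh H.2)

theorem map_mul_of_left {ζ : BerkP1 C} {g h : RatFunc C} (hg : ζ g ≠ 0) (hg' : ζ g ≠ ⊤) :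
    ζ (g * h) = ζ g * ζ h := ζ.mul' g h (fun H => hg H.1) (fun H => hg' H.1)

theorem map_C_mul (ζ : BerkP1 C) {a : C} (ha : a ≠ 0) (g : RatFunc C) :
    ζ (RatFunc.C a * g) = ‖a‖ₑ * ζ g := by
  rw [map_mul_of_left (by rw [map_C]; simpa using ha) (by rw [map_C]; exact enorm_ne_top), map_C]

theorem map_neg (ζ : BerkP1 C) (g : RatFunc C) : ζ (-g) = ζ g := by
  have : -g = RatFunc.C (-1) * g := by simp
  rw [this, map_C_mul ζ (by simp)]; simp

theorem map_add_le (ζ : BerkP1 C) (g h : RatFunc C) : ζ (g + h) ≤ max (ζ g) (ζ h) := ζ.add_le' g h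

theorem map_sub_le (ζ : BerkP1 C) (g h : RatFunc C) : ζ (g - h) ≤ max (ζ g) (ζ h) := by
  rw [sub_eq_add_neg, ← map_neg ζ h]; exact ζ.add_le' _ _

theorem map_sub_comm (ζ : BerkP1 C) (g h : RatFunc C) : ζ (g - h) = ζ (h - g) := by
  rw [← map_neg, neg_sub]

theorem map_add_eq_left {ζ : BerkP1 C} {g h : RatFunc C} (H : ζ h < ζ g) : ζ (g + h) = ζ g := by
  apply le_antisymm
  · exact (map_add_le ζ g h).trans (by simp [H.le])
  · by_contra hlt
    push Not at hlt
    have h1 : ζ g ≤ max (ζ (g + h)) (ζ h) := by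
      have := map_sub_le ζ (g + h) h
      simpa using this
    exact absurd (lt_of_le_of_lt h1 (max_lt hlt H)) (lt_irrefl _)

theorem map_sub_eq_left {ζ : BerkP1 C} {g h : RatFunc C} (H : ζ h < ζ g) : ζ (g - h) = ζ g := by
  rw [sub_eq_add_neg]; apply map_add_eq_left; rwa [map_neg]

theorem map_inv (ζ : BerkP1 C) {g : RatFunc C} (hg : g ≠ 0) : ζ g⁻¹ = (ζ g)⁻¹ := by
  by_cases h0 : ζ g = 0
  · rw [h0, ENNReal.inv_zero]
    by_contra hne
    have := map_mul_of_ne_top (ζ := ζ) (g := g) (h := g⁻¹) (by rw [h0]; simp) hne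
    rw [mul_inv_cancel₀ hg, map_one, h0, zero_mul] at this
    exact one_ne_zero this
  · by_cases ht : ζ g = ⊤
    · rw [ht, ENNReal.inv_top]
      by_contra hne
      have := map_mul_of_ne_zero (ζ := ζ) (g := g) (h := g⁻¹) h0 hne
      rw [mul_inv_cancel₀ hg, map_one, ht, ENNReal.top_mul hne] at this
      exact ENNReal.one_ne_top this
    · have := map_mul_of_left (ζ := ζ) (g := g) (h := g⁻¹) h0 ht
      rw [mul_inv_cancel₀ hg, map_one] at this
      exact ENNReal.eq_inv_of_mul_eq_one_left (by rw [mul_comm]; exact this.symm)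

theorem map_div {ζ : BerkP1 C} {g h : RatFunc C} (hh : h ≠ 0) (h1 : ¬ (ζ g = 0 ∧ ζ h = 0))
    (h2 : ¬ (ζ g = ⊤ ∧ ζ h = ⊤)) : ζ (g / h) = ζ g / ζ h := by
  rw [div_eq_mul_inv, ζ.mul', map_inv ζ hh, div_eq_mul_inv]
  · intro H; rw [map_inv ζ hh, ENNReal.inv_eq_top] at H; exact h1 H
  · intro H; rw [map_inv ζ hh, ENNReal.inv_eq_zero] at H; exact h2 H

/-- Finite points have finite values on polynomials. -/
theorem emb_ne_top {ζ : BerkP1 C} (hζ : ζ RatFunc.X ≠ ⊤) (H : C[X]) : ζ (emb H) ≠ ⊤ := by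
  induction H using Polynomial.induction_on' with
  | add p q hp hq =>
    rw [emb, _root_.map_add]
    exact ne_of_lt (lt_of_le_of_lt (map_add_le _ _ _)
      (max_lt (lt_top_iff_ne_top.mpr hp) (lt_top_iff_ne_top.mpr hq)))
  | monomial n a =>
    have : emb (Polynomial.monomial n a) = RatFunc.C a * RatFunc.X ^ n := by
      simp [emb, RatFunc.algebraMap_monomial]
    rw [this]
    have hX : ∀ n : ℕ, ζ (RatFunc.X ^ n) ≠ ⊤ := by
      intro n
      induction n with
      | zero => rw [pow_zero, map_one]; simp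
      | succ n ih =>
        rw [pow_succ, map_mul_of_ne_top ih hζ]
        exact ENNReal.mul_ne_top ih hζ
    rw [map_mul_of_ne_top (by rw [map_C]; exact enorm_ne_top) (hX n)]
    exact ENNReal.mul_ne_top (by rw [map_C]; exact enorm_ne_top) (hX n)

theorem lin_ne_top {ζ : BerkP1 C} (hζ : ζ RatFunc.X ≠ ⊤) (b : C) : ζ (lin b) ≠ ⊤ := by
  rw [← emb_X_sub_C]; exact emb_ne_top hζ _

theorem emb_mul {ζ : BerkP1 C} (hζ : ζ RatFunc.X ≠ ⊤) (F G : C[X]) :
    ζ (emb (F * G)) = ζ (emb F) * ζ (emb G) := by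
  rw [emb, _root_.map_mul]
  exact map_mul_of_ne_top (emb_ne_top hζ F) (emb_ne_top hζ G)

end BerkP1

/-- The value of a finite point on a polynomial, by the roots. -/
theorem BerkP1.emb_eq_prod [IsAlgClosed C] {ζ : BerkP1 C} (hζ : ζ RatFunc.X ≠ ⊤) (H : C[X]) :
    ζ (emb H) = ‖H.leadingCoeff‖ₑ * (H.roots.map (fun b => ζ (lin b))).prod := by
  conv_lhs => rw [(IsAlgClosed.splits H).eq_prod_roots]
  rw [BerkP1.emb_mul hζ]
  congr 1
  · rw [emb, RatFunc.algebraMap_C, BerkP1.map_C]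
  · induction H.roots using Multiset.induction_on with
    | empty => simp [emb, BerkP1.map_one]
    | cons b s ih =>
      rw [Multiset.map_cons, Multiset.prod_cons, BerkP1.emb_mul hζ, ih, emb_X_sub_C,
        Multiset.map_cons, Multiset.prod_cons]

/-- Two coprime polynomials do not vanish at the same finite point. -/
theorem BerkP1.not_both_zero {ζ : BerkP1 C} (hζ : ζ RatFunc.X ≠ ⊤) {F G : C[X]}
    (h : IsCoprime F G) : ¬ (ζ (emb F) = 0 ∧ ζ (emb G) = 0) := by
  rintro ⟨h1, h2⟩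
  obtain ⟨a, b, hab⟩ := h
  have e : emb (a * F + b * G) = emb (a * F) + emb (b * G) := by simp [emb]
  have : ζ (emb (a * F + b * G)) ≤ 0 := by
    rw [e]
    refine (BerkP1.map_add_le _ _ _).trans ?_
    rw [BerkP1.emb_mul hζ, BerkP1.emb_mul hζ, h1, h2]; simp
  rw [hab] at this
  have h1' : ζ (emb (1 : C[X])) = 1 := by rw [emb, _root_.map_one]; exact BerkP1.map_one ζ
  rw [h1'] at this
  simp at this

/-- The value of a finite point on a quotient of coprime polynomials. -/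
theorem BerkP1.map_quot {ζ : BerkP1 C} (hζ : ζ RatFunc.X ≠ ⊤) {F G : C[X]}
    (h : IsCoprime F G) (hG : G ≠ 0) : ζ (emb F / emb G) = ζ (emb F) / ζ (emb G) :=
  BerkP1.map_div (emb_ne_zero hG) (BerkP1.not_both_zero hζ h)
    (fun H => BerkP1.emb_ne_top hζ F H.1)

/-- Finite points are determined by their values on the functions `X - b`. -/
theorem BerkP1.ext_lin [IsAlgClosed C] {ζ ξ : BerkP1 C} (hζ : ζ RatFunc.X ≠ ⊤)
    (h : ∀ b, ζ (lin b) = ξ (lin b)) : ζ = ξ := by
  have hX : ζ RatFunc.X = ξ RatFunc.X := by simpa [lin] using h 0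
  have hξ : ξ RatFunc.X ≠ ⊤ := by rwa [← hX]
  have hemb : ∀ H : C[X], ζ (emb H) = ξ (emb H) := by
    intro H
    rw [BerkP1.emb_eq_prod hζ, BerkP1.emb_eq_prod hξ]
    congr 3
    ext b
    exact h b
  apply BerkP1.ext'
  intro g
  have hg : g = emb g.num / emb g.denom := (RatFunc.num_div_denom g).symm
  rw [hg, BerkP1.map_quot hζ (RatFunc.isCoprime_num_denom g) (RatFunc.denom_ne_zero g),
    BerkP1.map_quot hξ (RatFunc.isCoprime_num_denom g) (RatFunc.denom_ne_zero g), hemb, hemb]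

end MP9e71ee

end

section

/-!
# Construction of points from multiplicative seminorms on polynomials; disc points
-/

open Polynomial Filter Topology
open scoped NNReal ENNReal

namespace MP9e71ee

variable {C : Type*} [NontriviallyNormedField C]

section construct

variable (ν : C[X] → ℝ≥0) (h1 : ∀ a, ν (Polynomial.C a) = ‖a‖₊)
  (h2 : ∀ F G, ν (F + G) ≤ max (ν F) (ν G)) (h3 : ∀ F G, ν (F * G) = ν F * ν G)

include h1 h2 h3 in
theorem sn_not_both {F G : C[X]} (h : IsCoprime F G) : ¬ (ν F = 0 ∧ ν G = 0) := by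
  rintro ⟨hF, hG⟩
  obtain ⟨a, b, hab⟩ := h
  have : ν (a * F + b * G) ≤ 0 := by
    refine (h2 _ _).trans ?_
    rw [h3, h3, hF, hG]; simp
  rw [hab] at this
  have h1' : ν 1 = 1 := by simpa using h1 1
  rw [h1'] at this
  simp at this

/-- The value on a rational function. -/
noncomputable def snVal (g : RatFunc C) : ℝ≥0∞ := (ν g.num : ℝ≥0∞) / ν g.denom

include h1 h2 h3 in
theorem snVal_quot {F G : C[X]} (hG : G ≠ 0) (h : ¬ (ν F = 0 ∧ ν G = 0)) :
    snVal ν (emb F / emb G) = (ν F : ℝ≥0∞) / ν G := by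
  set g : RatFunc C := emb F / emb G with hg
  have hmul : g.num * G = F * g.denom := (RatFunc.num_mul_eq_mul_denom_iff hG).mpr hg
  have hν : ν g.num * ν G = ν F * ν g.denom := by rw [← h3, hmul, h3]
  have hnb := sn_not_both ν h1 h2 h3 (RatFunc.isCoprime_num_denom g)
  unfold snVal
  by_cases hG0 : ν G = 0
  · have hF0 : ν F ≠ 0 := fun hF => h ⟨hF, hG0⟩
    have hd : ν g.denom = 0 := by
      rw [hG0, mul_zero] at hν
      exact (mul_eq_zero.mp hν.symm).resolve_left hF0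
    have hn : ν g.num ≠ 0 := fun hn => hnb ⟨hn, hd⟩
    rw [hd, hG0, ENNReal.coe_zero, ENNReal.div_zero (by exact_mod_cast hn),
      ENNReal.div_zero (by exact_mod_cast hF0)]
  · have hd : ν g.denom ≠ 0 := by
      intro hd
      rw [hd, mul_zero] at hν
      exact hnb ⟨(mul_eq_zero.mp hν).resolve_right hG0, hd⟩
    rw [← ENNReal.coe_div hd, ← ENNReal.coe_div hG0]
    congr 1
    rw [div_eq_div_iff hd hG0, hν]

/-- The point of the Berkovich line given by a multiplicative seminorm on `C[X]`. -/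
noncomputable def ofSN : BerkP1 C where
  toFun := snVal ν
  const' a := by
    have e : RatFunc.C a = emb (Polynomial.C a) / emb 1 := by
      simp [emb, RatFunc.algebraMap_C]
    have h1' : ν 1 = 1 := by simpa using h1 1
    rw [e, snVal_quot ν h1 h2 h3 one_ne_zero (by rw [h1']; simp), h1, h1']
    simp [enorm]
  add_le' g h := by
    by_cases hg : ν g.denom = 0
    · have : ν g.num ≠ 0 := fun H => sn_not_both ν h1 h2 h3 (RatFunc.isCoprime_num_denom g) ⟨H, hg⟩
      have : snVal ν g = ⊤ := by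
        rw [snVal, hg, ENNReal.coe_zero, ENNReal.div_zero (by exact_mod_cast this)]
      rw [this]; simp
    by_cases hh : ν h.denom = 0
    · have : ν h.num ≠ 0 := fun H => sn_not_both ν h1 h2 h3 (RatFunc.isCoprime_num_denom h) ⟨H, hh⟩
      have : snVal ν h = ⊤ := by
        rw [snVal, hh, ENNReal.coe_zero, ENNReal.div_zero (by exact_mod_cast this)]
      rw [this]; simp
    have hgd := RatFunc.denom_ne_zero g
    have hhd := RatFunc.denom_ne_zero h
    have e : g + h = emb (g.num * h.denom + h.num * g.denom) / emb (g.denom * h.denom) := by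
      conv_lhs => rw [← RatFunc.num_div_denom g, ← RatFunc.num_div_denom h]
      rw [div_add_div _ _ (emb_ne_zero hgd) (emb_ne_zero hhd)]
      simp only [emb, map_add, map_mul]
      ring
    have hprod : ν (g.denom * h.denom) ≠ 0 := by rw [h3]; exact mul_ne_zero hg hh
    rw [e, snVal_quot ν h1 h2 h3 (mul_ne_zero hgd hhd) (fun H => hprod H.2)]
    unfold snVal
    rw [← ENNReal.coe_div hprod, ← ENNReal.coe_div hg, ← ENNReal.coe_div hh, ← ENNReal.coe_max,
      ENNReal.coe_le_coe, div_le_iff₀ (pos_iff_ne_zero.mpr hprod)]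
    refine (h2 _ _).trans ?_
    rw [h3, h3, h3]
    apply max_le
    · calc ν g.num * ν h.denom = ν g.num / ν g.denom * (ν g.denom * ν h.denom) := by
            field_simp
        _ ≤ _ := by gcongr; exact le_max_left _ _
    · calc ν h.num * ν g.denom = ν h.num / ν h.denom * (ν g.denom * ν h.denom) := by
            field_simp
        _ ≤ _ := by gcongr; exact le_max_right _ _
  mul' g h H1 H2 := by
    have hgd := RatFunc.denom_ne_zero g
    have hhd := RatFunc.denom_ne_zero h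
    have hgb := sn_not_both ν h1 h2 h3 (RatFunc.isCoprime_num_denom g)
    have hhb := sn_not_both ν h1 h2 h3 (RatFunc.isCoprime_num_denom h)
    have hg0 : snVal ν g = 0 ↔ ν g.num = 0 := by
      unfold snVal; simp [ENNReal.div_eq_zero_iff]
    have hh0 : snVal ν h = 0 ↔ ν h.num = 0 := by
      unfold snVal; simp [ENNReal.div_eq_zero_iff]
    have hgt : snVal ν g = ⊤ ↔ ν g.denom = 0 := by
      unfold snVal
      rw [ENNReal.div_eq_top]
      simp only [ne_eq, ENNReal.coe_eq_zero, ENNReal.coe_ne_top, not_false_eq_true, false_and,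
        or_false]
      tauto
    have hht : snVal ν h = ⊤ ↔ ν h.denom = 0 := by
      unfold snVal
      rw [ENNReal.div_eq_top]
      simp only [ne_eq, ENNReal.coe_eq_zero, ENNReal.coe_ne_top, not_false_eq_true, false_and,
        or_false]
      tauto
    rw [hg0, hht] at H1
    rw [hgt, hh0] at H2
    have e : g * h = emb (g.num * h.num) / emb (g.denom * h.denom) := by
      conv_lhs => rw [← RatFunc.num_div_denom g, ← RatFunc.num_div_denom h]
      rw [div_mul_div_comm]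
      simp only [emb, map_mul]
    rw [e, snVal_quot ν h1 h2 h3 (mul_ne_zero hgd hhd)]
    · rw [h3, h3]
      unfold snVal
      rw [ENNReal.coe_mul, ENNReal.coe_mul]
      exact ENNReal.mul_div_mul_comm (Or.inr ENNReal.coe_ne_top) (Or.inl ENNReal.coe_ne_top)
    · rw [h3, h3]
      rintro ⟨hA, hB⟩
      rcases mul_eq_zero.mp hA with hA | hA <;> rcases mul_eq_zero.mp hB with hB | hB
      · exact hgb ⟨hA, hB⟩
      · exact H1 ⟨hA, hB⟩
      · exact H2 ⟨hB, hA⟩
      · exact hhb ⟨hA, hB⟩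

theorem ofSN_quot {F G : C[X]} (hG : G ≠ 0) (h : ¬ (ν F = 0 ∧ ν G = 0)) :
    ofSN ν h1 h2 h3 (emb F / emb G) = (ν F : ℝ≥0∞) / ν G := snVal_quot ν h1 h2 h3 hG h

theorem ofSN_emb (F : C[X]) : ofSN ν h1 h2 h3 (emb F) = ν F := by
  have h1' : ν 1 = 1 := by simpa using h1 1
  have := ofSN_quot ν h1 h2 h3 (F := F) (G := 1) one_ne_zero (by rw [h1']; simp)
  rw [h1'] at this
  simpa [emb] using this

end construct

variable [IsUltrametricDist C]

/-- The point of the closed disc of centre `a` and radius `r ≥ 0` (the type I point `a` if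
`r = 0`). -/
noncomputable def dpt (a : C) (r : ℝ≥0) : BerkP1 C :=
  ofSN (gn a r) (gn_C a r) (gn_add_le a r) (gn_mul a r)

theorem dpt_emb (a : C) (r : ℝ≥0) (H : C[X]) : dpt a r (emb H) = gn a r H := ofSN_emb _ _ _ _ _

theorem dpt_quot (a : C) (r : ℝ≥0) {F G : C[X]} (hG : G ≠ 0) (h : ¬ (gn a r F = 0 ∧ gn a r G = 0)) :
    dpt a r (emb F / emb G) = (gn a r F : ℝ≥0∞) / gn a r G := ofSN_quot _ _ _ _ hG h

theorem dpt_lin (a : C) (r : ℝ≥0) (b : C) : dpt a r (lin b) = (max ‖a - b‖₊ r : ℝ≥0) := by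
  rw [← emb_X_sub_C, dpt_emb, gn_X_sub_C]

theorem dpt_X (a : C) (r : ℝ≥0) : dpt a r RatFunc.X = (max ‖a‖₊ r : ℝ≥0) := by
  have := dpt_lin a r 0
  simpa [lin] using this

theorem dpt_X_ne_top (a : C) (r : ℝ≥0) : dpt a r RatFunc.X ≠ ⊤ := by
  rw [dpt_X]; exact ENNReal.coe_ne_top

/-- The open Berkovich disc of centre `x` and radius `s`. -/
def ball (x : C) (s : ℝ≥0) : Set (BerkP1 C) := {ζ | ζ (lin x) < s}

omit [IsUltrametricDist C] in
theorem mem_ball {x : C} {s : ℝ≥0} {ζ : BerkP1 C} : ζ ∈ ball x s ↔ ζ (lin x) < s := Iff.rfl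

theorem dpt_mem_ball {a x : C} {r s : ℝ≥0} : dpt a r ∈ ball x s ↔ ‖a - x‖₊ < s ∧ r < s := by
  rw [mem_ball, dpt_lin, ENNReal.coe_lt_coe, max_lt_iff]

theorem dpt_eq_of_le {a b : C} {r : ℝ≥0} [IsAlgClosed C] (h : ‖a - b‖₊ ≤ r) :
    dpt a r = dpt b r := by
  apply BerkP1.ext_lin (dpt_X_ne_top a r)
  intro c
  rw [dpt_lin, dpt_lin, max_recenter h]

theorem dpt_eq_iff [IsAlgClosed C] {a b : C} {r s : ℝ≥0} :
    dpt a r = dpt b s ↔ r = s ∧ ‖a - b‖₊ ≤ r := by
  constructor
  · intro h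
    have h1 := congrArg (fun ζ : BerkP1 C => ζ (lin a)) h
    have h2 := congrArg (fun ζ : BerkP1 C => ζ (lin b)) h
    simp only [dpt_lin, sub_self, nnnorm_zero, ENNReal.coe_inj] at h1 h2
    have h3 : ‖b - a‖₊ = ‖a - b‖₊ := by rw [← nnnorm_neg, neg_sub]
    rw [h3] at h1
    simp only [zero_le, sup_of_le_right] at h1 h2
    have h4 : r = s := by
      apply le_antisymm
      · exact (le_max_right _ _).trans h2.le
      · exact (le_max_right _ _).trans h1.ge
    refine ⟨h4, ?_⟩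
    rw [h4, ← h2]
    exact le_max_left _ _
  · rintro ⟨rfl, h⟩
    exact dpt_eq_of_le h

theorem ball_recenter {x y : C} {s : ℝ≥0} (h : ‖x - y‖₊ < s) :
    (ball x s : Set (BerkP1 C)) = ball y s := by
  have key : ∀ {x y : C}, ‖x - y‖₊ < s → (ball x s : Set (BerkP1 C)) ⊆ ball y s := by
    intro x y h ζ hζ
    rw [mem_ball] at hζ ⊢
    have e : lin y = lin x + RatFunc.C (x - y) := by simp [lin]
    rw [e]
    refine lt_of_le_of_lt (BerkP1.map_add_le _ _ _) (max_lt hζ ?_)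
    rw [BerkP1.map_C]
    exact_mod_cast h
  apply Set.Subset.antisymm (key h)
  apply key
  rwa [← nnnorm_neg, neg_sub]

theorem ball_mono {x : C} {s t : ℝ≥0} (h : s ≤ t) :
    (ball x s : Set (BerkP1 C)) ⊆ ball x t := by
  intro ζ hζ
  rw [mem_ball] at hζ ⊢
  exact lt_of_lt_of_le hζ (by exact_mod_cast h)

/-- Two open discs which meet are nested. -/
theorem ball_subset_of_mem {x y : C} {s t : ℝ≥0} {ζ : BerkP1 C} (h1 : ζ ∈ ball x s)
    (h2 : ζ ∈ ball y t) (hst : s ≤ t) : (ball x s : Set (BerkP1 C)) ⊆ ball y t := by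
  have h3 : ‖x - y‖₊ < t := by
    rw [mem_ball] at h1 h2
    have e : RatFunc.C (x - y) = lin y - lin x := by simp [lin]
    have h4 : ζ (RatFunc.C (x - y)) < t := by
      rw [e]
      refine lt_of_le_of_lt (BerkP1.map_sub_le _ _ _) (max_lt h2 ?_)
      exact lt_of_lt_of_le h1 (by exact_mod_cast hst)
    rw [BerkP1.map_C] at h4
    exact_mod_cast h4
  rw [← ball_recenter h3]
  exact ball_mono hst

/-- The open unit disc. -/
theorem mem_unit {ζ : BerkP1 C} : ζ ∈ ball (0 : C) 1 ↔ ζ RatFunc.X < 1 := by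
  rw [mem_ball]; simp [lin]

omit [IsUltrametricDist C] in
theorem X_ne_top_of_mem_ball {ζ : BerkP1 C} {x : C} {s : ℝ≥0} (h : ζ ∈ ball x s) :
    ζ RatFunc.X ≠ ⊤ := by
  have e : RatFunc.X = lin x + RatFunc.C x := by simp [lin]
  rw [e]
  refine ne_of_lt (lt_of_le_of_lt (BerkP1.map_add_le _ _ _) (max_lt ?_ ?_))
  · exact lt_trans h ENNReal.coe_lt_top
  · rw [BerkP1.map_C]; exact enorm_lt_top

/-- Upper bound for the value of a point of an open disc on a polynomial. -/
theorem BerkP1.emb_le_gn {ζ : BerkP1 C} {x : C} {s : ℝ≥0} (h : ζ (lin x) ≤ s) (H : C[X])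
    [IsAlgClosed C] : ζ (emb H) ≤ gn x s H := by
  have hζ : ζ RatFunc.X ≠ ⊤ := by
    have e : RatFunc.X = lin x + RatFunc.C x := by simp [lin]
    rw [e]
    refine ne_of_lt (lt_of_le_of_lt (BerkP1.map_add_le _ _ _) (max_lt ?_ ?_))
    · exact lt_of_le_of_lt h ENNReal.coe_lt_top
    · rw [BerkP1.map_C]; exact enorm_lt_top
  rw [BerkP1.emb_eq_prod hζ, gn_prod, ENNReal.coe_mul]
  have e2 : ((((H.roots.map (fun b => max ‖x - b‖₊ s)).prod : ℝ≥0)) : ℝ≥0∞) =
      (H.roots.map (fun b => ((max ‖x - b‖₊ s : ℝ≥0) : ℝ≥0∞))).prod := by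
    have := map_multiset_prod ENNReal.ofNNRealHom (H.roots.map (fun b => max ‖x - b‖₊ s))
    rw [Multiset.map_map] at this
    exact this
  rw [e2]
  have e3 : ‖H.leadingCoeff‖ₑ = ((‖H.leadingCoeff‖₊ : ℝ≥0) : ℝ≥0∞) := rfl
  rw [e3]
  gcongr
  apply Multiset.prod_map_le_prod_map
  · intro b _
    have e : lin b = lin x + RatFunc.C (x - b) := by simp [lin]
    rw [e]
    refine (BerkP1.map_add_le _ _ _).trans ?_
    rw [BerkP1.map_C, ENNReal.coe_max]
    apply max_le
    · exact h.trans (le_max_right _ _)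
    · exact le_max_left _ _

end MP9e71ee

end

section

/-!
# Topology of the Berkovich line: convergence, paths, discs
-/

open Polynomial Filter Topology
open scoped NNReal ENNReal

namespace MP9e71ee

variable {C : Type*} [NontriviallyNormedField C]

theorem continuous_toFun : Continuous (BerkP1.toFun : BerkP1 C → RatFunc C → ℝ≥0∞) :=
  continuous_induced_dom

theorem continuous_eval (g : RatFunc C) : Continuous (fun ζ : BerkP1 C => ζ g) :=
  (continuous_apply g).comp continuous_toFun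

theorem continuous_map (φ : RatFunc C →ₐ[C] RatFunc C) : Continuous (BerkP1.map φ) := by
  rw [continuous_induced_rng]
  apply continuous_pi
  intro g
  exact continuous_eval (φ g)

theorem isOpen_ball (x : C) (s : ℝ≥0) : IsOpen (ball x s : Set (BerkP1 C)) :=
  isOpen_lt (continuous_eval (lin x)) continuous_const

theorem tendsto_iff {α : Type*} {l : Filter α} {g : α → BerkP1 C} {ζ : BerkP1 C} :
    Tendsto g l (𝓝 ζ) ↔ ∀ h : RatFunc C, Tendsto (fun y => g y h) l (𝓝 (ζ h)) := by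
  rw [nhds_induced, tendsto_comap_iff, tendsto_pi_nhds]
  rfl

variable [IsAlgClosed C]

/-- Convergence to a finite point is tested on the functions `X - b`. -/
theorem tendsto_of_lin {α : Type*} {l : Filter α} {g : α → BerkP1 C} {ζ : BerkP1 C}
    (hζ : ζ RatFunc.X ≠ ⊤) (h : ∀ b, Tendsto (fun y => g y (lin b)) l (𝓝 (ζ (lin b)))) :
    Tendsto g l (𝓝 ζ) := by
  rw [tendsto_iff]
  have hX : ∀ᶠ y in l, g y RatFunc.X ≠ ⊤ := by
    have h0 := h 0
    simp only [lin, map_zero, sub_zero] at h0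
    exact h0.eventually_ne hζ
  have hpoly : ∀ H : C[X], Tendsto (fun y => g y (emb H)) l (𝓝 (ζ (emb H))) := by
    intro H
    rw [BerkP1.emb_eq_prod hζ]
    have e : (fun y => ‖H.leadingCoeff‖ₑ * (H.roots.map (fun b => g y (lin b))).prod) =ᶠ[l]
        (fun y => g y (emb H)) := by
      filter_upwards [hX] with y hy
      rw [BerkP1.emb_eq_prod hy]
    refine Tendsto.congr' e ?_
    have hprod : ∀ s : Multiset C, (s.map (fun b => ζ (lin b))).prod ≠ ⊤ ∧
        Tendsto (fun y => (s.map (fun b => g y (lin b))).prod) l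
          (𝓝 ((s.map (fun b => ζ (lin b))).prod)) := by
      intro s
      induction s using Multiset.induction_on with
      | empty => simp [tendsto_const_nhds]
      | cons b s ih =>
        simp only [Multiset.map_cons, Multiset.prod_cons]
        refine ⟨ENNReal.mul_ne_top (BerkP1.lin_ne_top hζ b) ih.1, ?_⟩
        exact ENNReal.Tendsto.mul (h b) (Or.inr ih.1) ih.2 (Or.inr (BerkP1.lin_ne_top hζ b))
    exact ENNReal.Tendsto.mul tendsto_const_nhds (Or.inr (hprod _).1) (hprod _).2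
      (Or.inr enorm_ne_top)
  intro k
  have hk : k = emb k.num / emb k.denom := (RatFunc.num_div_denom k).symm
  have hc := RatFunc.isCoprime_num_denom k
  have hd := RatFunc.denom_ne_zero k
  rw [hk, BerkP1.map_quot hζ hc hd]
  have e : (fun y => g y (emb k.num) / g y (emb k.denom)) =ᶠ[l]
      (fun y => g y (emb k.num / emb k.denom)) := by
    filter_upwards [hX] with y hy
    rw [BerkP1.map_quot hy hc hd]
  refine Tendsto.congr' e ?_
  refine ENNReal.Tendsto.div (hpoly _) ?_ (hpoly _) (Or.inl (BerkP1.emb_ne_top hζ _))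
  by_contra hcon
  push Not at hcon
  exact BerkP1.not_both_zero hζ hc hcon

/-- A neighbourhood of a finite point contains all points that agree with it on finitely many
functions `X - b`. -/
theorem exists_finset_of_mem_nhds {ζ : BerkP1 C} (hζ : ζ RatFunc.X ≠ ⊤) {V : Set (BerkP1 C)}
    (hV : V ∈ 𝓝 ζ) : ∃ S : Finset C, ∀ ξ : BerkP1 C, (∀ b ∈ S, ξ (lin b) = ζ (lin b)) → ξ ∈ V := by
  classical
  by_contra hcon
  push Not at hcon
  choose g hg hgV using hcon
  have ht : Tendsto g atTop (𝓝 ζ) := by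
    apply tendsto_of_lin hζ
    intro b
    refine tendsto_const_nhds.congr' ?_
    filter_upwards [eventually_ge_atTop ({b} : Finset C)] with S hS
    exact (hg S b (hS (Finset.mem_singleton_self b))).symm
  obtain ⟨S, hS⟩ := (ht.eventually hV).exists
  exact hgV S hS

variable [IsUltrametricDist C]

/-- The vertical path through disc points is continuous. -/
theorem continuous_dpt (a : C) : Continuous (fun r : ℝ≥0 => dpt a r) := by
  rw [continuous_iff_continuousAt]
  intro r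
  apply tendsto_of_lin (dpt_X_ne_top a r)
  intro b
  simp only [dpt_lin]
  have : Continuous (fun r : ℝ≥0 => ((max ‖a - b‖₊ r : ℝ≥0) : ℝ≥0∞)) :=
    ENNReal.continuous_coe.comp (continuous_const.max continuous_id)
  exact this.tendsto r

/-- The complement of an open disc and its boundary point is open. -/
theorem isOpen_compl_closure (x : C) (s : ℝ≥0) :
    IsOpen ((ball x s ∪ {dpt x s} : Set (BerkP1 C))ᶜ) := by
  rw [isOpen_iff_mem_nhds]
  intro ζ hζ
  have h1 : (s : ℝ≥0∞) ≤ ζ (lin x) := by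
    by_contra h
    exact hζ (Or.inl (not_le.mp h))
  have h2 : ζ ≠ dpt x s := fun h => hζ (Or.inr h)
  rcases lt_or_eq_of_le h1 with h3 | h3
  · have : {ξ : BerkP1 C | (s : ℝ≥0∞) < ξ (lin x)} ∈ 𝓝 ζ :=
      (isOpen_lt continuous_const (continuous_eval (lin x))).mem_nhds h3
    filter_upwards [this] with ξ hξ
    rintro (h' | h')
    · exact absurd (lt_trans hξ h') (lt_irrefl _)
    · rw [Set.mem_singleton_iff] at h'
      rw [h', dpt_lin] at hξ
      simp at hξ
  · have hX : ζ RatFunc.X ≠ ⊤ := by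
      have e : RatFunc.X = lin x + RatFunc.C x := by simp [lin]
      rw [e]
      refine ne_of_lt (lt_of_le_of_lt (BerkP1.map_add_le _ _ _) (max_lt ?_ ?_))
      · rw [← h3]; exact ENNReal.coe_lt_top
      · rw [BerkP1.map_C]; exact enorm_lt_top
    have h4 : ∃ b, ζ (lin b) ≠ dpt x s (lin b) := by
      by_contra hcon
      push Not at hcon
      exact h2 (BerkP1.ext_lin hX hcon)
    obtain ⟨b, hb⟩ := h4
    rw [dpt_lin] at hb
    have e1 : lin b = lin x + RatFunc.C (x - b) := by simp [lin]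
    have e2 : lin x = lin b + RatFunc.C (b - x) := by simp [lin]
    have h5 : ζ (lin b) < (max ‖x - b‖₊ s : ℝ≥0) := by
      refine lt_of_le_of_ne ?_ hb
      rw [e1]
      refine (BerkP1.map_add_le _ _ _).trans ?_
      rw [BerkP1.map_C, ← h3, ENNReal.coe_max]
      exact max_le (le_max_right _ _) (le_max_left _ _)
    have h6 : ‖x - b‖₊ = s := by
      rcases lt_trichotomy ‖x - b‖₊ s with h | h | h
      · exfalso
        rw [max_eq_right h.le] at h5
        have : ζ (lin x) < s := by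
          rw [e2]
          refine lt_of_le_of_lt (BerkP1.map_add_le _ _ _) (max_lt h5 ?_)
          rw [BerkP1.map_C]
          have : ‖b - x‖₊ < s := by rwa [← nnnorm_neg, neg_sub]
          exact_mod_cast this
        exact absurd this (not_lt.mpr h1)
      · exact h
      · exfalso
        rw [max_eq_left h.le] at h5
        have h7 : ζ (RatFunc.C (x - b)) < (‖x - b‖₊ : ℝ≥0) := by
          have e3 : RatFunc.C (x - b) = lin b - lin x := by simp [lin]
          rw [e3]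
          refine lt_of_le_of_lt (BerkP1.map_sub_le _ _ _) (max_lt h5 ?_)
          rw [← h3]; exact_mod_cast h
        rw [BerkP1.map_C] at h7
        exact absurd h7 (lt_irrefl _)
    rw [h6, max_self] at h5
    filter_upwards [(isOpen_ball b s).mem_nhds h5] with ξ hξ
    rintro (h' | h')
    · have h7 : ξ (RatFunc.C (x - b)) < s := by
        have e3 : RatFunc.C (x - b) = lin b - lin x := by simp [lin]
        rw [e3]
        exact lt_of_le_of_lt (BerkP1.map_sub_le _ _ _) (max_lt hξ h')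
      rw [BerkP1.map_C] at h7
      have h8 : ‖x - b‖₊ < s := by exact_mod_cast h7
      exact absurd h6 h8.ne
    · rw [Set.mem_singleton_iff] at h'
      rw [mem_ball, h', dpt_lin, h6] at hξ
      simp at hξ

/-- A preconnected set which meets an open disc and avoids its boundary point lies in the disc. -/
theorem subset_ball_of_preconnected {U : Set (BerkP1 C)} (hU : IsPreconnected U) {x : C} {s : ℝ≥0}
    (h1 : dpt x s ∉ U) (h2 : (U ∩ ball x s).Nonempty) : U ⊆ ball x s := by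
  by_contra hcon
  rw [Set.not_subset] at hcon
  obtain ⟨ζ, hζ, hζb⟩ := hcon
  have hcov : U ⊆ ball x s ∪ (ball x s ∪ {dpt x s})ᶜ := by
    intro ξ hξ
    by_cases h : ξ ∈ ball x s
    · exact Or.inl h
    · right
      rintro (h' | h')
      · exact h h'
      · rw [Set.mem_singleton_iff] at h'
        exact h1 (h' ▸ hξ)
  obtain ⟨ξ, _, hξ1, hξ2⟩ := hU _ _ (isOpen_ball x s) (isOpen_compl_closure x s) hcov h2
    ⟨ζ, hζ, by
      rintro (h' | h')
      · exact hζb h'
      · rw [Set.mem_singleton_iff] at h'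
        exact h1 (h' ▸ hζ)⟩
  exact hξ2 (Or.inl hξ1)

/-- The path going up from a finite point. -/
theorem exists_upPath {ζ : BerkP1 C} (hζ : ζ RatFunc.X ≠ ⊤) :
    ∃ p : ℝ≥0 → BerkP1 C, Continuous p ∧ p 0 = ζ ∧
      (∀ (r : ℝ≥0) (b : C), p r (lin b) = max (ζ (lin b)) r) ∧
      (∀ (r : ℝ≥0) (a : C), ζ (lin a) ≤ (r : ℝ≥0∞) → p r = dpt a r) := by
  classical
  let p : ℝ≥0 → BerkP1 C := fun r =>
    if h : ∃ a, ζ (lin a) ≤ (r : ℝ≥0∞) then dpt h.choose r else ζ
  have hval : ∀ (r : ℝ≥0) (b : C), p r (lin b) = max (ζ (lin b)) r := by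
    intro r b
    by_cases h : ∃ a, ζ (lin a) ≤ (r : ℝ≥0∞)
    · have hp : p r = dpt h.choose r := by simp only [p]; rw [dif_pos h]
      rw [hp, dpt_lin]
      have ha := h.choose_spec
      set a := h.choose
      apply le_antisymm
      · rw [ENNReal.coe_max]
        apply max_le _ (le_max_right _ _)
        have e3 : RatFunc.C (a - b) = lin b - lin a := by simp [lin]
        have : ζ (RatFunc.C (a - b)) ≤ max (ζ (lin b)) (ζ (lin a)) := by
          rw [e3]; exact BerkP1.map_sub_le _ _ _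
        rw [BerkP1.map_C] at this
        exact this.trans (max_le_max le_rfl ha)
      · rw [ENNReal.coe_max]
        apply max_le _ (le_max_right _ _)
        have e1 : lin b = lin a + RatFunc.C (a - b) := by simp [lin]
        rw [e1]
        refine (BerkP1.map_add_le _ _ _).trans ?_
        rw [BerkP1.map_C]
        exact max_le (ha.trans (le_max_right _ _)) (le_max_left _ _)
    · have hp : p r = ζ := by simp only [p]; rw [dif_neg h]
      rw [hp]
      push Not at h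
      rw [max_eq_left (h b).le]
  have hfin : ∀ r : ℝ≥0, p r RatFunc.X ≠ ⊤ := by
    intro r
    have := hval r 0
    simp only [lin, map_zero, sub_zero] at this
    rw [this]
    exact ne_of_lt (max_lt (lt_top_iff_ne_top.mpr hζ) ENNReal.coe_lt_top)
  refine ⟨p, ?_, ?_, hval, ?_⟩
  · rw [continuous_iff_continuousAt]
    intro r
    apply tendsto_of_lin (hfin r)
    intro b
    simp only [hval]
    have : Continuous (fun r : ℝ≥0 => max (ζ (lin b)) (r : ℝ≥0∞)) :=
      continuous_const.max ENNReal.continuous_coe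
    exact this.tendsto r
  · apply BerkP1.ext_lin (hfin 0)
    intro b
    rw [hval]; simp
  · intro r a ha
    apply BerkP1.ext_lin (hfin r)
    intro b
    rw [hval, dpt_lin]
    apply le_antisymm
    · rw [ENNReal.coe_max]
      apply max_le _ (le_max_right _ _)
      have e1 : lin b = lin a + RatFunc.C (a - b) := by simp [lin]
      rw [e1]
      refine (BerkP1.map_add_le _ _ _).trans ?_
      rw [BerkP1.map_C]
      exact max_le (ha.trans (le_max_right _ _)) (le_max_left _ _)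
    · rw [ENNReal.coe_max]
      apply max_le _ (le_max_right _ _)
      have e3 : RatFunc.C (a - b) = lin b - lin a := by simp [lin]
      have : ζ (RatFunc.C (a - b)) ≤ max (ζ (lin b)) (ζ (lin a)) := by
        rw [e3]; exact BerkP1.map_sub_le _ _ _
      rw [BerkP1.map_C] at this
      exact this.trans (max_le_max le_rfl ha)

/-- Open discs are preconnected. -/
theorem isPreconnected_ball (x : C) (s : ℝ≥0) : IsPreconnected (ball x s : Set (BerkP1 C)) := by
  apply isPreconnected_of_forall_pair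
  intro ζ hζ ξ hξ
  obtain ⟨p, hp, hp0, hpv, hpd⟩ := exists_upPath (X_ne_top_of_mem_ball hζ)
  obtain ⟨q, hq, hq0, hqv, hqd⟩ := exists_upPath (X_ne_top_of_mem_ball hξ)
  have hm : max (ζ (lin x)) (ξ (lin x)) < s := max_lt hζ hξ
  obtain ⟨r, hr1, hr2⟩ : ∃ r : ℝ≥0, max (ζ (lin x)) (ξ (lin x)) = r ∧ r < s := by
    have hfin : max (ζ (lin x)) (ξ (lin x)) ≠ ⊤ := ne_of_lt (lt_trans hm ENNReal.coe_lt_top)
    refine ⟨(max (ζ (lin x)) (ξ (lin x))).toNNReal, (ENNReal.coe_toNNReal hfin).symm, ?_⟩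
    rw [← ENNReal.coe_lt_coe, ENNReal.coe_toNNReal hfin]; exact hm
  have h1 : ζ (lin x) ≤ r := by rw [← hr1]; exact le_max_left _ _
  have h2 : ξ (lin x) ≤ r := by rw [← hr1]; exact le_max_right _ _
  refine ⟨p '' Set.Icc 0 r ∪ q '' Set.Icc 0 r, ?_, ?_, ?_, ?_⟩
  · rintro η (⟨t, ht, rfl⟩ | ⟨t, ht, rfl⟩)
    · rw [mem_ball, hpv]
      exact max_lt hζ (by exact_mod_cast lt_of_le_of_lt ht.2 hr2)
    · rw [mem_ball, hqv]
      exact max_lt hξ (by exact_mod_cast lt_of_le_of_lt ht.2 hr2)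
  · exact Or.inl ⟨0, ⟨le_rfl, zero_le⟩, hp0⟩
  · exact Or.inr ⟨0, ⟨le_rfl, zero_le⟩, hq0⟩
  · apply IsPreconnected.union (dpt x r)
    · exact ⟨r, ⟨zero_le, le_rfl⟩, hpd r x h1⟩
    · exact ⟨r, ⟨zero_le, le_rfl⟩, hqd r x h2⟩
    · exact isPreconnected_Icc.image _ hp.continuousOn
    · exact isPreconnected_Icc.image _ hq.continuousOn

/-- Open discs with their boundary point are preconnected. -/
theorem isPreconnected_ball_union (x : C) (s : ℝ≥0) :
    IsPreconnected (ball x s ∪ {dpt x s} : Set (BerkP1 C)) := by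
  apply isPreconnected_of_forall (dpt x s)
  rintro ζ (hζ | hζ)
  · obtain ⟨p, hp, hp0, hpv, hpd⟩ := exists_upPath (X_ne_top_of_mem_ball hζ)
    refine ⟨p '' Set.Icc 0 s, ?_, ?_, ?_, ?_⟩
    · rintro η ⟨t, ht, rfl⟩
      rcases lt_or_eq_of_le ht.2 with h | h
      · left
        rw [mem_ball, hpv]
        exact max_lt hζ (by exact_mod_cast h)
      · right
        rw [Set.mem_singleton_iff, h]
        exact hpd s x (le_of_lt hζ)
    · exact ⟨s, ⟨zero_le, le_rfl⟩, hpd s x (le_of_lt hζ)⟩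
    · exact ⟨0, ⟨le_rfl, zero_le⟩, hp0⟩
    · exact isPreconnected_Icc.image _ hp.continuousOn
  · rw [Set.mem_singleton_iff] at hζ
    subst hζ
    exact ⟨{dpt x s}, by simp, rfl, rfl, isPreconnected_singleton⟩

/-- Points in pairwise distinct directions at a disc point converge to it. -/
theorem tendsto_of_directions {x : ℕ → C} {s : ℝ≥0} {ζ : ℕ → BerkP1 C}
    (h1 : ∀ k, ζ k ∈ ball (x k) s) (h2 : ∀ k l, k ≠ l → ‖x k - x l‖₊ = s) :
    Tendsto ζ atTop (𝓝 (dpt (x 0) s)) := by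
  have hs : 0 < s := by
    have := h1 0
    rw [mem_ball] at this
    exact_mod_cast lt_of_le_of_lt zero_le this
  apply tendsto_of_lin (dpt_X_ne_top _ _)
  intro b
  rw [dpt_lin]
  have h3 : ∀ k, ‖x 0 - x k‖₊ ≤ s := by
    intro k
    rcases eq_or_ne 0 k with h | h
    · rw [← h]; simp
    · exact (h2 0 k h).le
  have h4 : ∀ k, s ≤ ‖x k - b‖₊ → ζ k (lin b) = (max ‖x 0 - b‖₊ s : ℝ≥0) := by
    intro k hk
    rw [max_recenter (h3 k) b, max_eq_left hk]
    have e1 : lin b = RatFunc.C (x k - b) + lin (x k) := by simp [lin]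
    rw [e1, BerkP1.map_add_eq_left, BerkP1.map_C]
    · rfl
    · rw [BerkP1.map_C]
      exact lt_of_lt_of_le (h1 k) (by exact_mod_cast hk)
  refine tendsto_const_nhds.congr' ?_
  by_cases hex : ∃ k, ‖x k - b‖₊ < s
  · obtain ⟨k, hk⟩ := hex
    filter_upwards [eventually_gt_atTop k] with l hl
    symm
    apply h4
    by_contra hcon
    push Not at hcon
    have e : x k - x l = (x k - b) - (x l - b) := by ring
    have : ‖x k - x l‖₊ < s := by
      rw [e, sub_eq_add_neg]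
      refine lt_of_le_of_lt (IsUltrametricDist.nnnorm_add_le_max _ _) (max_lt hk ?_)
      rwa [nnnorm_neg]
    exact absurd (h2 k l hl.ne) this.ne
  · push Not at hex
    exact Eventually.of_forall (fun k => (h4 k (hex k)).symm)

end MP9e71ee

end

section

/-!
# The normalised situation, and statements of the independent items
-/

open Polynomial Filter Topology
open scoped NNReal ENNReal

namespace MP9e71ee

variable {C : Type*} [NontriviallyNormedField C]

/-- The normalised situation: wandering Fatou components `V 0, V 1, …`, the complement of the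
open unit disc being contained in `V 0`. -/
structure Setup (φ : RatFunc C →ₐ[C] RatFunc C) (V : ℕ → Set (BerkP1 C)) : Prop where
  comp : ∀ n, IsFatouComponent φ (V n)
  maps : ∀ n, Set.MapsTo (BerkP1.map φ) (V n) (V (n + 1))
  inj : ∀ m n, m ≠ n → V m ≠ V n
  unit : ∀ ζ : BerkP1 C, 1 ≤ ζ RatFunc.X → ζ ∈ V 0

/-- Value at a point of `C` of the rational function `P / Q`. -/
noncomputable def ev (P Q : C[X]) (x : C) : C := P.eval x / Q.eval x

/-- Item POT: the potential lemma. -/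
def ClaimPOT : Prop :=
  ∀ (ι : Type) [Fintype ι] (b Δ : ℕ) (ρ0 : ℝ≥0) (v : ℕ → ℝ≥0) (j : ℕ → ι) (ρ : ℕ → ℝ≥0 → ℝ≥0),
    0 < ρ0 → ρ0 ≤ 1 → (∀ n, n < b → v (n + 1) ≤ v n) → (∀ n, n ≤ b → 0 < v n) →
    (∀ n, n < b → ∀ s, v (n + 1) < s → s ≤ v n → ρ0 ≤ ρ n s ∧ ρ n s ≤ 1) →
    (∀ n, n < b → ∀ s s', v (n + 1) < s' → s' < s → s ≤ v n →
      s * ρ n s' ^ Δ ≤ s' * ρ n s ^ Δ) →
    (∀ n m, n < m → m < b → j n = j m → ∀ s s', v (n + 1) < s → s ≤ v n → v (m + 1) < s' →
      s' ≤ v m → ρ m s' ≤ ρ n s) →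
    v 0 * ρ0 ^ (Fintype.card ι * Δ) ≤ v b

/-- Item TAME: the number of preimages in a closed disc is prime to the residue characteristic. -/
def ClaimTAME (C : Type*) [NontriviallyNormedField C] [IsUltrametricDist C] [IsAlgClosed C] :
    Prop :=
  ∀ (φ : RatFunc C →ₐ[C] RatFunc C) (P Q : C[X]), Tame φ → IsCoprime P Q →
    φ RatFunc.X = emb P / emb Q → ∀ (x γ : C), γ ≠ 0 →
    (∀ b, Q.eval b = 0 → ‖γ‖₊ < ‖b - x‖₊) →
    ∀ m, IsTop x ‖γ‖₊ (P - Polynomial.C (ev P Q x) * Q) m → ‖(m : C)‖ = 1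

/-- Item APPROX: approximation over a discretely valued field. -/
def ClaimAPPROX (C : Type*) [NontriviallyNormedField C] [IsUltrametricDist C] : Prop :=
  HypH C → ∀ (P Q : C[X]) (S : Finset C) (ε : ℝ≥0), 0 < ε →
    ∃ (K : Subfield C) (κ : ℝ), 0 < κ ∧ κ < 1 ∧ (∀ x ∈ K, x ≠ 0 → ∃ n : ℤ, ‖x‖ = κ ^ n) ∧
      (∃ P' Q' : C[X], (∀ k, P'.coeff k ∈ K) ∧ (∀ k, Q'.coeff k ∈ K) ∧
        gn 0 1 (P - P') < ε ∧ gn 0 1 (Q - Q') < ε) ∧
      ∀ a ∈ S, ∃ a' ∈ K, ‖a - a'‖₊ < ε

/-- Item STEP0: reduction to the normalised situation by a change of coordinates. -/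
def ClaimSTEP0 (C : Type*) [NontriviallyNormedField C] [IsUltrametricDist C] [IsAlgClosed C] :
    Prop :=
  (∀ (φ : RatFunc C →ₐ[C] RatFunc C) (V : ℕ → Set (BerkP1 C)), Tame φ → Setup φ V →
      InTypeIIBasin φ (V 0)) →
    ∀ (φ : RatFunc C →ₐ[C] RatFunc C) (U : Set (BerkP1 C)), Tame φ → IsWandering φ U →
      InTypeIIBasin φ U

end MP9e71ee

end

section

/-!
# Item APPROX: approximation over a discretely valued field
-/

open Polynomial Filter Topology
open scoped NNReal ENNReal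

namespace MP9e71ee

variable {C : Type*} [NontriviallyNormedField C] [IsUltrametricDist C]

/-- The value group of a finite extension of a discretely valued field. -/
theorem approx_value (K₀ : Subfield C) (c : ℝ)
    (hK : ∀ x ∈ K₀, x ≠ 0 → ∃ n : ℤ, ‖x‖ = c ^ n) (E : IntermediateField K₀ C)
    [FiniteDimensional K₀ E] (κ : ℝ) (hκ0 : 0 < κ)
    (hκ : κ ^ (Module.finrank K₀ E).factorial = c) (x : C) (hx : x ∈ E) (hx0 : x ≠ 0) :
    ∃ n : ℤ, ‖x‖ = κ ^ n := by
  classical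
  set N := Module.finrank K₀ E with hN
  set y : E := ⟨x, hx⟩ with hy
  set p : K₀[X] := minpoly K₀ y with hp
  have hint : IsIntegral K₀ y := Algebra.IsIntegral.isIntegral y
  have hp0 : p ≠ 0 := minpoly.ne_zero hint
  have hdeg : p.natDegree ≤ N := minpoly.natDegree_le y
  have hroot : ∑ i ∈ p.support, ((p.coeff i : K₀) : C) * x ^ i = 0 := by
    have h1 : aeval y p = 0 := minpoly.aeval K₀ y
    have h2 : aeval x p = 0 := by
      have h3 : aeval (algebraMap E C y) p = algebraMap E C (aeval y p) :=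
        aeval_algebraMap_apply C y p
      rw [h1, map_zero] at h3
      exact h3
    rw [aeval_def, eval₂_eq_sum, Polynomial.sum] at h2
    exact h2
  have hne : ∀ i ∈ p.support, ((p.coeff i : K₀) : C) ≠ 0 := by
    intro i hi h
    exact (mem_support_iff.1 hi) (by exact_mod_cast h)
  -- two terms have the same norm
  have hpair : ∃ i ∈ p.support, ∃ j ∈ p.support, i < j ∧
      ‖((p.coeff i : K₀) : C) * x ^ i‖₊ = ‖((p.coeff j : K₀) : C) * x ^ j‖₊ := by
    by_contra hcon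
    push Not at hcon
    have hpw : Set.Pairwise (p.support : Set ℕ)
        (fun i j => ‖((p.coeff i : K₀) : C) * x ^ i‖₊ ≠ ‖((p.coeff j : K₀) : C) * x ^ j‖₊) := by
      intro i hi j hj hij
      rcases lt_or_gt_of_ne hij with h | h
      · exact hcon i hi j hj h
      · exact (hcon j hj i hi h).symm
    have h1 := IsUltrametricDist.nnnorm_sum_eq_sup_of_pairwise_ne hpw
    rw [hroot, nnnorm_zero] at h1
    obtain ⟨i, hi⟩ := support_nonempty.2 hp0
    have h2 : ‖((p.coeff i : K₀) : C) * x ^ i‖₊ ≤ 0 := by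
      rw [h1]
      exact Finset.le_sup (f := fun i => ‖((p.coeff i : K₀) : C) * x ^ i‖₊) hi
    have h3 : ((p.coeff i : K₀) : C) * x ^ i = 0 := nnnorm_eq_zero.1 (le_antisymm h2 zero_le)
    exact mul_ne_zero (hne i hi) (pow_ne_zero _ hx0) h3
  obtain ⟨i, hi, j, hj, hij, heq⟩ := hpair
  have hjN : j ≤ N := (le_natDegree_of_mem_supp j hj).trans hdeg
  have hd0 : 0 < j - i := by omega
  obtain ⟨e, he⟩ : (j - i) ∣ N.factorial := Nat.dvd_factorial hd0 (by omega)
  -- the norm of the quotient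
  have hq : ((p.coeff i : K₀) : C) / ((p.coeff j : K₀) : C) ∈ K₀ :=
    K₀.div_mem (p.coeff i).2 (p.coeff j).2
  obtain ⟨n, hn⟩ := hK _ hq (div_ne_zero (hne i hi) (hne j hj))
  have hxn : 0 < ‖x‖ := norm_pos_iff.2 hx0
  have hjn : 0 < ‖((p.coeff j : K₀) : C)‖ := norm_pos_iff.2 (hne j hj)
  have hpow : ‖x‖ ^ (j - i) = c ^ n := by
    rw [← hn, norm_div]
    have h1 : ‖((p.coeff i : K₀) : C)‖ * ‖x‖ ^ i = ‖((p.coeff j : K₀) : C)‖ * ‖x‖ ^ j := by
      have := congrArg ((↑) : ℝ≥0 → ℝ) heq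
      simpa using this
    have h2 : ‖x‖ ^ j = ‖x‖ ^ (j - i) * ‖x‖ ^ i := by
      rw [← pow_add]
      congr 1
      omega
    rw [h2, ← mul_assoc] at h1
    have h3 := mul_right_cancel₀ (pow_ne_zero i hxn.ne') h1
    rw [h3]
    field_simp
  refine ⟨n * e, ?_⟩
  have hpos : 0 < κ ^ (n * (e : ℤ)) := zpow_pos hκ0 _
  refine (pow_left_inj₀ hxn.le hpos.le hd0.ne').1 ?_
  rw [hpow, ← hκ, he, ← zpow_natCast, ← zpow_natCast, ← zpow_mul, ← zpow_mul]
  congr 1
  push_cast
  ring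

omit [IsUltrametricDist C] in
theorem approx_gn_lt {H : C[X]} {ε : ℝ≥0} (hε : 0 < ε) (h : ∀ k, ‖H.coeff k‖₊ < ε) :
    gn 0 1 H < ε := by
  rw [gn, Finset.sup_lt_iff (by simpa using hε)]
  intro k _
  rw [one_pow, mul_one, tc, taylor_zero]
  exact h k

theorem claimAPPROX : ClaimAPPROX C := by
  classical
  rintro ⟨K₀, c, hc0, hc1, hK, hdense⟩ P Q S ε hε
  have happ : ∀ z : C, ∃ a : C, IsAlgebraic K₀ a ∧ ‖z - a‖₊ < ε := by
    intro z
    obtain ⟨a, ha, hd⟩ := Metric.dense_iff.1 hdense z ε (by exact_mod_cast hε)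
    refine ⟨a, hd, ?_⟩
    rw [Metric.mem_ball, dist_comm, dist_eq_norm] at ha
    exact_mod_cast ha
  choose alg halg hdist using happ
  set T : Finset C := ((Finset.range (P.natDegree + 1)).image fun k => alg (P.coeff k)) ∪
    ((Finset.range (Q.natDegree + 1)).image fun k => alg (Q.coeff k)) ∪ S.image alg with hT
  have hTalg : ∀ x ∈ (T : Set C), IsIntegral K₀ x := by
    intro x hx
    rw [Finset.mem_coe, hT, Finset.mem_union, Finset.mem_union, Finset.mem_image,
      Finset.mem_image, Finset.mem_image] at hx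
    rcases hx with (⟨k, -, rfl⟩ | ⟨k, -, rfl⟩) | ⟨a, -, rfl⟩ <;> exact (halg _).isIntegral
  set E : IntermediateField K₀ C := IntermediateField.adjoin K₀ (T : Set C) with hE
  have : FiniteDimensional K₀ E := IntermediateField.finiteDimensional_adjoin hTalg
  have hTE : ∀ x ∈ T, x ∈ E := fun x hx => IntermediateField.subset_adjoin K₀ _ hx
  set N := Module.finrank K₀ E with hN
  set κ : ℝ := c ^ ((1 : ℝ) / (N.factorial : ℝ)) with hκ
  have hfac : (0 : ℝ) < N.factorial := by exact_mod_cast N.factorial_pos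
  have hκ0 : 0 < κ := Real.rpow_pos_of_pos hc0 _
  have hκ1 : κ < 1 := Real.rpow_lt_one hc0.le hc1 (by positivity)
  have hκN : κ ^ N.factorial = c := by
    rw [hκ, ← Real.rpow_natCast, ← Real.rpow_mul hc0.le, one_div,
      inv_mul_cancel₀ hfac.ne', Real.rpow_one]
  -- the approximating polynomials
  have hpoly : ∀ R : C[X], (∀ k ∈ Finset.range (R.natDegree + 1), alg (R.coeff k) ∈ E) →
      ∃ R' : C[X], (∀ k, R'.coeff k ∈ E.toSubfield) ∧ gn 0 1 (R - R') < ε := by
    intro R hR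
    set R' : C[X] := ∑ k ∈ Finset.range (R.natDegree + 1), monomial k (alg (R.coeff k)) with hR'
    have hco : ∀ k, R'.coeff k = if k ∈ Finset.range (R.natDegree + 1) then alg (R.coeff k)
        else 0 := by
      intro k
      rw [hR', finsetSum_coeff]
      simp only [coeff_monomial]
      exact Finset.sum_ite_eq' _ k fun i => alg (R.coeff i)
    refine ⟨R', fun k => ?_, approx_gn_lt hε fun k => ?_⟩
    · rw [hco]
      split_ifs with h
      · exact hR k h
      · exact E.toSubfield.zero_mem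
    · rw [coeff_sub, hco]
      split_ifs with h
      · exact hdist _
      · have h1 : R.coeff k = 0 := by
          apply coeff_eq_zero_of_natDegree_lt
          simpa using h
        rw [h1, sub_zero, nnnorm_zero]
        exact hε
  obtain ⟨P', hP'1, hP'2⟩ := hpoly P fun k hk => hTE _ (by
    rw [hT, Finset.mem_union, Finset.mem_union]
    exact Or.inl (Or.inl (Finset.mem_image_of_mem _ hk)))
  obtain ⟨Q', hQ'1, hQ'2⟩ := hpoly Q fun k hk => hTE _ (by
    rw [hT, Finset.mem_union, Finset.mem_union]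
    exact Or.inl (Or.inr (Finset.mem_image_of_mem _ hk)))
  refine ⟨E.toSubfield, κ, hκ0, hκ1, fun x hx hx0 => ?_, ⟨P', Q', hP'1, hQ'1, hP'2, hQ'2⟩,
    fun a ha => ⟨alg a, ?_, hdist a⟩⟩
  · exact approx_value K₀ c hK E κ hκ0 hκN x hx hx0
  · exact hTE _ (by
      rw [hT, Finset.mem_union]
      exact Or.inr (Finset.mem_image_of_mem _ ha))

end MP9e71ee

end

section

/-!
# Images of disc points and discs under rational maps
-/

open Polynomial Filter Topology
open scoped NNReal ENNReal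

namespace MP9e71ee

variable {C : Type*} [NontriviallyNormedField C] [IsUltrametricDist C]

omit [IsUltrametricDist C] in
theorem nnnorm_sub_comm' (x y : C) : ‖x - y‖₊ = ‖y - x‖₊ := by
  rw [← nnnorm_neg, neg_sub]

/-- The basic computation: subtracting constants. -/
theorem gn_sub_C_mul {a : C} {r : ℝ≥0} {P Q : C[X]} {n : ℕ}
    (hn : ‖tc a Q n‖₊ * r ^ n = gn a r Q) (hQ : gn a r Q ≠ 0) (e : C) :
    gn a r (P - Polynomial.C (tc a P n / tc a Q n + e) * Q) =
      max (gn a r (P - Polynomial.C (tc a P n / tc a Q n) * Q)) (‖e‖₊ * gn a r Q) := by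
  set c := tc a P n / tc a Q n with hc
  have hQn : tc a Q n ≠ 0 := by
    intro h; rw [h] at hn; simp at hn; exact hQ hn.symm
  have e1 : P - Polynomial.C (c + e) * Q = (P - Polynomial.C c * Q) - Polynomial.C e * Q := by
    rw [Polynomial.C_add]; ring
  have hle : ‖e‖₊ * gn a r Q ≤ gn a r (P - Polynomial.C (c + e) * Q) := by
    have h1 : tc a (P - Polynomial.C (c + e) * Q) n = - (e * tc a Q n) := by
      rw [tc_sub, tc_C_mul, hc]
      field_simp
      ring
    have h2 := le_gn a r (P - Polynomial.C (c + e) * Q) n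
    rw [h1, nnnorm_neg, nnnorm_mul, mul_assoc, hn] at h2
    exact h2
  apply le_antisymm
  · rw [e1]
    refine (gn_sub_le a r _ _).trans ?_
    rw [gn_C_mul]
  · apply max_le _ hle
    have e2 : P - Polynomial.C c * Q =
        (P - Polynomial.C (c + e) * Q) + Polynomial.C e * Q := by
      rw [Polynomial.C_add]; ring
    rw [e2]
    refine (gn_add_le a r _ _).trans ?_
    rw [gn_C_mul]
    exact max_le le_rfl hle

section map

variable {φ : RatFunc C →ₐ[C] RatFunc C} {P Q : C[X]}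

omit [IsUltrametricDist C] in
theorem phi_lin (hφ : φ RatFunc.X = emb P / emb Q) (hQ : Q ≠ 0) (b : C) :
    φ (lin b) = emb (P - Polynomial.C b * Q) / emb Q := by
  have h1 : φ (RatFunc.C b) = RatFunc.C b := φ.commutes b
  have e : emb (P - Polynomial.C b * Q) = emb P - RatFunc.C b * emb Q := by
    simp [emb, RatFunc.algebraMap_C]
  rw [lin, map_sub, h1, hφ, e, sub_div, mul_div_assoc, div_self (emb_ne_zero hQ), mul_one]

omit [IsUltrametricDist C] in
theorem map_apply (φ : RatFunc C →ₐ[C] RatFunc C) (ζ : BerkP1 C) (g : RatFunc C) :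
    BerkP1.map φ ζ g = ζ (φ g) := rfl

omit [IsUltrametricDist C] in
theorem isCoprime_sub {P Q : C[X]} (h : IsCoprime P Q) (b : C) :
    IsCoprime (P - Polynomial.C b * Q) Q := by
  have := h.add_mul_right_left (- Polynomial.C b)
  simpa [sub_eq_add_neg, mul_comm] using this

theorem map_dpt_lin (hφ : φ RatFunc.X = emb P / emb Q) (hQ : Q ≠ 0) {a : C} {r : ℝ≥0}
    (hQr : gn a r Q ≠ 0) (b : C) :
    BerkP1.map φ (dpt a r) (lin b) =
      ((gn a r (P - Polynomial.C b * Q) / gn a r Q : ℝ≥0) : ℝ≥0∞) := by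
  rw [map_apply, phi_lin hφ hQ, dpt_quot a r hQ (fun H => hQr H.2), ENNReal.coe_div hQr]

variable [IsAlgClosed C]

/-- The image of a disc point is a disc point, computed with a dominating index of the
denominator. -/
theorem map_dpt (hφ : φ RatFunc.X = emb P / emb Q) (hQ : Q ≠ 0) {a : C} {r : ℝ≥0}
    (hQr : gn a r Q ≠ 0) {n : ℕ} (hn : ‖tc a Q n‖₊ * r ^ n = gn a r Q) :
    BerkP1.map φ (dpt a r) = dpt (tc a P n / tc a Q n)
      (gn a r (P - Polynomial.C (tc a P n / tc a Q n) * Q) / gn a r Q) := by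
  set c := tc a P n / tc a Q n with hc
  symm
  apply BerkP1.ext_lin (dpt_X_ne_top _ _)
  intro b
  rw [dpt_lin, map_dpt_lin hφ hQ hQr]
  congr 1
  have hb : b = c + (b - c) := by ring
  conv_rhs => rw [hb, hc, gn_sub_C_mul hn hQr, ← hc]
  rw [← max_div_div_right zero_le, mul_div_assoc, div_self hQr, mul_one, nnnorm_sub_comm' c b,
    max_comm]

/-- No root of `Q` in the open disc of centre `x` and radius `s`. -/
def Reg (Q : C[X]) (x : C) (s : ℝ≥0) : Prop := ∀ b, Q.eval b = 0 → s ≤ ‖b - x‖₊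

/-- The radius of the image of the disc of centre `x` and radius `r`. -/
noncomputable def rad (P Q : C[X]) (x : C) (r : ℝ≥0) : ℝ≥0 :=
  gn x r (P - Polynomial.C (ev P Q x) * Q) / ‖Q.eval x‖₊

omit [IsAlgClosed C] in
theorem Reg.recenter {x y : C} {s : ℝ≥0} (h : Reg Q x s) (hy : ‖y - x‖₊ < s) : Reg Q y s := by
  intro b hb
  have h1 := h b hb
  have e : b - y = (b - x) - (y - x) := by ring
  rw [e, ← neg_sub, nnnorm_neg, nnnorm_sub_eq_right (lt_of_lt_of_le hy h1)]
  exact h1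

omit [IsUltrametricDist C] [IsAlgClosed C] in
theorem Reg.mono {x : C} {s t : ℝ≥0} (h : Reg Q x s) (hts : t ≤ s) : Reg Q x t :=
  fun b hb => hts.trans (h b hb)

omit [IsUltrametricDist C] [IsAlgClosed C] in
theorem Reg.eval_ne_zero {x : C} {s : ℝ≥0} (h : Reg Q x s) (hs : 0 < s) : Q.eval x ≠ 0 := by
  intro h0
  have := h x h0
  simp at this
  exact hs.ne' this

theorem Reg.gn_eq {x y : C} {s r : ℝ≥0} (h : Reg Q x s) (hy : ‖y - x‖₊ < s) (hr : r ≤ s) :
    gn y r Q = ‖Q.eval x‖₊ := gn_eq_of_no_roots h hy hr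

theorem Reg.eval_eq {x y : C} {s : ℝ≥0} (h : Reg Q x s) (hy : ‖y - x‖₊ < s) :
    ‖Q.eval y‖₊ = ‖Q.eval x‖₊ := by
  rw [← gn_zero_radius]; exact h.gn_eq hy zero_le

/-- Image of disc points in a disc without poles. -/
theorem map_dpt_reg (hφ : φ RatFunc.X = emb P / emb Q) (hQ : Q ≠ 0) {x y : C} {s r : ℝ≥0}
    (h : Reg Q x s) (hy : ‖y - x‖₊ < s) (hr : r ≤ s) :
    BerkP1.map φ (dpt y r) = dpt (ev P Q y) (rad P Q y r) := by
  have hs : 0 < s := lt_of_le_of_lt zero_le hy
  have hQy : Q.eval y ≠ 0 := (h.recenter hy).eval_ne_zero hs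
  have h1 : gn y r Q = ‖Q.eval y‖₊ := by rw [h.gn_eq hy hr, h.eval_eq hy]
  have h2 : gn y r Q ≠ 0 := by rw [h1]; simpa using hQy
  have h3 : ‖tc y Q 0‖₊ * r ^ 0 = gn y r Q := by rw [h1, tc_index_zero]; simp
  have := map_dpt hφ hQ h2 h3
  rw [tc_index_zero, tc_index_zero, h1] at this
  exact this

/-- The value of a finite point on a polynomial without roots in a disc around it. -/
theorem val_of_reg {x : C} {s : ℝ≥0} {H : C[X]} (h : Reg H x s) {ζ : BerkP1 C}
    (hζ : ζ ∈ ball x s) : ζ (emb H) = ‖H.eval x‖₊ := by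
  by_cases hH : H = 0
  · subst hH
    simp [emb, BerkP1.map_zero]
  have hX := X_ne_top_of_mem_ball hζ
  rw [← gn_zero_radius, BerkP1.emb_eq_prod hX, gn_prod, ENNReal.coe_mul]
  congr 1
  have e2 := map_multiset_prod ENNReal.ofNNRealHom (H.roots.map (fun b => max ‖x - b‖₊ 0))
  rw [Multiset.map_map] at e2
  refine Eq.trans ?_ e2.symm
  congr 1
  apply Multiset.map_congr rfl
  intro b hb
  have hb' : s ≤ ‖b - x‖₊ := h b (by simpa [hH] using hb)
  have e1 : lin b = RatFunc.C (x - b) + lin x := by simp [lin]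
  have e3 : ζ (RatFunc.C (x - b)) = (‖x - b‖₊ : ℝ≥0) := by rw [BerkP1.map_C]; rfl
  simp only [Function.comp, max_eq_left (zero_le : (0 : ℝ≥0) ≤ _)]
  rw [e1, BerkP1.map_add_eq_left, e3]
  · rfl
  · rw [e3, nnnorm_sub_comm']
    exact lt_of_lt_of_le hζ (by exact_mod_cast hb')

end map

end MP9e71ee

end

section

/-!
# Item POT: the potential lemma
-/

open scoped NNReal

namespace MP9e71ee

theorem claimPOT : ClaimPOT := by
  classical
  intro ι _ b Δ ρ0 v j ρ h0 h01 hv hvpos hρ hconc hmono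
  have key : ∀ n, n ≤ b → ∃ g : ι → ℝ≥0, (∀ i, ρ0 ≤ g i ∧ g i ≤ 1) ∧
      (∀ m, n ≤ m → m < b → ∀ s', v (m + 1) < s' → s' ≤ v m → ρ m s' ≤ g (j m)) ∧
      v 0 * ∏ i, g i ^ Δ ≤ v n := by
    intro n
    induction n with
    | zero =>
      intro _
      refine ⟨fun _ => 1, fun _ => ⟨h01, le_rfl⟩, ?_, by simp⟩
      intro m _ hm s' h1 h2
      exact (hρ m hm s' h1 h2).2
    | succ n ih =>
      intro hn
      obtain ⟨g, hg, hA, hB⟩ := ih (by omega)
      have hnb : n < b := by omega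
      rcases (hv n hnb).eq_or_lt with heq | hlt
      · refine ⟨g, hg, fun m hm => hA m (by omega), ?_⟩
        rw [heq]; exact hB
      · set α : ℝ≥0 := sInf (ρ n '' Set.Ioc (v (n + 1)) (v n)) with hα
        have hne : (ρ n '' Set.Ioc (v (n + 1)) (v n)).Nonempty :=
          ⟨ρ n (v n), v n, ⟨hlt, le_rfl⟩, rfl⟩
        have hαlow : ρ0 ≤ α := by
          refine le_csInf hne ?_
          rintro _ ⟨s, hs, rfl⟩
          exact (hρ n hnb s hs.1 hs.2).1
        have hαle : ∀ s, v (n + 1) < s → s ≤ v n → α ≤ ρ n s := by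
          intro s h1 h2
          exact csInf_le (OrderBot.bddBelow _) ⟨s, ⟨h1, h2⟩, rfl⟩
        have hα1 : α ≤ 1 := (hαle (v n) hlt le_rfl).trans (hρ n hnb (v n) hlt le_rfl).2
        have hgJ : ρ n (v n) ≤ g (j n) := hA n le_rfl hnb (v n) hlt le_rfl
        have hlim : v n * α ^ Δ ≤ v (n + 1) * g (j n) ^ Δ := by
          have hstep : ∀ s', v (n + 1) < s' → s' < v n → v n * α ^ Δ ≤ s' * g (j n) ^ Δ := by
            intro s' h1 h2
            calc v n * α ^ Δ ≤ v n * ρ n s' ^ Δ := by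
                  gcongr
                  exact hαle s' h1 h2.le
              _ ≤ s' * ρ n (v n) ^ Δ := hconc n hnb (v n) s' h1 h2 le_rfl
              _ ≤ s' * g (j n) ^ Δ := by gcongr
          have hgpos : 0 < g (j n) ^ Δ := pow_pos (h0.trans_le (hg (j n)).1) _
          rw [← div_le_iff₀ hgpos]
          refine le_of_forall_gt_imp_ge_of_dense ?_
          intro s' h1
          by_cases h2 : s' < v n
          · rw [div_le_iff₀ hgpos]
            exact hstep s' h1 h2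
          · push Not at h2
            obtain ⟨t, ht1, ht2⟩ := exists_between hlt
            refine le_trans ?_ (ht2.le.trans h2)
            rw [div_le_iff₀ hgpos]
            exact hstep t ht1 ht2
        refine ⟨Function.update g (j n) α, ?_, ?_, ?_⟩
        · intro i
          by_cases hi : i = j n
          · subst hi
            simp only [Function.update_self]
            exact ⟨hαlow, hα1⟩
          · rw [Function.update_of_ne hi]
            exact hg i
        · intro m hm hmb s' h1 h2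
          by_cases hi : j m = j n
          · rw [hi, Function.update_self]
            refine le_csInf hne ?_
            rintro _ ⟨s, hs, rfl⟩
            exact hmono n m (by omega) hmb hi.symm s s' hs.1 hs.2 h1 h2
          · rw [Function.update_of_ne hi]
            exact hA m (by omega) hmb s' h1 h2
        · have hgpos : 0 < g (j n) ^ Δ := pow_pos (h0.trans_le (hg (j n)).1) _
          have e1 : ∏ i, g i ^ Δ = g (j n) ^ Δ * ∏ i ∈ Finset.univ.erase (j n), g i ^ Δ :=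
            (Finset.mul_prod_erase _ _ (Finset.mem_univ _)).symm
          have e2 : ∏ i, (Function.update g (j n) α) i ^ Δ =
              α ^ Δ * ∏ i ∈ Finset.univ.erase (j n), g i ^ Δ := by
            rw [← Finset.mul_prod_erase _ _ (Finset.mem_univ (j n)), Function.update_self]
            congr 1
            refine Finset.prod_congr rfl fun i hi => ?_
            rw [Function.update_of_ne (Finset.ne_of_mem_erase hi)]
          rw [e2]
          rw [e1] at hB
          set P := ∏ i ∈ Finset.univ.erase (j n), g i ^ Δ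
          refine le_of_mul_le_mul_right ?_ hgpos
          calc v 0 * (α ^ Δ * P) * g (j n) ^ Δ = (v 0 * (g (j n) ^ Δ * P)) * α ^ Δ := by ring
            _ ≤ v n * α ^ Δ := by gcongr
            _ ≤ v (n + 1) * g (j n) ^ Δ := hlim
  obtain ⟨g, hg, -, hB⟩ := key b le_rfl
  refine le_trans ?_ hB
  gcongr
  calc ρ0 ^ (Fintype.card ι * Δ) = ∏ _i : ι, ρ0 ^ Δ := by
        rw [Finset.prod_const, Finset.card_univ, ← pow_mul, mul_comm]
    _ ≤ ∏ i, g i ^ Δ := by
        refine Finset.prod_le_prod' fun i _ => ?_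
        have := (hg i).1
        gcongr

end MP9e71ee

end

section

/-!
# Item STEP0: reduction to the normalised situation by a change of coordinates
-/

open Polynomial Filter Topology
open scoped NNReal ENNReal

namespace MP9e71ee

variable {C : Type*} [NontriviallyNormedField C]

/-! ## Homomorphisms of the function field -/

theorem ratHom_ext {φ ψ : RatFunc C →ₐ[C] RatFunc C} (h : φ RatFunc.X = ψ RatFunc.X) : φ = ψ := by
  have hp : ∀ H : C[X], φ (emb H) = ψ (emb H) := by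
    intro H
    have e : emb H = Polynomial.aeval (RatFunc.X : RatFunc C) H := by
      induction H using Polynomial.induction_on' with
      | add p q hp hq => simp only [emb, map_add] at hp hq ⊢; rw [hp, hq]
      | monomial n a =>
        simp [emb, RatFunc.algebraMap_monomial, Polynomial.aeval_monomial]
    rw [e, ← Polynomial.aeval_algHom_apply, ← Polynomial.aeval_algHom_apply, h]
  apply AlgHom.ext
  intro g
  have hg : g = emb g.num / emb g.denom := (RatFunc.num_div_denom g).symm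
  rw [hg, map_div₀, map_div₀, hp, hp]

/-- The homomorphism with a given nonconstant value at `X`. -/
theorem exists_ratHom (g : RatFunc C) (hg : ¬ ∃ c, g = RatFunc.C c) :
    ∃ φ : RatFunc C →ₐ[C] RatFunc C, φ RatFunc.X = g := by
  have ht : Transcendental C g := RatFunc.transcendental_of_ne_C g hg
  have hinj : Function.Injective (Polynomial.aeval g : C[X] →ₐ[C] RatFunc C) :=
    transcendental_iff_injective.mp ht
  refine ⟨RatFunc.liftAlgHom (Polynomial.aeval g)
    (nonZeroDivisors_le_comap_nonZeroDivisors_of_injective _ hinj), ?_⟩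
  have h := RatFunc.liftAlgHom_apply_div' (φ := (Polynomial.aeval g : C[X] →ₐ[C] RatFunc C))
    (hφ := nonZeroDivisors_le_comap_nonZeroDivisors_of_injective _ hinj) (Polynomial.X) 1
  simpa using h

theorem ratHom_C (φ : RatFunc C →ₐ[C] RatFunc C) (a : C) : φ (RatFunc.C a) = RatFunc.C a :=
  φ.commutes a

theorem lin_ne_zero (x : C) : (lin x : RatFunc C) ≠ 0 := by
  rw [← emb_X_sub_C]; exact emb_ne_zero (Polynomial.X_sub_C_ne_zero x)

theorem step0_X_ne_C (c : C) : (RatFunc.X : RatFunc C) ≠ RatFunc.C c := by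
  intro h
  apply lin_ne_zero c
  simp [lin, h]

/-- The Moebius transformation `X ↦ β / (X - x)`. -/
theorem exists_moebius (x β : C) (hβ : β ≠ 0) :
    ∃ σ : RatFunc C ≃ₐ[C] RatFunc C, σ RatFunc.X = RatFunc.C β * (lin x)⁻¹ := by
  have hβ' : (RatFunc.C β : RatFunc C) ≠ 0 := by simpa using hβ
  have hX : (RatFunc.X : RatFunc C) ≠ 0 := by simpa using step0_X_ne_C (0 : C)
  have hl := lin_ne_zero x
  have h1 : ¬ ∃ c, (RatFunc.C β * (lin x)⁻¹ : RatFunc C) = RatFunc.C c := by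
    rintro ⟨c, hc⟩
    have hc0 : (RatFunc.C c : RatFunc C) ≠ 0 := by
      rw [← hc]; exact mul_ne_zero hβ' (inv_ne_zero hl)
    have e : (lin x : RatFunc C) = RatFunc.C (β / c) := by
      rw [map_div₀, ← hc]
      field_simp
    apply step0_X_ne_C (β / c + x)
    rw [map_add, ← e]
    simp [lin]
  have h2 : ¬ ∃ c, (RatFunc.C β * RatFunc.X⁻¹ + RatFunc.C x : RatFunc C) = RatFunc.C c := by
    rintro ⟨c, hc⟩
    have e : (RatFunc.C β * RatFunc.X⁻¹ : RatFunc C) = RatFunc.C (c - x) := by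
      rw [map_sub, ← hc]; ring
    have hc0 : (RatFunc.C (c - x) : RatFunc C) ≠ 0 := by
      rw [← e]; exact mul_ne_zero hβ' (inv_ne_zero hX)
    apply step0_X_ne_C (β / (c - x))
    rw [map_div₀, ← e]
    field_simp
  obtain ⟨φ, hφ⟩ := exists_ratHom _ h1
  obtain ⟨ψ, hψ⟩ := exists_ratHom _ h2
  refine ⟨AlgEquiv.ofAlgHom φ ψ ?_ ?_, ?_⟩
  · apply ratHom_ext
    rw [AlgHom.comp_apply, hψ, map_add, map_mul, map_inv₀, ratHom_C, ratHom_C, hφ]
    simp only [AlgHom.id_apply]
    rw [mul_inv, inv_inv, ← mul_assoc, mul_inv_cancel₀ hβ']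
    simp [lin]
  · apply ratHom_ext
    rw [AlgHom.comp_apply, hφ, map_mul, map_inv₀, ratHom_C, map_sub, ratHom_C, hψ]
    simp only [AlgHom.id_apply, add_sub_cancel_right]
    rw [mul_inv, inv_inv, ← mul_assoc, mul_inv_cancel₀ hβ', one_mul]
  · exact hφ

/-! ## Functoriality -/

theorem map_comp' (φ ψ : RatFunc C →ₐ[C] RatFunc C) (ζ : BerkP1 C) :
    BerkP1.map (φ.comp ψ) ζ = BerkP1.map ψ (BerkP1.map φ ζ) := rfl

/-- The homeomorphism given by an automorphism. -/
noncomputable def homeo (σ : RatFunc C ≃ₐ[C] RatFunc C) : BerkP1 C ≃ₜ BerkP1 C where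
  toFun := BerkP1.map (σ : RatFunc C →ₐ[C] RatFunc C)
  invFun := BerkP1.map (σ.symm : RatFunc C →ₐ[C] RatFunc C)
  left_inv ζ := by
    apply BerkP1.ext'
    intro g
    change ζ (σ (σ.symm g)) = ζ g
    rw [AlgEquiv.apply_symm_apply]
  right_inv ζ := by
    apply BerkP1.ext'
    intro g
    change ζ (σ.symm (σ g)) = ζ g
    rw [AlgEquiv.symm_apply_apply]
  continuous_toFun := continuous_map _
  continuous_invFun := continuous_map _

theorem homeo_apply (σ : RatFunc C ≃ₐ[C] RatFunc C) (ζ : BerkP1 C) (g : RatFunc C) :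
    homeo σ ζ g = ζ (σ g) := rfl

theorem homeo_symm (σ : RatFunc C ≃ₐ[C] RatFunc C) : (homeo σ).symm = homeo σ.symm := by
  ext ζ; rfl

/-- `φ'` is `φ` in the coordinate given by `σ`. -/
def Conj (σ : RatFunc C ≃ₐ[C] RatFunc C) (φ φ' : RatFunc C →ₐ[C] RatFunc C) : Prop :=
  ∀ g, σ (φ' g) = φ (σ g)

theorem exists_conj (σ : RatFunc C ≃ₐ[C] RatFunc C) (φ : RatFunc C →ₐ[C] RatFunc C) :
    ∃ φ', Conj σ φ φ' :=
  ⟨((σ.symm : RatFunc C →ₐ[C] RatFunc C).comp φ).comp (σ : RatFunc C →ₐ[C] RatFunc C),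
    fun _ => σ.apply_symm_apply _⟩

theorem Conj.symm {σ : RatFunc C ≃ₐ[C] RatFunc C} {φ φ' : RatFunc C →ₐ[C] RatFunc C}
    (h : Conj σ φ φ') : Conj σ.symm φ' φ := by
  intro g
  have := h (σ.symm g)
  rw [AlgEquiv.apply_symm_apply] at this
  rw [← this, AlgEquiv.symm_apply_apply]

theorem Conj.semiconj {σ : RatFunc C ≃ₐ[C] RatFunc C} {φ φ' : RatFunc C →ₐ[C] RatFunc C}
    (h : Conj σ φ φ') : Function.Semiconj (homeo σ) (BerkP1.map φ) (BerkP1.map φ') := by
  intro ζ
  apply BerkP1.ext'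
  intro g
  change ζ (φ (σ g)) = ζ (σ (φ' g))
  rw [h g]

theorem Conj.fatou {σ : RatFunc C ≃ₐ[C] RatFunc C} {φ φ' : RatFunc C →ₐ[C] RatFunc C}
    (h : Conj σ φ φ') {ζ : BerkP1 C} (hζ : ζ ∈ Fatou φ) : homeo σ ζ ∈ Fatou φ' := by
  obtain ⟨V, hV, hinf⟩ := hζ
  refine ⟨homeo σ '' V, (homeo σ).isOpenMap.image_mem_nhds hV, ?_⟩
  have e : (⋃ n : ℕ, (BerkP1.map φ')^[n] '' (homeo σ '' V)) =
      homeo σ '' (⋃ n : ℕ, (BerkP1.map φ)^[n] '' V) := by
    rw [Set.image_iUnion]
    congr 1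
    ext n : 1
    rw [Set.image_image, Set.image_image]
    congr 1
    ext ξ : 1
    exact (h.semiconj.iterate_right n ξ).symm
  rw [e, ← Set.image_compl_eq (homeo σ).bijective]
  exact hinf.image (homeo σ).injective.injOn

theorem Conj.fatou_eq {σ : RatFunc C ≃ₐ[C] RatFunc C} {φ φ' : RatFunc C →ₐ[C] RatFunc C}
    (h : Conj σ φ φ') : Fatou φ' = homeo σ '' Fatou φ := by
  apply Set.Subset.antisymm
  · intro ζ hζ
    refine ⟨homeo σ.symm ζ, h.symm.fatou hζ, ?_⟩
    rw [← homeo_symm]; exact (homeo σ).apply_symm_apply ζ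
  · rintro _ ⟨ζ, hζ, rfl⟩
    exact h.fatou hζ

theorem Conj.fatouComponent {σ : RatFunc C ≃ₐ[C] RatFunc C} {φ φ' : RatFunc C →ₐ[C] RatFunc C}
    (h : Conj σ φ φ') {ζ : BerkP1 C} (hζ : ζ ∈ Fatou φ) :
    homeo σ '' connectedComponentIn (Fatou φ) ζ =
      connectedComponentIn (Fatou φ') (homeo σ ζ) := by
  rw [h.fatou_eq]
  exact (homeo σ).image_connectedComponentIn hζ

theorem Conj.tame {σ : RatFunc C ≃ₐ[C] RatFunc C} {φ φ' : RatFunc C →ₐ[C] RatFunc C}
    (h : Conj σ φ φ') (hT : Tame φ) : Tame φ' := by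
  intro σ1 τ1 P Q hPQ e m hm
  refine hT (σ.symm.trans σ1) (τ1.trans σ) P Q hPQ ?_ m hm
  rw [← e]
  change σ1 (σ.symm (φ (σ (τ1 RatFunc.X)))) = _
  rw [← h (τ1 RatFunc.X), AlgEquiv.symm_apply_apply]

theorem Conj.basin {σ : RatFunc C ≃ₐ[C] RatFunc C} {φ φ' : RatFunc C →ₐ[C] RatFunc C}
    (h : Conj σ φ φ')
    (hII : ∀ (ψ : RatFunc C →ₐ[C] RatFunc C) (z : BerkP1 C), IsTypeII z →
      IsTypeII (BerkP1.map ψ z))
    {U : Set (BerkP1 C)} (hU : InTypeIIBasin φ' (homeo σ '' U)) : InTypeIIBasin φ U := by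
  obtain ⟨ζ, hζJ, hζ2, n, hn, hper, j, hlim⟩ := hU
  refine ⟨homeo σ.symm ζ, ?_, hII _ _ hζ2, n, hn, ?_, j, ?_⟩
  · intro hF
    apply hζJ
    have := h.fatou hF
    rwa [← homeo_symm, Homeomorph.apply_symm_apply] at this
  · rw [← hper, Function.minimalPeriod_eq_minimalPeriod_iff]
    intro k
    unfold Function.IsPeriodicPt Function.IsFixedPt
    rw [← (h.symm.semiconj.iterate_right k) ζ]
    exact (homeo σ.symm).injective.eq_iff
  · intro x hx
    have h1 := hlim (homeo σ x) ⟨x, hx, rfl⟩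
    have h2 := ((homeo σ.symm).continuous.tendsto _).comp h1
    have e1 : ((homeo σ.symm) ∘ fun k : ℕ => (BerkP1.map φ')^[k * n] (homeo σ x)) =
        fun k : ℕ => (BerkP1.map φ)^[k * n] x := by
      funext k
      simp only [Function.comp]
      rw [h.symm.semiconj.iterate_right (k * n), ← homeo_symm, Homeomorph.symm_apply_apply]
    rw [e1, h.symm.semiconj.iterate_right j] at h2
    exact h2

/-! ## Density of the values -/

theorem step0_exists_nnnorm_between [IsAlgClosed C] {δ r : ℝ≥0} (h : δ < r) :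
    ∃ γ : C, γ ≠ 0 ∧ δ < ‖γ‖₊ ∧ ‖γ‖₊ < r := by
  obtain ⟨δ', h1, h2, h3⟩ : ∃ δ' : ℝ≥0, 0 < δ' ∧ δ ≤ δ' ∧ δ' < r := by
    rcases eq_or_ne δ 0 with h0 | h0
    · subst h0
      exact ⟨r / 2, half_pos h, zero_le, NNReal.half_lt_self h.ne'⟩
    · exact ⟨δ, pos_iff_ne_zero.mpr h0, le_rfl, h⟩
  obtain ⟨c, hc⟩ := NontriviallyNormedField.non_trivial (α := C)
  have hc' : 1 < ‖c‖₊ := by exact_mod_cast hc
  have hq : 1 < r / δ' := (one_lt_div₀ h1).mpr h3
  obtain ⟨n, hn⟩ : ∃ n : ℕ, ‖c‖₊ < (r / δ') ^ n := pow_unbounded_of_one_lt _ hq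
  have hn0 : n ≠ 0 := by
    rintro rfl
    rw [pow_zero] at hn
    exact absurd (hn.trans hc') (lt_irrefl _)
  obtain ⟨w, hw⟩ := IsAlgClosed.exists_pow_nat_eq c (Nat.pos_of_ne_zero hn0)
  have hwn : ‖w‖₊ ^ n = ‖c‖₊ := by rw [← nnnorm_pow, hw]
  have hw1 : 1 < ‖w‖₊ := by
    by_contra hle
    push Not at hle
    have := pow_le_one₀ (zero_le (a := ‖w‖₊)) hle (n := n)
    rw [hwn] at this
    exact absurd hc' (not_lt.mpr this)
  have hw2 : ‖w‖₊ < r / δ' := by
    by_contra hle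
    push Not at hle
    have := pow_le_pow_left₀ (zero_le (a := r / δ')) hle n
    rw [hwn] at this
    exact absurd hn (not_lt.mpr this)
  obtain ⟨k, hk1, hk2⟩ := exists_mem_Ico_zpow (y := ‖w‖₊) h1 hw1
  have hwne : w ≠ 0 := by
    rintro rfl
    rw [nnnorm_zero] at hw1
    exact absurd hw1 (not_lt.mpr zero_le_one)
  have hwp : (0 : ℝ≥0) < ‖w‖₊ := lt_trans zero_lt_one hw1
  refine ⟨w ^ (k + 1), zpow_ne_zero _ hwne, ?_, ?_⟩
  · rw [nnnorm_zpow]
    exact lt_of_le_of_lt h2 hk2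
  · rw [nnnorm_zpow, zpow_add_one₀ hwp.ne']
    calc ‖w‖₊ ^ k * ‖w‖₊ ≤ δ' * ‖w‖₊ := by gcongr
      _ < δ' * (r / δ') := by gcongr
      _ = r := by field_simp

theorem step0_isOpen_fatou (φ : RatFunc C →ₐ[C] RatFunc C) : IsOpen (Fatou φ) := by
  rw [isOpen_iff_mem_nhds]
  rintro ζ ⟨V, hV, hinf⟩
  obtain ⟨W, hWV, hWo, hζW⟩ := mem_nhds_iff.mp hV
  refine mem_nhds_iff.mpr ⟨W, ?_, hWo, hζW⟩
  intro ξ hξ
  refine ⟨V, mem_of_superset (hWo.mem_nhds hξ) hWV, hinf⟩

variable [IsUltrametricDist C] [IsAlgClosed C]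

/-- A Fatou component containing a finite point contains an open disc. -/
theorem exists_ball_subset {F : Set (BerkP1 C)} (hF : IsOpen F) {ζ0 : BerkP1 C}
    (h0 : ζ0 RatFunc.X ≠ ⊤) (hζ0 : ζ0 ∈ F) :
    ∃ x γ : C, γ ≠ 0 ∧ ball x ‖γ‖₊ ⊆ connectedComponentIn F ζ0 := by
  obtain ⟨p, hp, hp0, hpv, hpd⟩ := exists_upPath h0
  set T : Set ℝ≥0 := {r | ∃ a, ζ0 (lin a) ≤ (r : ℝ≥0∞)} with hT
  have hTne : T.Nonempty := by
    refine ⟨(ζ0 (lin 0)).toNNReal, 0, ?_⟩
    rw [ENNReal.coe_toNNReal (BerkP1.lin_ne_top h0 0)]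
  have hTup : ∀ r s, r ∈ T → r ≤ s → s ∈ T := by
    rintro r s ⟨a, ha⟩ hrs
    exact ⟨a, ha.trans (by exact_mod_cast hrs)⟩
  set δ : ℝ≥0 := sInf T with hδ
  have hlow : ∀ r, r ≤ δ → p r = ζ0 := by
    intro r hr
    have hfin : p r RatFunc.X ≠ ⊤ := by
      have := hpv r 0
      simp only [lin, map_zero, sub_zero] at this
      rw [this]
      exact ne_of_lt (max_lt (lt_top_iff_ne_top.mpr h0) ENNReal.coe_lt_top)
    apply BerkP1.ext_lin hfin
    intro b
    rw [hpv]
    apply max_eq_left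
    have hb := BerkP1.lin_ne_top h0 b
    rw [← ENNReal.coe_toNNReal hb, ENNReal.coe_le_coe]
    refine hr.trans (csInf_le ⟨0, fun _ _ => zero_le⟩ ⟨b, ?_⟩)
    rw [ENNReal.coe_toNNReal hb]
  have hopen : IsOpen (p ⁻¹' F) := hF.preimage hp
  have hδF : δ ∈ p ⁻¹' F := by
    change p δ ∈ F
    rw [hlow δ le_rfl]; exact hζ0
  obtain ⟨ε, hε, hεF⟩ : ∃ ε : ℝ≥0, δ < ε ∧ Set.Ico δ ε ⊆ p ⁻¹' F := by
    have := hopen.mem_nhds hδF
    obtain ⟨u, hu1, hu2⟩ := exists_Ico_subset_of_mem_nhds this ⟨δ + 1, lt_add_one δ⟩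
    exact ⟨u, hu1, hu2⟩
  obtain ⟨γ, hγ0, hγ1, hγ2⟩ := step0_exists_nnnorm_between (C := C) hε
  have hγT : ‖γ‖₊ ∈ T := by
    obtain ⟨t, ht, htγ⟩ := exists_lt_of_csInf_lt hTne hγ1
    exact hTup t _ ht htγ.le
  obtain ⟨a, ha⟩ := hγT
  have hpath : p '' Set.Icc 0 ‖γ‖₊ ⊆ F := by
    rintro _ ⟨t, ht, rfl⟩
    rcases le_or_gt t δ with h | h
    · rw [hlow t h]; exact hζ0
    · exact hεF ⟨h.le, lt_of_le_of_lt ht.2 hγ2⟩
  have hη : dpt a ‖γ‖₊ ∈ connectedComponentIn F ζ0 := by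
    rw [← hpd ‖γ‖₊ a ha]
    have hpre : IsPreconnected (p '' Set.Icc 0 ‖γ‖₊) := isPreconnected_Icc.image _ hp.continuousOn
    exact hpre.subset_connectedComponentIn ⟨0, ⟨le_rfl, zero_le⟩, hp0⟩ hpath
      ⟨‖γ‖₊, ⟨zero_le, le_rfl⟩, rfl⟩
  have hηF : dpt a ‖γ‖₊ ∈ F := connectedComponentIn_subset F ζ0 hη
  obtain ⟨x, hxa, hx⟩ : ∃ x : C, ‖x - a‖₊ ≤ ‖γ‖₊ ∧ ball x ‖γ‖₊ ⊆ F := by
    by_contra hcon
    push Not at hcon
    have : Std.Symm (fun x y : C => ‖x - y‖₊ = ‖γ‖₊) := ⟨fun x y h => by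
      rw [← nnnorm_neg, neg_sub]; exact h⟩
    obtain ⟨f, hf1, hf2⟩ := exists_seq_of_forall_finset_exists' (fun x : C => ‖x - a‖₊ ≤ ‖γ‖₊)
      (fun x y : C => ‖x - y‖₊ = ‖γ‖₊) (by
        intro s hs
        obtain ⟨y, hy1, hy2⟩ := exists_generic s a γ hγ0
        refine ⟨y, hy1, ?_⟩
        intro x hx
        rw [← nnnorm_neg, neg_sub, hy2 x hx]
        apply max_eq_right
        rw [← nnnorm_neg, neg_sub]; exact hs x hx)
    have hz : ∀ k, ∃ ξ, ξ ∈ ball (f k) ‖γ‖₊ ∧ ξ ∉ F := by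
      intro k
      obtain ⟨ξ, h1, h2⟩ := Set.not_subset.mp (hcon (f k) (hf1 k))
      exact ⟨ξ, h1, h2⟩
    choose ξ hξ1 hξ2 using hz
    have ht := tendsto_of_directions hξ1 (fun k l hkl => hf2 hkl)
    rw [dpt_eq_of_le (hf1 0)] at ht
    obtain ⟨k, hk⟩ := (ht.eventually (hF.mem_nhds hηF)).exists
    exact hξ2 k hk
  refine ⟨x, γ, hγ0, ?_⟩
  have hsub : (ball x ‖γ‖₊ ∪ {dpt x ‖γ‖₊} : Set (BerkP1 C)) ⊆ F := by
    rintro ξ (h | h)
    · exact hx h
    · rw [Set.mem_singleton_iff] at h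
      rw [h, dpt_eq_of_le hxa]; exact hηF
  have hmem : dpt a ‖γ‖₊ ∈ (ball x ‖γ‖₊ ∪ {dpt x ‖γ‖₊} : Set (BerkP1 C)) :=
    Or.inr (by rw [Set.mem_singleton_iff, dpt_eq_of_le hxa])
  have := (isPreconnected_ball_union x ‖γ‖₊).subset_connectedComponentIn hmem hsub
  rw [connectedComponentIn_eq hη]
  exact Set.subset_union_left.trans this

/-- The main step: the component contains a finite point. -/
theorem step0_finite
    (hII : ∀ (ψ : RatFunc C →ₐ[C] RatFunc C) (z : BerkP1 C), IsTypeII z →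
      IsTypeII (BerkP1.map ψ z))
    (H : ∀ (φ : RatFunc C →ₐ[C] RatFunc C) (V : ℕ → Set (BerkP1 C)), Tame φ → Setup φ V →
      InTypeIIBasin φ (V 0))
    (φ : RatFunc C →ₐ[C] RatFunc C) (V : ℕ → Set (BerkP1 C)) (hT : Tame φ)
    (hcomp : ∀ n, IsFatouComponent φ (V n))
    (hmaps : ∀ n, Set.MapsTo (BerkP1.map φ) (V n) (V (n + 1)))
    (hinj : ∀ m n, m ≠ n → V m ≠ V n)
    {ζ0 : BerkP1 C} (h0 : ζ0 RatFunc.X ≠ ⊤) (hζ0 : ζ0 ∈ Fatou φ)
    (hV : V 0 = connectedComponentIn (Fatou φ) ζ0) : InTypeIIBasin φ (V 0) := by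
  obtain ⟨x, γ, hγ, hball⟩ := exists_ball_subset (step0_isOpen_fatou φ) h0 hζ0
  rw [← hV] at hball
  obtain ⟨β, hβ0, -, hβγ⟩ := step0_exists_nnnorm_between (C := C) (δ := 0) (r := ‖γ‖₊) (by simpa using hγ)
  obtain ⟨σ, hσ⟩ := exists_moebius x β hβ0
  obtain ⟨φ', hφ'⟩ := exists_conj σ φ
  apply hφ'.basin hII
  refine H φ' (fun n => homeo σ '' V n) (hφ'.tame hT) ⟨?_, ?_, ?_, ?_⟩
  · intro n
    obtain ⟨ζ, hζ, hVn⟩ := hcomp n
    refine ⟨homeo σ ζ, hφ'.fatou hζ, ?_⟩
    rw [hVn]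
    exact hφ'.fatouComponent hζ
  · rintro n _ ⟨ζ, hζ, rfl⟩
    refine ⟨BerkP1.map φ ζ, hmaps n hζ, hφ'.semiconj ζ⟩
  · intro m n hmn h
    exact hinj m n hmn ((Set.image_injective.mpr (homeo σ).injective) h)
  · intro ζ hζ
    refine ⟨homeo σ.symm ζ, hball ?_, by rw [← homeo_symm]; exact (homeo σ).apply_symm_apply ζ⟩
    rw [mem_ball]
    have e : ζ RatFunc.X = ‖β‖ₑ * (homeo σ.symm ζ (lin x))⁻¹ := by
      have h1 : ζ RatFunc.X = homeo σ.symm ζ (σ RatFunc.X) := by
        rw [homeo_apply, AlgEquiv.symm_apply_apply]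
      rw [h1, hσ, BerkP1.map_C_mul _ hβ0, BerkP1.map_inv _ (lin_ne_zero x)]
    rw [e] at hζ
    have hle : homeo σ.symm ζ (lin x) ≤ ‖β‖ₑ := by
      by_contra hlt
      push Not at hlt
      have hne : homeo σ.symm ζ (lin x) ≠ 0 := (lt_of_le_of_lt zero_le hlt).ne'
      rw [← div_eq_mul_inv] at hζ
      rw [ENNReal.le_div_iff_mul_le (Or.inl hne) (Or.inr enorm_ne_top), one_mul] at hζ
      exact absurd hζ (not_le.mpr hlt)
    refine lt_of_le_of_lt hle ?_
    have : (‖β‖ₑ : ℝ≥0∞) = (‖β‖₊ : ℝ≥0∞) := rfl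
    rw [this]
    exact_mod_cast hβγ

theorem claimSTEP0
    (hII : ∀ (ψ : RatFunc C →ₐ[C] RatFunc C) (z : BerkP1 C), IsTypeII z →
      IsTypeII (BerkP1.map ψ z)) : ClaimSTEP0 C := by
  intro H φ U hT hU
  obtain ⟨V, hV0, hcomp, hmaps, hinj⟩ := hU
  obtain ⟨ζ0, hζ0, hVζ⟩ := hcomp 0
  rw [← hV0]
  by_cases h0 : ζ0 RatFunc.X = ⊤
  · obtain ⟨σ, hσ⟩ := exists_moebius (0 : C) 1 one_ne_zero
    obtain ⟨φ', hφ'⟩ := exists_conj σ φ
    apply hφ'.basin hII
    refine step0_finite hII H φ' (fun n => homeo σ '' V n) (hφ'.tame hT) ?_ ?_ ?_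
      (ζ0 := homeo σ ζ0) ?_ (hφ'.fatou hζ0) ?_
    · intro n
      obtain ⟨ζ, hζ, hVn⟩ := hcomp n
      refine ⟨homeo σ ζ, hφ'.fatou hζ, ?_⟩
      rw [hVn]
      exact hφ'.fatouComponent hζ
    · rintro n _ ⟨ζ, hζ, rfl⟩
      refine ⟨BerkP1.map φ ζ, hmaps n hζ, hφ'.semiconj ζ⟩
    · intro m n hmn h
      exact hinj m n hmn ((Set.image_injective.mpr (homeo σ).injective) h)
    · rw [homeo_apply, hσ, BerkP1.map_C_mul _ one_ne_zero, BerkP1.map_inv _ (lin_ne_zero 0)]
      have e : (lin (0 : C) : RatFunc C) = RatFunc.X := by simp [lin]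
      rw [e, h0]
      simp
    · rw [hVζ]
      exact hφ'.fatouComponent hζ0
  · exact step0_finite hII H φ V hT hcomp hmaps hinj h0 hζ0 hVζ

end MP9e71ee

end

section

/-!
# Item TAME: the number of preimages in a closed disc is prime to the residue characteristic
-/

open Polynomial Filter Topology
open scoped NNReal ENNReal

namespace MP9e71ee

variable {C : Type*} [NontriviallyNormedField C]

/-- The affine change of coordinates `X ↦ a X + b`. -/
theorem tame_exists_aff (a b : C) (ha : a ≠ 0) : ∃ σ : RatFunc C ≃ₐ[C] RatFunc C,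
    ∀ H : C[X], σ (emb H) = emb (H.comp (Polynomial.C a * X + Polynomial.C b)) := by
  have : Invertible a := invertibleOfNonzero ha
  refine ⟨IsFractionRing.algEquivOfAlgEquiv (Polynomial.algEquivCMulXAddC a b), fun H => ?_⟩
  unfold emb
  rw [IsFractionRing.algEquivOfAlgEquiv_algebraMap, Polynomial.algEquivCMulXAddC_apply,
    Polynomial.comp_eq_aeval]

section ultra

variable [IsUltrametricDist C]

theorem tame_nnnorm_sub_eq_left {x y : C} (h : ‖y‖₊ < ‖x‖₊) : ‖x - y‖₊ = ‖x‖₊ := by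
  rw [sub_eq_add_neg, IsUltrametricDist.nnnorm_add_eq_max_of_nnnorm_ne_nnnorm
    (by simpa using h.ne'), nnnorm_neg, max_eq_left h.le]

/-- Perturbation of the dominating index. -/
theorem tame_isTop_sub {x : C} {r : ℝ≥0} {F Q : C[X]} {m : ℕ} (hm : m ≠ 0)
    (hF : IsTop x r F m) (hQ : IsTop x r Q 0) {c : C}
    (hc : ‖c‖₊ * gn x r Q ≤ gn x r F) (hc0 : 0 < gn x r F) :
    IsTop x r (F - Polynomial.C c * Q) m ∧ gn x r (F - Polynomial.C c * Q) = gn x r F := by
  have hrm : 0 < r ^ m := by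
    refine pos_iff_ne_zero.mpr fun h => ?_
    have := hF.1
    rw [h, mul_zero] at this
    exact hc0.ne this
  have hlt : ∀ k, 0 < k → ‖c * tc x Q k‖₊ * r ^ k < gn x r F ∨ gn x r F = 0 := by
    intro k hk
    left
    rcases eq_or_ne c 0 with rfl | hc1
    · simpa using hc0
    · rw [nnnorm_mul, mul_assoc]
      refine lt_of_lt_of_le ?_ hc
      exact mul_lt_mul_of_pos_left (hQ.2 k hk) (by simpa using hc1)
  have hlt' : ∀ k, 0 < k → ‖c * tc x Q k‖₊ * r ^ k < gn x r F := fun k hk =>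
    (hlt k hk).resolve_right hc0.ne'
  have hindex : ‖tc x (F - Polynomial.C c * Q) m‖₊ * r ^ m = gn x r F := by
    rw [tc_sub, tc_C_mul, tame_nnnorm_sub_eq_left, hF.1]
    have := hlt' m (Nat.pos_of_ne_zero hm)
    rw [← hF.1] at this
    exact lt_of_mul_lt_mul_right this zero_le
  have hgn : gn x r (F - Polynomial.C c * Q) = gn x r F := by
    apply le_antisymm
    · refine (gn_sub_le x r _ _).trans (max_le le_rfl ?_)
      rw [gn_C_mul]
      exact hc
    · rw [← hindex]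
      exact le_gn _ _ _ _
  refine ⟨⟨by rw [hindex, hgn], fun k hk => ?_⟩, hgn⟩
  rw [hgn, tc_sub, tc_C_mul]
  have h1 : ‖tc x F k - c * tc x Q k‖₊ ≤ max ‖tc x F k‖₊ ‖c * tc x Q k‖₊ := by
    rw [sub_eq_add_neg]
    refine (IsUltrametricDist.nnnorm_add_le_max _ _).trans ?_
    rw [nnnorm_neg]
  calc ‖tc x F k - c * tc x Q k‖₊ * r ^ k ≤ max ‖tc x F k‖₊ ‖c * tc x Q k‖₊ * r ^ k := by
        gcongr
    _ = max (‖tc x F k‖₊ * r ^ k) (‖c * tc x Q k‖₊ * r ^ k) := by
        rw [max_mul_of_nonneg _ _ zero_le]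
    _ < gn x r F := max_lt (hF.2 k hk) (hlt' k (by omega))

end ultra

section algClosed

variable [IsUltrametricDist C] [IsAlgClosed C]

theorem claimTAME : ClaimTAME C := by
  intro φ P Q hT hcop hφ x γ hγ hQroots m hm
  set v : C := ev P Q x with hv
  set F : C[X] := P - Polynomial.C v * Q with hFdef
  clear_value F
  set r : ℝ≥0 := ‖γ‖₊ with hr
  have hr0 : 0 < r := by simpa [hr] using hγ
  -- `Q` has no zero in the closed disc
  have hQx : Q.eval x ≠ 0 := by
    intro h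
    have := hQroots x h
    simp at this
  have hQ0 : Q ≠ 0 := by
    rintro rfl
    exact hQx (by simp)
  have hQtop : IsTop x r Q 0 := by
    have h1 := isTop_card_roots x hr0 hQ0
    have h2 : Q.roots.filter (fun b => ‖b - x‖₊ ≤ r) = 0 := by
      rw [Multiset.filter_eq_nil]
      intro b hb hb2
      have hb' : Q.eval b = 0 := by
        have := Polynomial.isRoot_of_mem_roots hb
        exact this
      exact absurd (hQroots b hb') (not_lt.2 hb2)
    rw [h2] at h1
    simpa using h1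
  have hgQ : gn x r Q = ‖Q.eval x‖₊ := by
    have := hQtop.1
    rw [← this]
    simp [tc_index_zero]
  have hgQ0 : 0 < gn x r Q := by
    rw [hgQ]
    simpa using hQx
  have hFx : F.eval x = 0 := by
    rw [hFdef, hv]
    simp only [Polynomial.eval_sub, Polynomial.eval_mul, Polynomial.eval_C, ev]
    field_simp
    ring
  have hR0 : 0 < gn x r F := lt_of_le_of_lt zero_le (hm.2 (m + 1) (Nat.lt_succ_self m))
  have hm0 : m ≠ 0 := by
    rintro rfl
    have := hm.1
    rw [tc_index_zero, hFx] at this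
    simp at this
    exact hR0.ne this
  set t : C := tc x F m with ht
  set η : C := t * γ ^ m / Q.eval x with hη
  have hηn : ‖η‖₊ * gn x r Q = gn x r F := by
    rw [hη, nnnorm_div, nnnorm_mul, nnnorm_pow, hgQ, div_mul_cancel₀ _ (by simpa using hQx), ← hm.1]
  have hη0 : η ≠ 0 := by
    intro h
    rw [h] at hηn
    simp at hηn
    exact hR0.ne hηn
  -- the number of solutions
  have hcount : ∀ y : C, ‖y‖ ≤ 1 → F - Polynomial.C (y * η) * Q ≠ 0 ∧
      Multiset.card ((F - Polynomial.C (y * η) * Q).roots.filter (fun b => ‖b - x‖₊ ≤ r)) = m := by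
    intro y hy
    have hy' : ‖y‖₊ ≤ 1 := by exact_mod_cast hy
    have hc : ‖y * η‖₊ * gn x r Q ≤ gn x r F := by
      rw [nnnorm_mul, mul_assoc, hηn]
      exact mul_le_of_le_one_left zero_le hy'
    obtain ⟨h1, h2⟩ := tame_isTop_sub hm0 hm hQtop hc hR0
    have h3 : F - Polynomial.C (y * η) * Q ≠ 0 := by
      intro h
      rw [h, gn_zero] at h2
      exact hR0.ne h2
    exact ⟨h3, isTop_unique (isTop_card_roots x hr0 h3) h1⟩
  -- coordinates
  obtain ⟨σ, hσ⟩ := tame_exists_aff γ x hγ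
  obtain ⟨τ, hτ⟩ := tame_exists_aff η⁻¹ (-v * η⁻¹) (inv_ne_zero hη0)
  set A : C[X] := Polynomial.C γ * X + Polynomial.C x with hA
  set P1 : C[X] := Polynomial.C η⁻¹ * F.comp A with hP1
  set Q1 : C[X] := Q.comp A with hQ1
  have hCs : ∀ c : C, emb (Polynomial.C c) = algebraMap C (RatFunc C) c := by
    intro c
    exact RatFunc.algebraMap_C c
  have hQe : emb Q ≠ 0 := emb_ne_zero hQ0
  have hτX : τ RatFunc.X = algebraMap C (RatFunc C) η⁻¹ * RatFunc.X -
      algebraMap C (RatFunc C) (v * η⁻¹) := by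
    have := hτ X
    rw [Polynomial.X_comp] at this
    have hX : emb (X : C[X]) = RatFunc.X := RatFunc.algebraMap_X
    rw [hX] at this
    rw [this]
    unfold emb at *
    rw [map_add, map_mul, hX, hCs, hCs]
    simp [sub_eq_add_neg]
  have hcoord : σ (φ (τ RatFunc.X)) = emb P1 / emb Q1 := by
    have h1 : φ (τ RatFunc.X) = emb (Polynomial.C η⁻¹ * F) / emb Q := by
      rw [hτX, map_sub, map_mul, AlgHom.commutes, AlgHom.commutes, hφ, eq_div_iff hQe, sub_mul,
        mul_assoc, div_mul_cancel₀ _ hQe, hFdef]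
      rw [show Polynomial.C η⁻¹ * (P - Polynomial.C v * Q) =
        Polynomial.C η⁻¹ * P - Polynomial.C (v * η⁻¹) * Q by
          rw [Polynomial.C_mul]; ring]
      unfold emb at *
      simp only [map_sub, map_mul, hCs]
    rw [h1, map_div₀, hσ, hσ, hP1, hQ1, Polynomial.mul_comp, Polynomial.C_comp]
  have hcopF : IsCoprime F Q := by
    obtain ⟨a, b, hab⟩ := hcop
    refine ⟨a, b + a * Polynomial.C v, ?_⟩
    rw [← hab, hFdef]
    ring
  have hcop1 : IsCoprime P1 Q1 := by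
    obtain ⟨a, b, hab⟩ := hcopF
    refine ⟨Polynomial.C η * a.comp A, b.comp A, ?_⟩
    have h1 := congrArg (fun H : C[X] => H.comp A) hab
    simp only [Polynomial.add_comp, Polynomial.mul_comp, Polynomial.one_comp] at h1
    rw [hP1, hQ1, ← h1]
    have h2 : Polynomial.C η * Polynomial.C η⁻¹ = (1 : C[X]) := by
      rw [← Polynomial.C_mul, mul_inv_cancel₀ hη0, Polynomial.C_1]
    calc Polynomial.C η * a.comp A * (Polynomial.C η⁻¹ * F.comp A) + b.comp A * Q.comp A
        = (Polynomial.C η * Polynomial.C η⁻¹) * (a.comp A * F.comp A) + b.comp A * Q.comp A := by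
          ring
      _ = _ := by rw [h2, one_mul]
  have hAev : ∀ z : C, A.eval z = γ * z + x := by
    intro z
    simp [hA]
  have hball : ∀ z : C, ‖z‖ ≤ 1 → ‖(γ * z + x) - x‖₊ ≤ r := by
    intro z hz
    have hz' : ‖z‖₊ ≤ 1 := by exact_mod_cast hz
    rw [add_sub_cancel_right, nnnorm_mul, hr]
    exact mul_le_of_le_one_right zero_le hz'
  refine hT σ τ P1 Q1 hcop1 hcoord m ⟨fun z hz => ?_, fun y hy => ?_⟩
  · -- the image of the disc
    set w : C := γ * z + x with hw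
    have hwr : ‖w - x‖₊ ≤ r := hball z hz
    have hQw : Q.eval w ≠ 0 := by
      intro h
      exact absurd (hQroots w h) (not_lt.2 hwr)
    have hQ1z : Q1.eval z = Q.eval w := by
      rw [hQ1, Polynomial.eval_comp, hAev]
    have hP1z : P1.eval z = η⁻¹ * F.eval w := by
      rw [hP1, Polynomial.eval_mul, Polynomial.eval_C, Polynomial.eval_comp, hAev]
    refine ⟨by rw [hQ1z]; exact hQw, ?_⟩
    have hQwn : ‖Q.eval w‖₊ = gn x r Q := by
      have h1 : gn w r Q = gn x r Q := gn_recenter hwr Q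
      have h2 : IsTop w r Q 0 := by
        have h1 := isTop_card_roots w hr0 hQ0
        have h2 : Q.roots.filter (fun b => ‖b - w‖₊ ≤ r) = 0 := by
          rw [Multiset.filter_eq_nil]
          intro b hb hb2
          have hb' : Q.eval b = 0 := by
            have := Polynomial.isRoot_of_mem_roots hb
            exact this
          refine absurd (hQroots b hb') (not_lt.2 ?_)
          have : b - x = (b - w) + (w - x) := by ring
          rw [this]
          exact (IsUltrametricDist.nnnorm_add_le_max _ _).trans (max_le hb2 hwr)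
        rw [h2] at h1
        simpa using h1
      have h3 := h2.1
      rw [h1] at h3
      rw [← h3]
      simp [tc_index_zero]
    have hFw : ‖F.eval w‖₊ ≤ gn x r F := eval_le_gn_of_mem hwr F
    have h4 : ‖P1.eval z / Q1.eval z‖₊ ≤ 1 := by
      rw [hP1z, hQ1z, nnnorm_div, nnnorm_mul, nnnorm_inv, hQwn]
      rw [div_le_one hgQ0, inv_mul_le_iff₀ (by simpa using hη0), hηn]
      exact hFw
    exact_mod_cast h4
  · -- the number of preimages
    obtain ⟨h1, h2⟩ := hcount y hy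
    have h3 : P1 - Polynomial.C y * Q1 =
        Polynomial.C η⁻¹ * (F - Polynomial.C (y * η) * Q).comp A := by
      rw [hP1, hQ1, Polynomial.sub_comp, Polynomial.mul_comp, Polynomial.C_comp, mul_sub,
        ← mul_assoc (Polynomial.C η⁻¹), ← Polynomial.C_mul]
      have : η⁻¹ * (y * η) = y := by field_simp
      rw [this]
    rw [h3, Polynomial.roots_C_mul _ (inv_ne_zero hη0)]
    have h4 := Polynomial.map_roots_comp_C_mul_X_add_C (F - Polynomial.C (y * η) * Q) γ x
      (isUnit_iff_ne_zero.2 hγ)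
    rw [← h4, Multiset.filter_map, Multiset.card_map] at h2
    rw [← h2]
    congr 2
    funext z
    simp only [Function.comp_apply, add_sub_cancel_right, nnnorm_mul, eq_iff_iff]
    constructor
    · intro hz
      have hz' : ‖z‖₊ ≤ 1 := by exact_mod_cast hz
      exact mul_le_of_le_one_right zero_le hz'
    · intro hz
      have hz' : ‖z‖₊ ≤ 1 := by
        rw [hr] at hz
        by_contra hcon
        push Not at hcon
        have : ‖γ‖₊ * 1 < ‖γ‖₊ * ‖z‖₊ := mul_lt_mul_of_pos_left hcon (by rw [← hr]; exact hr0)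
        rw [mul_one] at this
        exact absurd hz (not_le.2 this)
      exact_mod_cast hz'

end algClosed

end MP9e71ee

end

section

/-!
# Radii of images of discs; surjectivity; images of type II points
-/

open Polynomial Filter Topology
open scoped NNReal ENNReal

namespace MP9e71ee

variable {C : Type*} [NontriviallyNormedField C]

/-- The rational map is `P / Q` in lowest terms. -/
structure RM (φ : RatFunc C →ₐ[C] RatFunc C) (P Q : C[X]) : Prop where
  hφ : φ RatFunc.X = emb P / emb Q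
  cop : IsCoprime P Q
  hQ : Q ≠ 0

theorem exists_RM (φ : RatFunc C →ₐ[C] RatFunc C) : ∃ P Q : C[X], RM φ P Q :=
  ⟨(φ RatFunc.X).num, (φ RatFunc.X).denom, (RatFunc.num_div_denom _).symm,
    RatFunc.isCoprime_num_denom _, RatFunc.denom_ne_zero _⟩

theorem X_ne_C (c : C) : (RatFunc.X : RatFunc C) ≠ RatFunc.C c := by
  intro h
  have h1 : emb (X - Polynomial.C c) = 0 := by rw [emb_X_sub_C, lin, h, sub_self]
  exact emb_ne_zero (Polynomial.X_sub_C_ne_zero c) h1

theorem RM.sub_ne_zero {φ : RatFunc C →ₐ[C] RatFunc C} {P Q : C[X]} (h : RM φ P Q) (c : C) :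
    P - Polynomial.C c * Q ≠ 0 := by
  intro h0
  have h1 := phi_lin h.hφ h.hQ c
  rw [h0] at h1
  have h2 : φ (lin c) = φ 0 := by rw [h1, _root_.map_zero]; simp [emb]
  have h3 := φ.toRingHom.injective h2
  exact X_ne_C c (sub_eq_zero.mp h3)

theorem gn_strictMono {a : C} {H : C[X]} (hH : H ≠ 0) (h0 : H.eval a = 0) {r s : ℝ≥0}
    (hrs : r < s) : gn a r H < gn a s H := by
  have hs : 0 < s := lt_of_le_of_lt zero_le hrs
  obtain ⟨k, _, hk⟩ := exists_gn a r H
  rcases eq_or_ne (gn a r H) 0 with h | h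
  · rw [h]; exact pos_iff_ne_zero.mpr (gn_ne_zero hs hH)
  · have hk0 : k ≠ 0 := by
      rintro rfl
      rw [tc_index_zero, h0] at hk
      simp at hk
      exact h hk.symm
    have htc : 0 < ‖tc a H k‖₊ := by
      rw [pos_iff_ne_zero]
      intro h1
      rw [h1, zero_mul] at hk
      exact h hk.symm
    rw [← hk]
    refine lt_of_lt_of_le ?_ (le_gn a s H k)
    exact mul_lt_mul_of_pos_left (pow_lt_pow_left₀ hrs zero_le hk0) htc

theorem continuous_gn (a : C) (H : C[X]) : Continuous (fun r : ℝ≥0 => gn a r H) := by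
  unfold gn
  apply Continuous.finset_sup_apply
  intro k _
  exact continuous_const.mul (continuous_pow k)

section
variable {φ : RatFunc C →ₐ[C] RatFunc C} {P Q : C[X]}

theorem eval_sub_ev {x : C} (hQx : Q.eval x ≠ 0) :
    (P - Polynomial.C (ev P Q x) * Q).eval x = 0 := by
  simp [ev, div_mul_cancel₀ _ hQx]

theorem rad_strictMono (h : RM φ P Q) {x : C} (hQx : Q.eval x ≠ 0) {r s : ℝ≥0} (hrs : r < s) :
    rad P Q x r < rad P Q x s := by
  unfold rad
  have h1 : 0 < ‖Q.eval x‖₊ := by simpa using hQx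
  exact div_lt_div_of_pos_right (gn_strictMono (h.sub_ne_zero _) (eval_sub_ev hQx) hrs) h1

theorem rad_mono (h : RM φ P Q) {x : C} (hQx : Q.eval x ≠ 0) {r s : ℝ≥0} (hrs : r ≤ s) :
    rad P Q x r ≤ rad P Q x s := by
  rcases lt_or_eq_of_le hrs with h1 | h1
  · exact (rad_strictMono h hQx h1).le
  · rw [h1]

theorem rad_zero {x : C} (hQx : Q.eval x ≠ 0) : rad P Q x 0 = 0 := by
  unfold rad
  rw [gn_zero_radius, eval_sub_ev hQx]; simp

theorem rad_pos (h : RM φ P Q) {x : C} (hQx : Q.eval x ≠ 0) {r : ℝ≥0} (hr : 0 < r) :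
    0 < rad P Q x r := by
  have := rad_strictMono h hQx hr
  rwa [rad_zero hQx] at this

theorem continuous_rad (P Q : C[X]) (x : C) : Continuous (fun r => rad P Q x r) := by
  unfold rad
  exact (continuous_gn _ _).div_const _

/-- The degree of the map. -/
noncomputable def mdeg (P Q : C[X]) : ℕ := max P.natDegree Q.natDegree

theorem natDegree_sub_C_mul_le (P Q : C[X]) (c : C) :
    (P - Polynomial.C c * Q).natDegree ≤ mdeg P Q := by
  refine (Polynomial.natDegree_sub_le _ _).trans ?_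
  exact max_le_max le_rfl (Polynomial.natDegree_C_mul_le _ _)

theorem rad_scale (P Q : C[X]) (x : C) {r s : ℝ≥0} (hrs : r ≤ s) :
    rad P Q x s * r ^ mdeg P Q ≤ rad P Q x r * s ^ mdeg P Q := by
  unfold rad
  have := gn_scale x hrs (P - Polynomial.C (ev P Q x) * Q) (natDegree_sub_C_mul_le P Q _)
  rw [div_mul_eq_mul_div, div_mul_eq_mul_div]
  gcongr

/-- Intermediate value: radii of images fill the interval. -/
theorem exists_rad_eq {x : C} {r s t : ℝ≥0} (hrs : r ≤ s) (h1 : rad P Q x r < t)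
    (h2 : t ≤ rad P Q x s) : ∃ u, r < u ∧ u ≤ s ∧ rad P Q x u = t := by
  obtain ⟨u, hu, hut⟩ := intermediate_value_Icc hrs (continuous_rad P Q x).continuousOn
    ⟨h1.le, h2⟩
  refine ⟨u, lt_of_le_of_ne hu.1 ?_, hu.2, hut⟩
  rintro rfl
  exact absurd hut h1.ne

end

variable [IsUltrametricDist C] [IsAlgClosed C]

section
variable {φ : RatFunc C →ₐ[C] RatFunc C} {P Q : C[X]}

/-- Points of an open disc without poles are mapped into the open disc of the image radius. -/
theorem map_mem_ball (h : RM φ P Q) {x : C} {s : ℝ≥0} (hreg : Reg Q x s) {ζ : BerkP1 C}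
    (hζ : ζ ∈ ball x s) : BerkP1.map φ ζ ∈ ball (ev P Q x) (rad P Q x s) := by
  have hs : 0 < s := by
    rw [mem_ball] at hζ
    exact_mod_cast lt_of_le_of_lt zero_le hζ
  have hQx := hreg.eval_ne_zero hs
  have hX := X_ne_top_of_mem_ball hζ
  rw [mem_ball, map_apply, phi_lin h.hφ h.hQ,
    BerkP1.map_quot hX (isCoprime_sub h.cop _) h.hQ, val_of_reg hreg hζ]
  have hfin : ζ (lin x) ≠ ⊤ := ne_of_lt (lt_trans hζ ENNReal.coe_lt_top)
  obtain ⟨t, ht⟩ : ∃ t : ℝ≥0, ζ (lin x) = t := ⟨_, (ENNReal.coe_toNNReal hfin).symm⟩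
  have hts : t < s := by
    rw [mem_ball, ht] at hζ; exact_mod_cast hζ
  have h1 : ζ (emb (P - Polynomial.C (ev P Q x) * Q)) ≤ gn x t (P - Polynomial.C (ev P Q x) * Q) :=
    BerkP1.emb_le_gn ht.le _
  have h2 := gn_strictMono (h.sub_ne_zero (ev P Q x)) (eval_sub_ev hQx) hts
  have hq : ‖Q.eval x‖₊ ≠ 0 := by simpa using hQx
  unfold rad
  rw [ENNReal.coe_div hq]
  exact ENNReal.div_lt_div_right (by exact_mod_cast hq) ENNReal.coe_ne_top
    (lt_of_le_of_lt h1 (by exact_mod_cast h2))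

/-- Same, around an arbitrary centre of the disc. -/
theorem map_mem_ball' (h : RM φ P Q) {x y : C} {s r : ℝ≥0} (hreg : Reg Q x s)
    (hy : ‖y - x‖₊ < s) (hr : r ≤ s) {ζ : BerkP1 C} (hζ : ζ ∈ ball y r) :
    BerkP1.map φ ζ ∈ ball (ev P Q y) (rad P Q y r) :=
  map_mem_ball h ((hreg.recenter hy).mono hr) hζ

/-- Type I points: the map takes every value of the image disc. -/
theorem exists_ev_eq (h : RM φ P Q) {x : C} {s : ℝ≥0} (hreg : Reg Q x s) {y' : C}
    (hy' : ‖y' - ev P Q x‖₊ < rad P Q x s) : ∃ y, ‖y - x‖₊ < s ∧ ev P Q y = y' := by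
  have hs : 0 < s := by
    by_contra hs
    push Not at hs
    have hs0 : s = 0 := le_antisymm hs zero_le
    subst hs0
    unfold rad at hy'
    rcases eq_or_ne (Q.eval x) 0 with h0 | h0
    · rw [h0] at hy'; simp at hy'
    · rw [gn_zero_radius, eval_sub_ev h0] at hy'; simp at hy'
  have hQx := hreg.eval_ne_zero hs
  have hq : ‖Q.eval x‖₊ ≠ 0 := by simpa using hQx
  have hgq : gn x s Q = ‖Q.eval x‖₊ := hreg.gn_eq (by simpa using hs) le_rfl
  by_contra hcon
  push Not at hcon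
  have hnr : ∀ b, (P - Polynomial.C y' * Q).eval b = 0 → s ≤ ‖b - x‖₊ := by
    intro b hb
    by_contra hlt
    push Not at hlt
    apply hcon b hlt
    have hQb : Q.eval b ≠ 0 := (hreg.recenter hlt).eval_ne_zero hs
    rw [Polynomial.eval_sub, Polynomial.eval_mul, Polynomial.eval_C, sub_eq_zero] at hb
    rw [ev, hb, mul_div_assoc, div_self hQb, mul_one]
  have h1 : gn x s (P - Polynomial.C y' * Q) = ‖(P - Polynomial.C y' * Q).eval x‖₊ :=
    gn_eq_of_no_roots hnr (by simpa using hs) le_rfl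
  have hn : ‖tc x Q 0‖₊ * s ^ 0 = gn x s Q := by rw [hgq, tc_index_zero]; simp
  have h2 := gn_sub_C_mul (P := P) hn (by rw [hgq]; exact hq) (y' - ev P Q x)
  have e0 : tc x P 0 / tc x Q 0 = ev P Q x := by rw [tc_index_zero, tc_index_zero]; rfl
  rw [e0, add_sub_cancel, h1, hgq] at h2
  have h3 : ‖(P - Polynomial.C y' * Q).eval x‖₊ = ‖y' - ev P Q x‖₊ * ‖Q.eval x‖₊ := by
    rw [← nnnorm_mul, ← nnnorm_neg]
    congr 1
    simp only [Polynomial.eval_sub, Polynomial.eval_mul, Polynomial.eval_C, ev]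
    field_simp
    ring
  have h4 : gn x s (P - Polynomial.C (ev P Q x) * Q) ≤ ‖y' - ev P Q x‖₊ * ‖Q.eval x‖₊ := by
    rw [← h3, h2]; exact le_max_left _ _
  have h5 : rad P Q x s ≤ ‖y' - ev P Q x‖₊ := by
    unfold rad
    rw [div_le_iff₀ (pos_iff_ne_zero.mpr hq)]
    exact h4
  exact absurd hy' (not_lt.mpr h5)

/-- The image of a type I point which is not a pole. -/
theorem map_dpt_zero (h : RM φ P Q) {x : C} (hQx : Q.eval x ≠ 0) :
    BerkP1.map φ (dpt x 0) = dpt (ev P Q x) 0 := by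
  have h1 : gn x 0 Q = ‖Q.eval x‖₊ := gn_zero_radius x Q
  have h2 : gn x 0 Q ≠ 0 := by rw [h1]; simpa using hQx
  have h3 : ‖tc x Q 0‖₊ * 0 ^ 0 = gn x 0 Q := by rw [h1, tc_index_zero]; simp
  have := map_dpt h.hφ h.hQ h2 h3
  rw [tc_index_zero, tc_index_zero] at this
  have e0 : P.eval x / Q.eval x = ev P Q x := rfl
  rw [e0, gn_zero_radius x (P - Polynomial.C (ev P Q x) * Q), eval_sub_ev hQx] at this
  simpa using this

/-- The image of a disc point of positive radius is a disc point of positive radius. -/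
theorem exists_map_dpt (h : RM φ P Q) (a : C) {r : ℝ≥0} (hr : 0 < r) :
    ∃ n, ‖tc a Q n‖₊ * r ^ n = gn a r Q ∧ tc a Q n ≠ 0 ∧ n ≤ Q.natDegree ∧
      0 < gn a r (P - Polynomial.C (tc a P n / tc a Q n) * Q) / gn a r Q ∧
      BerkP1.map φ (dpt a r) = dpt (tc a P n / tc a Q n)
        (gn a r (P - Polynomial.C (tc a P n / tc a Q n) * Q) / gn a r Q) := by
  obtain ⟨n, hn1, hn⟩ := exists_gn a r Q
  have hq := gn_ne_zero (a := a) hr h.hQ
  refine ⟨n, hn, ?_, hn1, ?_, map_dpt h.hφ h.hQ hq hn⟩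
  · intro h0; rw [h0] at hn; simp at hn; exact hq hn.symm
  · exact div_pos (pos_iff_ne_zero.mpr (gn_ne_zero hr (h.sub_ne_zero _)))
      (pos_iff_ne_zero.mpr hq)

end

/-- The values `|γ|` are dense: between two radii there is the norm of an element. -/
theorem exists_nnnorm_between {r s : ℝ≥0} (hrs : r < s) : ∃ γ : C, γ ≠ 0 ∧ r < ‖γ‖₊ ∧ ‖γ‖₊ < s := by
  have hs : 0 < s := lt_of_le_of_lt zero_le hrs
  obtain ⟨t, ht0, ht1⟩ : ∃ t : ℝ≥0, r ≤ t ∧ 0 < t ∧ t < s := by
    refine ⟨max r (s / 2), le_max_left _ _, lt_max_of_lt_right (half_pos hs), ?_⟩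
    exact max_lt hrs (NNReal.half_lt_self hs.ne')
  obtain ⟨π, hπ0, hπ1⟩ := NormedField.exists_norm_lt_one C
  have hπ : π ≠ 0 := norm_pos_iff.mp hπ0
  have hts : t / s < 1 := by rw [div_lt_one hs]; exact ht1.2
  obtain ⟨n, hn⟩ := exists_pow_lt_of_lt_one (show 0 < ‖π‖₊ by simpa using hπ) hts
  have hn0 : n ≠ 0 := by
    rintro rfl
    rw [pow_zero] at hn
    have : ‖π‖₊ < 1 := by exact_mod_cast hπ1
    exact absurd hn (not_lt.mpr this.le)
  obtain ⟨ρ, hρ⟩ := IsAlgClosed.exists_pow_nat_eq π (Nat.pos_of_ne_zero hn0)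
  have hρ0 : ρ ≠ 0 := by
    rintro rfl
    rw [zero_pow hn0] at hρ
    exact hπ hρ.symm
  have hρp : 0 < ‖ρ‖₊ := by simpa using hρ0
  have hq1 : t / s < ‖ρ‖₊ := by
    by_contra hcon
    push Not at hcon
    have h1 : ‖ρ‖₊ ^ n ≤ (t / s) ^ n := pow_le_pow_left₀ zero_le hcon n
    rw [← nnnorm_pow, hρ] at h1
    exact absurd hn (not_lt.mpr h1)
  have hq2 : ‖ρ‖₊ < 1 := by
    by_contra hcon
    push Not at hcon
    have h1 : 1 ≤ ‖ρ‖₊ ^ n := one_le_pow₀ hcon
    rw [← nnnorm_pow, hρ] at h1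
    have : ‖π‖₊ < 1 := by exact_mod_cast hπ1
    exact absurd this (not_lt.mpr h1)
  have hy : 1 < ‖ρ‖₊⁻¹ := (one_lt_inv₀ hρp).mpr hq2
  obtain ⟨k, hk⟩ := exists_mem_Ioc_zpow hs hy
  refine ⟨ρ⁻¹ ^ k, zpow_ne_zero _ (inv_ne_zero hρ0), ?_, ?_⟩
  · rw [nnnorm_zpow, nnnorm_inv]
    have h1 : s ≤ ‖ρ‖₊⁻¹ ^ k * ‖ρ‖₊⁻¹ := by
      have := hk.2
      rwa [zpow_add₀ (inv_ne_zero hρp.ne'), zpow_one] at this
    have h2 : s * ‖ρ‖₊ ≤ ‖ρ‖₊⁻¹ ^ k := by
      rw [← div_eq_mul_inv] at h1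
      exact (le_div_iff₀ hρp).mp h1
    have h3 : t < s * ‖ρ‖₊ := by
      rw [div_lt_iff₀ hs] at hq1
      rwa [mul_comm]
    exact lt_of_le_of_lt ht0 (lt_of_lt_of_le h3 h2)
  · rw [nnnorm_zpow, nnnorm_inv]; exact hk.1

theorem isTypeII_dpt (a γ : C) (hγ : γ ≠ 0) : IsTypeII (dpt a ‖γ‖₊) := by
  refine ⟨a, γ, hγ, ?_⟩
  intro H
  rw [iSup_eval_eq_gn a γ hγ H]
  exact dpt_emb a ‖γ‖₊ H

theorem isTypeII_iff (ζ : BerkP1 C) : IsTypeII ζ ↔ ∃ a γ : C, γ ≠ 0 ∧ ζ = dpt a ‖γ‖₊ := by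
  constructor
  · rintro ⟨a, γ, hγ, h⟩
    refine ⟨a, γ, hγ, ?_⟩
    have hval : ∀ b, ζ (lin b) = dpt a ‖γ‖₊ (lin b) := by
      intro b
      rw [← emb_X_sub_C]
      have := h (X - Polynomial.C b)
      rw [iSup_eval_eq_gn a γ hγ] at this
      rw [dpt_emb]; exact this
    symm
    exact BerkP1.ext_lin (dpt_X_ne_top _ _) (fun b => (hval b).symm)
  · rintro ⟨a, γ, hγ, rfl⟩
    exact isTypeII_dpt a γ hγ

/-- Norms of elements: closed under Gauss norms of polynomials. -/
theorem exists_nnnorm_gn (a γ : C) (H : C[X]) : ∃ δ : C, ‖δ‖₊ = gn a ‖γ‖₊ H := by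
  obtain ⟨k, _, hk⟩ := exists_gn a ‖γ‖₊ H
  exact ⟨tc a H k * γ ^ k, by rw [← hk, nnnorm_mul, nnnorm_pow]⟩

/-- Images of type II points are type II points. -/
theorem IsTypeII.map (φ : RatFunc C →ₐ[C] RatFunc C) {ζ : BerkP1 C} (h : IsTypeII ζ) :
    IsTypeII (BerkP1.map φ ζ) := by
  rw [isTypeII_iff] at h ⊢
  obtain ⟨a, γ, hγ, rfl⟩ := h
  obtain ⟨P, Q, hRM⟩ := exists_RM φ
  obtain ⟨n, _, _, _, hpos, hmap⟩ := exists_map_dpt hRM a (r := ‖γ‖₊) (by simpa using hγ)
  obtain ⟨δ, hδ⟩ := exists_nnnorm_gn a γ (P - Polynomial.C (tc a P n / tc a Q n) * Q)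
  obtain ⟨δ', hδ'⟩ := exists_nnnorm_gn a γ Q
  refine ⟨tc a P n / tc a Q n, δ / δ', ?_, ?_⟩
  · intro h0
    rw [← hδ, ← hδ', ← nnnorm_div, h0] at hpos
    simp at hpos
  · rw [hmap, nnnorm_div, hδ, hδ']

end MP9e71ee

end

section

/-!
# Second set of statements
-/

open Polynomial Filter Topology
open scoped NNReal ENNReal

namespace MP9e71ee

variable {C : Type*} [NontriviallyNormedField C]

/-- The consequence of tameness that is used. -/
def TameMult (P Q : C[X]) : Prop :=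
  ∀ (x γ : C), γ ≠ 0 → (∀ b, Q.eval b = 0 → ‖γ‖₊ < ‖b - x‖₊) →
    ∀ m, IsTop x ‖γ‖₊ (P - Polynomial.C (ev P Q x) * Q) m → ‖(m : C)‖ = 1

/-- The Wronskian; its roots are the finite critical points that are not poles. -/
noncomputable def wr (P Q : C[X]) : C[X] := derivative P * Q - P * derivative Q

/-- Item ISO: on a disc without poles and critical points the map is an isometry up to scale. -/
def ClaimISO (C : Type*) [NontriviallyNormedField C] [IsUltrametricDist C] [IsAlgClosed C] :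
    Prop :=
  ∀ (φ : RatFunc C →ₐ[C] RatFunc C) (P Q : C[X]), RM φ P Q → TameMult P Q →
    wr P Q ≠ 0 ∧ ∀ (x : C) (s : ℝ≥0), 0 < s → Reg Q x s → Reg (wr P Q) x s →
      ∃ c : ℝ≥0, 0 < c ∧ ∀ y : C, ‖y - x‖₊ < s → ∀ r : ℝ≥0, r ≤ s → rad P Q y r = c * r

/-- The disc `D(x, s)` misses the finite tree spanned by the centres `Z`, radii at least `r0`. -/
def OffT (Z : Finset C) (r0 : ℝ≥0) (x : C) (s : ℝ≥0) : Prop := ∀ a ∈ Z, s ≤ max ‖x - a‖₊ r0

/-- The finite tree spanned by the centres `Z`, radii between `r0` and `1`. -/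
def TSet [IsUltrametricDist C] (Z : Finset C) (r0 : ℝ≥0) : Set (BerkP1 C) :=
  {ζ | ∃ a ∈ Z, ∃ r : ℝ≥0, r0 ≤ r ∧ r ≤ 1 ∧ ζ = dpt a r}

/-- Good centres: an open disc off the tree which has one point mapped into the open unit disc
contains no pole and is mapped into the open unit disc. -/
structure TData (φ : RatFunc C →ₐ[C] RatFunc C) (Q : C[X]) (Z : Finset C) (r0 : ℝ≥0) : Prop where
  r0_pos : 0 < r0
  r0_lt : r0 < 1
  zero_mem : (0 : C) ∈ Z
  unit : ∀ a ∈ Z, ‖a‖₊ < 1
  reg : ∀ (x : C) (s : ℝ≥0), ‖x‖₊ < 1 → 0 < s → OffT Z r0 x s → ∀ ζ ∈ ball x s,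
    BerkP1.map φ ζ ∈ ball (0 : C) 1 → Reg Q x s ∧ ∀ ξ ∈ ball x s, BerkP1.map φ ξ ∈ ball (0 : C) 1

/-- Item TD: good centres exist. -/
def ClaimTD (C : Type*) [NontriviallyNormedField C] [IsUltrametricDist C] [IsAlgClosed C] :
    Prop :=
  ∀ (φ : RatFunc C →ₐ[C] RatFunc C) (P Q : C[X]), RM φ P Q → ∃ Z r0, TData φ Q Z r0

/-- Item CTR: the image of the finite tree lies on finitely many vertical lines, with radii
bounded below. -/
def ClaimCTR (C : Type*) [NontriviallyNormedField C] [IsUltrametricDist C] [IsAlgClosed C] :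
    Prop :=
  ∀ (φ : RatFunc C →ₐ[C] RatFunc C) (P Q : C[X]), RM φ P Q → ∀ (Z : Finset C) (r0 : ℝ≥0), 0 < r0 →
    ∃ (M : ℕ) (c : Fin M → C) (ρ0 : ℝ≥0), 0 < ρ0 ∧ ρ0 ≤ 1 ∧
      ∀ ζ ∈ TSet Z r0, ∃ j R, ρ0 ≤ R ∧ BerkP1.map φ ζ = dpt (c j) R

end MP9e71ee

end

section

/-!
# Item CTR: the image of the finite tree lies on finitely many vertical lines
-/

open Polynomial Filter Topology
open scoped NNReal ENNReal

namespace MP9e71ee

variable {C : Type*} [NontriviallyNormedField C]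

theorem ctr_exists_lb {ι : Type*} (T : Finset ι) (f : ι → ℝ≥0) (h : ∀ i ∈ T, 0 < f i) :
    ∃ ρ : ℝ≥0, 0 < ρ ∧ ρ ≤ 1 ∧ ∀ i ∈ T, ρ ≤ f i := by
  classical
  induction T using Finset.induction_on with
  | empty => exact ⟨1, one_pos, le_rfl, by simp⟩
  | insert a T ha ih =>
    obtain ⟨ρ, h1, h2, h3⟩ := ih (fun i hi => h i (Finset.mem_insert_of_mem hi))
    refine ⟨min ρ (f a), lt_min h1 (h a (Finset.mem_insert_self _ _)),
      (min_le_left _ _).trans h2, fun i hi => ?_⟩
    rcases Finset.mem_insert.mp hi with rfl | hi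
    · exact min_le_right _ _
    · exact (min_le_left _ _).trans (h3 i hi)

theorem claimCTR [IsUltrametricDist C] [IsAlgClosed C] : ClaimCTR C := by
  classical
  intro φ P Q h Z r0 hr0
  set S : Finset C := (Z ×ˢ Finset.range (Q.natDegree + 1)).image
    (fun p => tc p.1 P p.2 / tc p.1 Q p.2) with hS
  obtain ⟨ρ0, hρ0, hρ1, hρ⟩ := ctr_exists_lb (Z ×ˢ S) (fun p => r0 ^ mdeg P Q *
    gn p.1 1 (P - Polynomial.C p.2 * Q) / gn p.1 1 Q) (by
      intro p _
      refine div_pos (mul_pos (pow_pos hr0 _) ?_) ?_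
      · exact pos_iff_ne_zero.mpr (gn_ne_zero one_pos (h.sub_ne_zero _))
      · exact pos_iff_ne_zero.mpr (gn_ne_zero one_pos h.hQ))
  refine ⟨S.card, fun i => (S.equivFin.symm i : C), ρ0, hρ0, hρ1, ?_⟩
  rintro ζ ⟨a, ha, r, hr, hr1, rfl⟩
  have hrpos : 0 < r := lt_of_lt_of_le hr0 hr
  obtain ⟨n, hn1, hn2, hn3, hn4, hn5⟩ := exists_map_dpt h a hrpos
  have hc : tc a P n / tc a Q n ∈ S := by
    rw [hS]
    refine Finset.mem_image.mpr ⟨(a, n), ?_, rfl⟩
    rw [Finset.mem_product]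
    exact ⟨ha, Finset.mem_range.mpr (Nat.lt_succ_of_le hn3)⟩
  refine ⟨S.equivFin ⟨_, hc⟩, gn a r (P - Polynomial.C (tc a P n / tc a Q n) * Q) / gn a r Q,
    ?_, ?_⟩
  · refine (hρ (a, tc a P n / tc a Q n) (Finset.mem_product.mpr ⟨ha, hc⟩)).trans ?_
    show r0 ^ mdeg P Q * gn a 1 (P - Polynomial.C (tc a P n / tc a Q n) * Q) / gn a 1 Q ≤ _
    have hq : 0 < gn a r Q := pos_iff_ne_zero.mpr (gn_ne_zero hrpos h.hQ)
    have h1 : gn a r Q ≤ gn a 1 Q := gn_mono a hr1 Q
    have h2 := gn_scale a hr1 (P - Polynomial.C (tc a P n / tc a Q n) * Q)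
      (natDegree_sub_C_mul_le P Q _)
    rw [one_pow, mul_one] at h2
    have h3 : r0 ^ mdeg P Q * gn a 1 (P - Polynomial.C (tc a P n / tc a Q n) * Q) ≤
        gn a r (P - Polynomial.C (tc a P n / tc a Q n) * Q) := by
      refine le_trans ?_ h2
      rw [mul_comm]
      gcongr
    calc _ ≤ gn a r (P - Polynomial.C (tc a P n / tc a Q n) * Q) / gn a 1 Q := by gcongr
      _ ≤ _ := by gcongr
  · rw [hn5]
    simp

end MP9e71ee

end

section

/-!
# Dynamics in the normalised situation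
-/

open Polynomial Filter Topology
open scoped NNReal ENNReal

namespace MP9e71ee

variable {C : Type*} [NontriviallyNormedField C]

theorem isOpen_fatou (φ : RatFunc C →ₐ[C] RatFunc C) : IsOpen (Fatou φ) := by
  rw [isOpen_iff_mem_nhds]
  rintro ζ ⟨V, hV, hinf⟩
  obtain ⟨W, hWV, hWo, hζW⟩ := mem_nhds_iff.mp hV
  refine mem_nhds_iff.mpr ⟨W, ?_, hWo, hζW⟩
  intro ξ hξ
  exact ⟨V, mem_nhds_iff.mpr ⟨W, hWV, hWo, hξ⟩, hinf⟩

theorem exists_eq_of_mem_comp {φ : RatFunc C →ₐ[C] RatFunc C} {U : Set (BerkP1 C)}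
    (hU : IsFatouComponent φ U) {ζ : BerkP1 C} (hζ : ζ ∈ U) :
    U = connectedComponentIn (Fatou φ) ζ := by
  obtain ⟨ξ, _, rfl⟩ := hU
  exact (connectedComponentIn_eq hζ)

theorem comp_subset_fatou {φ : RatFunc C →ₐ[C] RatFunc C} {U : Set (BerkP1 C)}
    (hU : IsFatouComponent φ U) : U ⊆ Fatou φ := by
  obtain ⟨ξ, _, rfl⟩ := hU
  exact connectedComponentIn_subset _ _

theorem comp_preconnected {φ : RatFunc C →ₐ[C] RatFunc C} {U : Set (BerkP1 C)}
    (hU : IsFatouComponent φ U) : IsPreconnected U := by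
  obtain ⟨ξ, _, rfl⟩ := hU
  exact isPreconnected_connectedComponentIn

theorem comp_absorb {φ : RatFunc C →ₐ[C] RatFunc C} {U S : Set (BerkP1 C)}
    (hU : IsFatouComponent φ U) (hS : IsPreconnected S) (hSF : S ⊆ Fatou φ)
    (hne : (S ∩ U).Nonempty) : S ⊆ U := by
  obtain ⟨ζ, hζS, hζU⟩ := hne
  rw [exists_eq_of_mem_comp hU hζU]
  exact hS.subset_connectedComponentIn hζS hSF

theorem comp_closed {φ : RatFunc C →ₐ[C] RatFunc C} {U : Set (BerkP1 C)}
    (hU : IsFatouComponent φ U) {ζ : BerkP1 C} (h1 : ζ ∈ closure U) (h2 : ζ ∈ Fatou φ) :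
    ζ ∈ U := by
  have hne : U.Nonempty := closure_nonempty_iff.mp ⟨ζ, h1⟩
  obtain ⟨ξ, hξ⟩ := hne
  have hpre : IsPreconnected (insert ζ U) := by
    apply IsPreconnected.subset_closure (comp_preconnected hU) (Set.subset_insert _ _)
    intro η hη
    rcases hη with rfl | hη
    · exact h1
    · exact subset_closure hη
  have := comp_absorb hU hpre (Set.insert_subset h2 (comp_subset_fatou hU))
    ⟨ξ, Set.mem_insert_of_mem _ hξ, hξ⟩
  exact this (Set.mem_insert _ _)

section ultra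

variable [IsUltrametricDist C]

/-- The orbit of the Gauss point. -/
noncomputable def zpt (φ : RatFunc C →ₐ[C] RatFunc C) (n : ℕ) : BerkP1 C :=
  (BerkP1.map φ)^[n] (dpt 0 1)

theorem zpt_succ (φ : RatFunc C →ₐ[C] RatFunc C) (n : ℕ) :
    zpt φ (n + 1) = BerkP1.map φ (zpt φ n) := Function.iterate_succ_apply' _ _ _

theorem zpt_add (φ : RatFunc C →ₐ[C] RatFunc C) (m n : ℕ) :
    zpt φ (m + n) = (BerkP1.map φ)^[m] (zpt φ n) := Function.iterate_add_apply _ _ _ _

variable {φ : RatFunc C →ₐ[C] RatFunc C} {V : ℕ → Set (BerkP1 C)}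

omit [IsUltrametricDist C] in
theorem Setup.disjoint (h : Setup φ V) {m n : ℕ} (hmn : m ≠ n) {ζ : BerkP1 C} (h1 : ζ ∈ V m)
    (h2 : ζ ∈ V n) : False :=
  h.inj m n hmn ((exists_eq_of_mem_comp (h.comp m) h1).trans
    (exists_eq_of_mem_comp (h.comp n) h2).symm)

omit [IsUltrametricDist C] in
theorem Setup.iterate (h : Setup φ V) (k n : ℕ) {ζ : BerkP1 C} (hζ : ζ ∈ V n) :
    (BerkP1.map φ)^[k] ζ ∈ V (n + k) := by
  induction k with
  | zero => exact hζ
  | succ k ih => rw [Function.iterate_succ_apply']; exact h.maps _ ih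

theorem Setup.gauss (h : Setup φ V) : (dpt 0 1 : BerkP1 C) ∈ V 0 := by
  apply h.unit
  rw [dpt_X]; simp

theorem Setup.zpt_mem (h : Setup φ V) (n : ℕ) : zpt φ n ∈ V n := by
  have := h.iterate n 0 h.gauss
  rwa [zero_add] at this

theorem Setup.subset_unit (h : Setup φ V) {n : ℕ} (hn : n ≠ 0) {ζ : BerkP1 C} (hζ : ζ ∈ V n) :
    ζ ∈ ball (0 : C) 1 := by
  rw [mem_unit]
  by_contra hcon
  exact h.disjoint hn hζ (h.unit ζ (not_lt.mp hcon))

theorem Setup.zpt_unit (h : Setup φ V) {n : ℕ} (hn : n ≠ 0) : zpt φ n ∈ ball (0 : C) 1 :=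
  h.subset_unit hn (h.zpt_mem n)

variable [IsAlgClosed C]

/-- Open sets whose orbit stays in the open unit disc are contained in the Fatou set. -/
theorem subset_fatou_of_orbit {W : Set (BerkP1 C)} (hW : IsOpen W)
    (h : ∀ k : ℕ, ∀ ζ ∈ W, (BerkP1.map φ)^[k] ζ ∈ ball (0 : C) 1) : W ⊆ Fatou φ := by
  intro ζ hζ
  refine ⟨W, hW.mem_nhds hζ, ?_⟩
  have hinf : (Set.range (fun n : ℕ => (dpt 0 ((n : ℝ≥0) + 1) : BerkP1 C))).Infinite := by
    apply Set.infinite_range_of_injective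
    intro m n hmn
    have := (dpt_eq_iff.mp hmn).1
    simpa using this
  apply hinf.mono
  rintro _ ⟨n, rfl⟩ hmem
  rw [Set.mem_iUnion] at hmem
  obtain ⟨k, ξ, hξ, hk⟩ := hmem
  have h1 := h k ξ hξ
  rw [hk, dpt_mem_ball] at h1
  have h2 := h1.2
  have : (1 : ℝ≥0) ≤ (n : ℝ≥0) + 1 := by simp
  exact absurd h2 (not_lt.mpr this)

/-- A disc whose orbit stays in the open unit disc contains at most one `z_n`. -/
theorem Setup.no_return (h : Setup φ V) {x : C} {s : ℝ≥0}
    (horb : ∀ k : ℕ, ∀ ζ ∈ ball x s, (BerkP1.map φ)^[k] ζ ∈ ball (0 : C) 1) {m n : ℕ}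
    (hm : zpt φ m ∈ ball x s) (hn : zpt φ n ∈ ball x s) : m = n := by
  by_contra hmn
  have hF : ball x s ⊆ Fatou φ := subset_fatou_of_orbit (isOpen_ball x s) horb
  have h1 := comp_absorb (h.comp m) (isPreconnected_ball x s) hF ⟨_, hm, h.zpt_mem m⟩
  exact h.disjoint hmn (h1 hn) (h.zpt_mem n)

/-- Periodic disc version: if `f^M` maps the disc into itself and the intermediate images are in
the open unit disc, at most one `z_n` lies in the disc. -/
theorem Setup.no_return' (h : Setup φ V) {x : C} {s : ℝ≥0} {M : ℕ} (hM : 0 < M)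
    (h1 : ∀ k, k < M → ∀ ζ ∈ ball x s, (BerkP1.map φ)^[k] ζ ∈ ball (0 : C) 1)
    (h2 : ∀ ζ ∈ ball x s, (BerkP1.map φ)^[M] ζ ∈ ball x s) {m n : ℕ}
    (hm : zpt φ m ∈ ball x s) (hn : zpt φ n ∈ ball x s) : m = n := by
  refine h.no_return ?_ hm hn
  have hmul : ∀ q : ℕ, ∀ ζ ∈ ball x s, (BerkP1.map φ)^[M * q] ζ ∈ ball x s := by
    intro q
    induction q with
    | zero => intro ζ hζ; simpa using hζ
    | succ q ih =>
      intro ζ hζ
      rw [Nat.mul_succ, Function.iterate_add_apply]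
      exact ih _ (h2 ζ hζ)
  intro k ζ hζ
  have e : k = k % M + M * (k / M) := (Nat.mod_add_div k M).symm
  rw [e, Function.iterate_add_apply]
  exact h1 _ (Nat.mod_lt k hM) _ (hmul _ ζ hζ)

/-- The orbit of the Gauss point consists of disc points with radii in the value group. -/
theorem exists_zpt_eq (φ : RatFunc C →ₐ[C] RatFunc C) (n : ℕ) :
    ∃ x γ : C, γ ≠ 0 ∧ zpt φ n = dpt x ‖γ‖₊ := by
  have h0 : IsTypeII (zpt φ 0) := by
    rw [isTypeII_iff]
    exact ⟨0, 1, one_ne_zero, by simp [zpt]⟩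
  rw [← isTypeII_iff]
  induction n with
  | zero => exact h0
  | succ n ih => rw [zpt_succ]; exact ih.map φ

end ultra

end MP9e71ee

end

section

/-!
# Item ISO: on a disc without poles and critical points the map is an isometry up to scale
-/

open Polynomial Filter Topology
open scoped NNReal ENNReal

namespace MP9e71ee

variable {C : Type*} [NontriviallyNormedField C]

theorem iso_tc_derivative (a : C) (F : C[X]) (k : ℕ) :
    tc a (derivative F) k = tc a F (k + 1) * ((k + 1 : ℕ) : C) := by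
  have h1 : taylor a (derivative F) = derivative (taylor a F) := by
    rw [Polynomial.taylor_apply, Polynomial.taylor_apply, Polynomial.derivative_comp]
    simp
  rw [tc, tc, h1, Polynomial.coeff_derivative]
  push_cast
  ring

section ultra

variable [IsUltrametricDist C]

theorem iso_nnnorm_natCast_le (n : ℕ) : ‖(n : C)‖₊ ≤ 1 := by
  induction n with
  | zero => simp
  | succ n ih =>
    push_cast
    refine (IsUltrametricDist.nnnorm_add_le_max _ _).trans ?_
    simp [ih]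

theorem iso_tc_derivative_le (a : C) (F : C[X]) (k : ℕ) :
    ‖tc a (derivative F) k‖₊ ≤ ‖tc a F (k + 1)‖₊ := by
  rw [iso_tc_derivative, nnnorm_mul]
  exact mul_le_of_le_one_right zero_le (iso_nnnorm_natCast_le _)

/-- The Gauss norm of the derivative when the top index is a unit. -/
theorem iso_gn_derivative {a : C} {r : ℝ≥0} (hr : 0 < r) {F : C[X]} {m : ℕ} (hm : 1 ≤ m)
    (hF : IsTop a r F m) (hm1 : ‖(m : C)‖₊ = 1) : gn a r (derivative F) = gn a r F / r := by
  apply le_antisymm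
  · apply gn_le
    intro k
    rw [le_div_iff₀ hr]
    calc ‖tc a (derivative F) k‖₊ * r ^ k * r ≤ ‖tc a F (k + 1)‖₊ * r ^ k * r := by
          gcongr
          exact iso_tc_derivative_le a F k
      _ = ‖tc a F (k + 1)‖₊ * r ^ (k + 1) := by rw [pow_succ]; ring
      _ ≤ gn a r F := le_gn a r F (k + 1)
  · rw [div_le_iff₀ hr, ← hF.1]
    obtain ⟨n, rfl⟩ : ∃ n, m = n + 1 := ⟨m - 1, by omega⟩
    have h1 : ‖tc a (derivative F) n‖₊ = ‖tc a F (n + 1)‖₊ := by
      rw [iso_tc_derivative, nnnorm_mul, hm1, mul_one]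
    have h2 := le_gn a r (derivative F) n
    rw [h1] at h2
    calc ‖tc a F (n + 1)‖₊ * r ^ (n + 1) = ‖tc a F (n + 1)‖₊ * r ^ n * r := by
          rw [pow_succ]; ring
      _ ≤ gn a r (derivative F) * r := by gcongr

variable [IsAlgClosed C]

/-- The derivative of a polynomial without roots in a disc is small. -/
theorem iso_gn_derivative_lt {x : C} {r s : ℝ≥0} (hr : 0 < r) (hrs : r < s) {Q : C[X]}
    (hreg : Reg Q x s) : gn x r (derivative Q) < ‖Q.eval x‖₊ / r := by
  have hs : 0 < s := hr.trans hrs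
  have hq : 0 < ‖Q.eval x‖₊ := by simpa using hreg.eval_ne_zero hs
  have hgs : gn x s Q = ‖Q.eval x‖₊ := hreg.gn_eq (by simpa using hs) le_rfl
  obtain ⟨k, _, hk⟩ := exists_gn x r (derivative Q)
  rw [← hk, lt_div_iff₀ hr]
  rcases eq_or_ne (tc x Q (k + 1)) 0 with h0 | h0
  · have h1 := iso_tc_derivative_le x Q k
    rw [h0, nnnorm_zero] at h1
    have h2 : ‖tc x (derivative Q) k‖₊ = 0 := le_antisymm h1 zero_le
    rw [h2]
    simpa using hq
  · have h3 : 0 < ‖tc x Q (k + 1)‖₊ := by simpa using h0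
    calc ‖tc x (derivative Q) k‖₊ * r ^ k * r ≤ ‖tc x Q (k + 1)‖₊ * r ^ k * r := by
          gcongr
          exact iso_tc_derivative_le x Q k
      _ = ‖tc x Q (k + 1)‖₊ * r ^ (k + 1) := by rw [pow_succ]; ring
      _ < ‖tc x Q (k + 1)‖₊ * s ^ (k + 1) :=
          mul_lt_mul_of_pos_left (pow_lt_pow_left₀ hrs zero_le (by omega)) h3
      _ ≤ gn x s Q := le_gn x s Q (k + 1)
      _ = ‖Q.eval x‖₊ := hgs

omit [IsUltrametricDist C] [IsAlgClosed C] in
theorem iso_wr_eq (P Q : C[X]) (c : C) :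
    wr P Q = derivative (P - Polynomial.C c * Q) * Q - (P - Polynomial.C c * Q) * derivative Q := by
  rw [wr, Polynomial.derivative_sub, Polynomial.derivative_C_mul]
  ring

theorem iso_key {φ : RatFunc C →ₐ[C] RatFunc C} {P Q : C[X]} (h : RM φ P Q)
    (ht : TameMult P Q) {x γ : C} (hγ : γ ≠ 0) {s : ℝ≥0} (hγs : ‖γ‖₊ < s) (hreg : Reg Q x s) :
    gn x ‖γ‖₊ (wr P Q) =
      gn x ‖γ‖₊ (P - Polynomial.C (ev P Q x) * Q) / ‖γ‖₊ * ‖Q.eval x‖₊ := by
  have hr : 0 < ‖γ‖₊ := by simpa using hγ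
  have hs : 0 < s := hr.trans hγs
  have hQx := hreg.eval_ne_zero hs
  have hq : 0 < ‖Q.eval x‖₊ := by simpa using hQx
  set H := P - Polynomial.C (ev P Q x) * Q with hH
  have hH0 : H ≠ 0 := h.sub_ne_zero _
  have hHx : H.eval x = 0 := eval_sub_ev hQx
  have hg0 : gn x ‖γ‖₊ H ≠ 0 := gn_ne_zero hr hH0
  obtain ⟨m, hm⟩ := exists_isTop hg0
  have hm1 : 1 ≤ m := by
    rcases Nat.eq_zero_or_pos m with h0 | h0
    · exfalso
      apply hg0
      rw [← hm.1, h0, tc_index_zero, hHx]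
      simp
    · exact h0
  have hmn : ‖(m : C)‖ = 1 := ht x γ hγ (fun b hb => lt_of_lt_of_le hγs (hreg b hb)) m hm
  have hmn' : ‖(m : C)‖₊ = 1 := by
    apply NNReal.eq
    simpa using hmn
  have h1 : gn x ‖γ‖₊ (derivative H) = gn x ‖γ‖₊ H / ‖γ‖₊ := iso_gn_derivative hr hm1 hm hmn'
  have h2 : gn x ‖γ‖₊ Q = ‖Q.eval x‖₊ := hreg.gn_eq (by simpa using hs) hγs.le
  have h3 : gn x ‖γ‖₊ (derivative Q) < ‖Q.eval x‖₊ / ‖γ‖₊ := iso_gn_derivative_lt hr hγs hreg
  rw [iso_wr_eq P Q (ev P Q x), ← hH, gn_sub_eq_left]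
  · rw [gn_mul, h1, h2]
  · rw [gn_mul, gn_mul, h1, h2]
    calc gn x ‖γ‖₊ H * gn x ‖γ‖₊ (derivative Q) < gn x ‖γ‖₊ H * (‖Q.eval x‖₊ / ‖γ‖₊) :=
          mul_lt_mul_of_pos_left h3 (pos_iff_ne_zero.mpr hg0)
      _ = gn x ‖γ‖₊ H / ‖γ‖₊ * ‖Q.eval x‖₊ := by ring

theorem iso_wr_ne_zero {φ : RatFunc C →ₐ[C] RatFunc C} {P Q : C[X]} (h : RM φ P Q)
    (ht : TameMult P Q) : wr P Q ≠ 0 := by
  obtain ⟨x, hx⟩ : ∃ x, Q.eval x ≠ 0 := by
    by_contra hcon
    push Not at hcon
    exact h.hQ (Polynomial.funext (fun x => by simpa using hcon x))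
  have hopen : IsOpen {y : C | Q.eval y ≠ 0} :=
    isOpen_ne.preimage Q.continuous
  obtain ⟨ε, hε, hsub⟩ := Metric.isOpen_iff.mp hopen x hx
  have hreg : Reg Q x ε.toNNReal := by
    intro b hb
    by_contra hlt
    push Not at hlt
    have h1 : b ∈ Metric.ball x ε := by
      rw [Metric.mem_ball, dist_eq_norm]
      have h2 : (‖b - x‖₊ : ℝ) < (ε.toNNReal : ℝ) := by exact_mod_cast hlt
      rw [Real.coe_toNNReal _ hε.le] at h2
      exact h2
    exact hsub h1 hb
  obtain ⟨γ, hγ, _, hγ2⟩ := exists_nnnorm_between (C := C) (Real.toNNReal_pos.mpr hε)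
  have hk := iso_key h ht hγ hγ2 hreg
  intro h0
  rw [h0, gn_zero] at hk
  have hr : 0 < ‖γ‖₊ := by simpa using hγ
  have h3 : 0 < gn x ‖γ‖₊ (P - Polynomial.C (ev P Q x) * Q) :=
    pos_iff_ne_zero.mpr (gn_ne_zero hr (h.sub_ne_zero _))
  have h4 : 0 < ‖Q.eval x‖₊ := by simpa using hx
  have h5 : 0 < gn x ‖γ‖₊ (P - Polynomial.C (ev P Q x) * Q) / ‖γ‖₊ * ‖Q.eval x‖₊ := by positivity
  exact absurd hk h5.ne

theorem claimISO : ClaimISO C := by
  intro φ P Q h ht
  refine ⟨iso_wr_ne_zero h ht, ?_⟩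
  intro x s hs hreg hwreg
  have hQx : 0 < ‖Q.eval x‖₊ := by simpa using hreg.eval_ne_zero hs
  have hWx : 0 < ‖(wr P Q).eval x‖₊ := by simpa using hwreg.eval_ne_zero hs
  refine ⟨‖(wr P Q).eval x‖₊ / ‖Q.eval x‖₊ ^ 2, by positivity, ?_⟩
  intro y hy r hr
  have hregy : Reg Q y s := hreg.recenter hy
  have hQy : ‖Q.eval y‖₊ = ‖Q.eval x‖₊ := hreg.eval_eq hy
  have hQy0 : Q.eval y ≠ 0 := hregy.eval_ne_zero hs
  -- the radii in the value group
  have hval : ∀ γ : C, γ ≠ 0 → ‖γ‖₊ < s →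
      rad P Q y ‖γ‖₊ = ‖(wr P Q).eval x‖₊ / ‖Q.eval x‖₊ ^ 2 * ‖γ‖₊ := by
    intro γ hγ hγs
    have hr0 : 0 < ‖γ‖₊ := by simpa using hγ
    have h1 := iso_key h ht hγ hγs hregy
    have h2 : gn y ‖γ‖₊ (wr P Q) = ‖(wr P Q).eval x‖₊ := hwreg.gn_eq hy hγs.le
    rw [h2, hQy] at h1
    rw [rad, hQy, h1]
    field_simp
  rcases eq_or_lt_of_le (zero_le : 0 ≤ r) with h0 | h0
  · rw [← h0, rad_zero hQy0, mul_zero]
  · by_contra hne
    have hopen : IsOpen {t : ℝ≥0 | rad P Q y t ≠ ‖(wr P Q).eval x‖₊ / ‖Q.eval x‖₊ ^ 2 * t} :=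
      isOpen_ne_fun (continuous_rad P Q y) (continuous_const.mul continuous_id)
    obtain ⟨l, hl, hsub⟩ := exists_Ioc_subset_of_mem_nhds (hopen.mem_nhds hne) ⟨0, h0⟩
    obtain ⟨γ, hγ, h1, h2⟩ := exists_nnnorm_between (C := C) hl
    exact hsub ⟨h1, h2.le⟩ (hval γ hγ (lt_of_lt_of_le h2 hr))

end ultra

end MP9e71ee

end
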