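import Pool.Agent.Work.MP_9e71ee_nt.Bd.B01

/-! Bundle of small proof modules (one section per former module). -/

section

/-!
# Item TD: good centres exist
-/

open Polynomial Filter Topology
open scoped NNReal ENNReal

namespace MP9e71ee

variable {C : Type*} [NontriviallyNormedField C]

theorem td_exists_lb {ι : Type*} (T : Finset ι) (f : ι → ℝ≥0) (h : ∀ i ∈ T, 0 < f i) :
    ∃ ρ : ℝ≥0, 0 < ρ ∧ ρ < 1 ∧ ∀ i ∈ T, ρ ≤ f i := by
  classical
  induction T using Finset.induction_on with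
  | empty => exact ⟨1 / 2, by positivity, by exact half_lt_self one_pos, by simp⟩
  | insert a T ha ih =>
    obtain ⟨ρ, h1, h2, h3⟩ := ih (fun i hi => h i (Finset.mem_insert_of_mem hi))
    refine ⟨min ρ (f a), lt_min h1 (h a (Finset.mem_insert_self _ _)),
      lt_of_le_of_lt (min_le_left _ _) h2, fun i hi => ?_⟩
    rcases Finset.mem_insert.mp hi with rfl | hi
    · exact min_le_right _ _
    · exact (min_le_left _ _).trans (h3 i hi)

theorem td_exists_reg {H : C[X]} {a : C} (ha : H.eval a ≠ 0) : ∃ δ : ℝ≥0, 0 < δ ∧ Reg H a δ := by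
  classical
  have hH : H ≠ 0 := by rintro rfl; simp at ha
  obtain ⟨δ, h1, -, h3⟩ := td_exists_lb H.roots.toFinset (fun b => ‖b - a‖₊) (by
    intro b hb
    have hb' : H.eval b = 0 := by
      rw [Multiset.mem_toFinset, Polynomial.mem_roots hH] at hb
      exact hb
    refine pos_iff_ne_zero.mpr (fun h0 => ha ?_)
    have : b - a = 0 := nnnorm_eq_zero.mp h0
    rw [← sub_eq_zero.mp this]
    exact hb')
  refine ⟨δ, h1, fun b hb => h3 b ?_⟩
  rw [Multiset.mem_toFinset, Polynomial.mem_roots hH]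
  exact hb

variable [IsUltrametricDist C] [IsAlgClosed C]

theorem td_exists_small {H : C[X]} {a : C} (ha : H.eval a = 0) {B : ℝ≥0} (hB : 0 < B) :
    ∃ δ : ℝ≥0, 0 < δ ∧ gn a δ H < B := by
  have h0 : gn a 0 H < B := by rw [gn_zero_radius, ha]; simpa using hB
  have h1 : ∀ᶠ r in 𝓝 (0 : ℝ≥0), gn a r H < B :=
    ((continuous_gn a H).tendsto 0).eventually (gt_mem_nhds h0)
  have h2 : ∀ᶠ r in 𝓝[>] (0 : ℝ≥0), gn a r H < B ∧ 0 < r :=
    (h1.filter_mono nhdsWithin_le_nhds).and self_mem_nhdsWithin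
  obtain ⟨δ, h3, h4⟩ := h2.exists
  exact ⟨δ, h4, h3⟩

/-- The local choice of a radius at a centre. -/
theorem td_local {P Q : C[X]} (hcop : IsCoprime P Q) (a : C) : ∃ δ : ℝ≥0, 0 < δ ∧
    (P.eval a = 0 → gn a δ P < ‖Q.eval a‖₊ ∧ Reg Q a δ) ∧
    (Q.eval a = 0 → gn a δ Q ≤ ‖P.eval a‖₊ ∧ Reg P a δ) := by
  have hnot : ¬ (P.eval a = 0 ∧ Q.eval a = 0) := by
    rintro ⟨h1, h2⟩
    obtain ⟨u, v, huv⟩ := hcop
    have := congrArg (Polynomial.eval a) huv
    simp [h1, h2] at this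
  by_cases hP : P.eval a = 0
  · have hQ : Q.eval a ≠ 0 := fun h => hnot ⟨hP, h⟩
    obtain ⟨δ1, h1, h2⟩ := td_exists_small hP (B := ‖Q.eval a‖₊) (by simpa using hQ)
    obtain ⟨δ2, h3, h4⟩ := td_exists_reg hQ
    refine ⟨min δ1 δ2, lt_min h1 h3, fun _ => ⟨?_, h4.mono (min_le_right _ _)⟩,
      fun h => absurd h hQ⟩
    exact lt_of_le_of_lt (gn_mono a (min_le_left _ _) P) h2
  · by_cases hQ : Q.eval a = 0
    · obtain ⟨δ1, h1, h2⟩ := td_exists_small hQ (B := ‖P.eval a‖₊) (by simpa using hP)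
      obtain ⟨δ2, h3, h4⟩ := td_exists_reg hP
      refine ⟨min δ1 δ2, lt_min h1 h3, fun h => absurd h hP, fun _ =>
        ⟨?_, h4.mono (min_le_right _ _)⟩⟩
      exact ((gn_mono a (min_le_left _ _) Q).trans_lt h2).le
    · exact ⟨1, one_pos, fun h => absurd h hP, fun h => absurd h hQ⟩

theorem td_mem_iff {φ : RatFunc C →ₐ[C] RatFunc C} {P Q : C[X]} (h : RM φ P Q) {x : C} {s : ℝ≥0}
    {ξ : BerkP1 C} (hξ : ξ ∈ ball x s) :
    BerkP1.map φ ξ ∈ ball (0 : C) 1 ↔ ξ (emb P) / ξ (emb Q) < 1 := by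
  rw [mem_unit, map_apply, h.hφ, BerkP1.map_quot (X_ne_top_of_mem_ball hξ) h.cop h.hQ]

theorem claimTD : ClaimTD C := by
  classical
  intro φ P Q h
  have hP : P ≠ 0 := by
    intro h0
    have := h.sub_ne_zero 0
    simp [h0] at this
  have hPQ : P * Q ≠ 0 := mul_ne_zero hP h.hQ
  choose δ hδ0 hδP hδQ using fun a => td_local h.cop a
  set Z : Finset C := insert 0 ((P * Q).roots.toFinset.filter (fun a => ‖a‖₊ < 1)) with hZ
  obtain ⟨r0, hr0, hr1, hr⟩ := td_exists_lb Z δ (fun a _ => hδ0 a)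
  have hmem : ∀ a : C, (P * Q).eval a = 0 → ‖a‖₊ < 1 → a ∈ Z := by
    intro a ha ha1
    rw [hZ]
    refine Finset.mem_insert_of_mem (Finset.mem_filter.mpr ⟨?_, ha1⟩)
    rw [Multiset.mem_toFinset, Polynomial.mem_roots hPQ]
    exact ha
  refine ⟨Z, r0, ⟨hr0, hr1, by rw [hZ]; exact Finset.mem_insert_self _ _, ?_, ?_⟩⟩
  · intro a ha
    rw [hZ] at ha
    rcases Finset.mem_insert.mp ha with rfl | ha
    · simp
    · exact (Finset.mem_filter.mp ha).2
  · intro x s hx hs hoff ζ hζ hmap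
    have hs1 : s < 1 := by
      have := hoff 0 (by rw [hZ]; exact Finset.mem_insert_self _ _)
      rw [sub_zero] at this
      exact lt_of_le_of_lt this (max_lt hx hr1)
    rw [td_mem_iff h hζ] at hmap
    by_cases hA : ∀ a : C, (P * Q).eval a = 0 → s ≤ ‖a - x‖₊
    · have hRP : Reg P x s := fun b hb => hA b (by rw [Polynomial.eval_mul, hb, zero_mul])
      have hRQ : Reg Q x s := fun b hb => hA b (by rw [Polynomial.eval_mul, hb, mul_zero])
      refine ⟨hRQ, fun ξ hξ => ?_⟩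
      rw [td_mem_iff h hξ, val_of_reg hRP hξ, val_of_reg hRQ hξ]
      rwa [val_of_reg hRP hζ, val_of_reg hRQ hζ] at hmap
    · push Not at hA
      obtain ⟨a, ha0, hax⟩ := hA
      have hxa : ‖x - a‖₊ < s := by rwa [nnnorm_sub_comm']
      have ha1 : ‖a‖₊ < 1 := by
        have e : a = (a - x) + x := by ring
        rw [e]
        exact lt_of_le_of_lt (IsUltrametricDist.nnnorm_add_le_max _ _)
          (max_lt (hax.trans hs1) hx)
      have haZ := hmem a ha0 ha1
      have hsr : s ≤ r0 := by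
        rcases le_max_iff.mp (hoff a haZ) with h1 | h1
        · exact absurd h1 (not_le.mpr hxa)
        · exact h1
      have hsδ : s ≤ δ a := hsr.trans (hr a haZ)
      rw [Polynomial.eval_mul] at ha0
      rcases mul_eq_zero.mp ha0 with hPa | hQa
      · obtain ⟨h1, h2⟩ := hδP a hPa
        have h3 : Reg Q a s := h2.mono hsδ
        refine ⟨h3.recenter hxa, fun ξ hξ => ?_⟩
        rw [td_mem_iff h hξ]
        have hξa : ξ ∈ ball a s := by rwa [← ball_recenter hxa]
        have hQa : Q.eval a ≠ 0 := h3.eval_ne_zero hs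
        rw [val_of_reg h3 hξa]
        have h4 : ξ (emb P) ≤ gn a s P := BerkP1.emb_le_gn (mem_ball.mp hξa).le P
        have h5 : ξ (emb P) < (‖Q.eval a‖₊ : ℝ≥0∞) := by
          refine lt_of_le_of_lt h4 ?_
          exact_mod_cast lt_of_le_of_lt (gn_mono a hsδ P) h1
        rw [ENNReal.div_lt_iff (Or.inl (by simpa using hQa)) (Or.inl ENNReal.coe_ne_top), one_mul]
        exact h5
      · exfalso
        obtain ⟨h1, h2⟩ := hδQ a hQa
        have h3 : Reg P a s := h2.mono hsδ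
        have hζa : ζ ∈ ball a s := by rwa [← ball_recenter hxa]
        have hPa : P.eval a ≠ 0 := h3.eval_ne_zero hs
        rw [val_of_reg h3 hζa, ENNReal.div_lt_iff (Or.inr (by simpa using hPa))
          (Or.inr ENNReal.coe_ne_top), one_mul] at hmap
        have h4 : ζ (emb Q) ≤ gn a s Q := BerkP1.emb_le_gn (mem_ball.mp hζa).le Q
        have h5 : ζ (emb Q) ≤ (‖P.eval a‖₊ : ℝ≥0∞) := by
          refine h4.trans ?_
          exact_mod_cast (gn_mono a hsδ Q).trans h1
        exact absurd hmap (not_lt.mpr h5)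

end MP9e71ee

end

section

/-!
# Pullback chains of discs
-/

open Polynomial Filter Topology
open scoped NNReal ENNReal

namespace MP9e71ee

variable {C : Type*} [NontriviallyNormedField C]

/-- The image of a disc (centre and radius). -/
noncomputable def stp (P Q : C[X]) (p : C × ℝ≥0) : C × ℝ≥0 := (ev P Q p.1, rad P Q p.1 p.2)

variable [IsUltrametricDist C]

/-- A disc in the open unit disc, off the tree, without poles, mapped into the open unit disc. -/
structure Good (φ : RatFunc C →ₐ[C] RatFunc C) (Q : C[X]) (Z : Finset C) (r0 : ℝ≥0)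
    (p : C × ℝ≥0) : Prop where
  unit : ‖p.1‖₊ < 1
  pos : 0 < p.2
  off : OffT Z r0 p.1 p.2
  reg : Reg Q p.1 p.2
  maps : ∀ ξ ∈ ball p.1 p.2, BerkP1.map φ ξ ∈ ball (0 : C) 1

/-- The disc `p` is mapped by `k` steps through good discs onto the disc `D(xb, s)`. -/
structure ChainTo (φ : RatFunc C →ₐ[C] RatFunc C) (P Q : C[X]) (Z : Finset C) (r0 : ℝ≥0)
    (k : ℕ) (p : C × ℝ≥0) (xb : C) (s : ℝ≥0) : Prop where
  good : ∀ i, i < k → Good φ Q Z r0 ((stp P Q)^[i] p)
  rad_eq : ((stp P Q)^[k] p).2 = s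
  ctr : ‖((stp P Q)^[k] p).1 - xb‖₊ < s

omit [IsUltrametricDist C] in
theorem OffT.mono {Z : Finset C} {r0 : ℝ≥0} {x : C} {s t : ℝ≥0} (h : OffT Z r0 x s) (hts : t ≤ s) :
    OffT Z r0 x t := fun a ha => hts.trans (h a ha)

omit [IsUltrametricDist C] in
/-- The radius of the projection to the tree. -/
theorem exists_sig {Z : Finset C} {r0 : ℝ≥0} (h0 : (0 : C) ∈ Z) (x : C) :
    ∃ σ : ℝ≥0, OffT Z r0 x σ ∧ r0 ≤ σ ∧ ∃ a ∈ Z, σ = max ‖x - a‖₊ r0 := by
  obtain ⟨a, ha, hmin⟩ := Finset.exists_min_image Z (fun a => max ‖x - a‖₊ r0) ⟨0, h0⟩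
  exact ⟨max ‖x - a‖₊ r0, fun b hb => hmin b hb, le_max_right _ _, a, ha, rfl⟩

variable {φ : RatFunc C →ₐ[C] RatFunc C} {P Q : C[X]} {Z : Finset C} {r0 : ℝ≥0}

omit [IsUltrametricDist C] in
theorem stp_iterate_succ (k : ℕ) (p : C × ℝ≥0) :
    (stp P Q)^[k + 1] p = (stp P Q)^[k] (stp P Q p) := Function.iterate_succ_apply _ _ _

theorem ChainTo.tail {k : ℕ} {p : C × ℝ≥0} {xb : C} {s : ℝ≥0}
    (h : ChainTo φ P Q Z r0 (k + 1) p xb s) : ChainTo φ P Q Z r0 k (stp P Q p) xb s where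
  good i hi := by
    rw [← stp_iterate_succ]; exact h.good (i + 1) (by omega)
  rad_eq := by rw [← stp_iterate_succ]; exact h.rad_eq
  ctr := by rw [← stp_iterate_succ]; exact h.ctr

theorem ChainTo.drop {k j : ℕ} {p : C × ℝ≥0} {xb : C} {s : ℝ≥0}
    (h : ChainTo φ P Q Z r0 (k + j) p xb s) : ChainTo φ P Q Z r0 k ((stp P Q)^[j] p) xb s where
  good i hi := by
    rw [← Function.iterate_add_apply]; exact h.good (i + j) (by omega)
  rad_eq := by rw [← Function.iterate_add_apply]; exact h.rad_eq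
  ctr := by rw [← Function.iterate_add_apply]; exact h.ctr

variable [IsAlgClosed C]

theorem ChainTo.maps_step (hRM : RM φ P Q) {k : ℕ} {p : C × ℝ≥0} {xb : C} {s : ℝ≥0}
    (h : ChainTo φ P Q Z r0 k p xb s) {ζ : BerkP1 C} (hζ : ζ ∈ ball p.1 p.2) :
    ∀ i, i ≤ k → (BerkP1.map φ)^[i] ζ ∈ ball ((stp P Q)^[i] p).1 ((stp P Q)^[i] p).2 := by
  intro i
  induction i with
  | zero => intro _; exact hζ
  | succ i ih =>
    intro hi
    rw [Function.iterate_succ_apply', Function.iterate_succ_apply']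
    exact map_mem_ball hRM (h.good i (by omega)).reg (ih (by omega))

/-- The end of the chain is the target disc. -/
theorem ChainTo.maps_end (hRM : RM φ P Q) {k : ℕ} {p : C × ℝ≥0} {xb : C} {s : ℝ≥0}
    (h : ChainTo φ P Q Z r0 k p xb s) {ζ : BerkP1 C} (hζ : ζ ∈ ball p.1 p.2) :
    (BerkP1.map φ)^[k] ζ ∈ ball xb s := by
  have h1 := h.maps_step hRM hζ k le_rfl
  rw [h.rad_eq] at h1
  rwa [ball_recenter h.ctr] at h1

omit [IsAlgClosed C] in
theorem TData.off_lt (hTD : TData φ Q Z r0) {x : C} {s : ℝ≥0} (hx : ‖x‖₊ < 1)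
    (h : OffT Z r0 x s) : s < 1 := by
  have := h 0 hTD.zero_mem
  rw [sub_zero] at this
  exact lt_of_le_of_lt this (max_lt hx hTD.r0_lt)

omit [IsAlgClosed C] in
theorem ball_subset_unit {x : C} {s : ℝ≥0} (hx : ‖x‖₊ < 1) (hs : s ≤ 1) :
    (ball x s : Set (BerkP1 C)) ⊆ ball 0 1 := by
  rw [← ball_recenter (x := x) (y := 0) (s := 1) (by simpa using hx)]
  exact ball_mono hs

omit [IsAlgClosed C] in
theorem Good.subset_unit (hTD : TData φ Q Z r0) {p : C × ℝ≥0} (h : Good φ Q Z r0 p) :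
    (ball p.1 p.2 : Set (BerkP1 C)) ⊆ ball 0 1 :=
  ball_subset_unit h.unit (hTD.off_lt h.unit h.off).le

theorem ChainTo.maps_unit (hRM : RM φ P Q) (hTD : TData φ Q Z r0) {k : ℕ} {p : C × ℝ≥0} {xb : C}
    {s : ℝ≥0} (h : ChainTo φ P Q Z r0 k p xb s) (hs : (ball xb s : Set (BerkP1 C)) ⊆ ball 0 1)
    {ζ : BerkP1 C} (hζ : ζ ∈ ball p.1 p.2) :
    ∀ i, i ≤ k → (BerkP1.map φ)^[i] ζ ∈ ball (0 : C) 1 := by
  intro i hi
  rcases lt_or_eq_of_le hi with hi | rfl
  · exact (h.good i hi).subset_unit hTD (h.maps_step hRM hζ i hi.le)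
  · exact hs (h.maps_end hRM hζ)

/-- Existence of pullback chains. -/
theorem exists_chain (hRM : RM φ P Q) (hTD : TData φ Q Z r0) {xb : C} {s : ℝ≥0} :
    ∀ (k : ℕ) (x : C) (r : ℝ≥0),
      (∀ i, i ≤ k → (BerkP1.map φ)^[i] (dpt x r) ∈ ball (0 : C) 1) →
      (BerkP1.map φ)^[k] (dpt x r) ∈ ball xb s →
      (∀ i, 1 ≤ i → i ≤ k → ∀ ζ ∈ TSet Z r0, (BerkP1.map φ)^[i] ζ ∉ ball xb s) →
      ∃ ρ, r < ρ ∧ ChainTo φ P Q Z r0 k (x, ρ) xb s := by
  intro k
  induction k with
  | zero =>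
    intro x r _ h2 _
    have h2' := dpt_mem_ball.mp h2
    exact ⟨s, h2'.2, ⟨fun i hi => absurd hi (by omega), rfl, h2'.1⟩⟩
  | succ k ih =>
    intro x r h1 h2 h3
    have hw : dpt x r ∈ ball (0 : C) 1 := h1 0 (by omega)
    have hw' := dpt_mem_ball.mp hw
    rw [sub_zero] at hw'
    obtain ⟨σ, hoff, hr0σ, a, haZ, hσ⟩ := exists_sig (r0 := r0) hTD.zero_mem x
    have hσ1 : σ < 1 := hTD.off_lt hw'.1 hoff
    have hσpos : 0 < σ := lt_of_lt_of_le hTD.r0_pos hr0σ
    have hxa : ‖x - a‖₊ ≤ σ := by rw [hσ]; exact le_max_left _ _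
    -- the point of radius `σ` above `x` lies on the tree
    have hTσ : dpt x σ ∈ TSet Z r0 := ⟨a, haZ, σ, hr0σ, hσ1.le, dpt_eq_of_le hxa⟩
    have hrσ : r < σ := by
      by_contra hcon
      push Not at hcon
      apply h3 (k + 1) (by omega) le_rfl (dpt x r) _ h2
      exact ⟨a, haZ, r, hr0σ.trans hcon, hw'.2.le, dpt_eq_of_le (hxa.trans hcon)⟩
    have hmem : dpt x r ∈ ball x σ := dpt_mem_ball.mpr ⟨by simpa using hσpos, hrσ⟩
    obtain ⟨hreg, hmaps⟩ := hTD.reg x σ hw'.1 hσpos hoff _ hmem (h1 1 (by omega))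
    have hxx : ‖x - x‖₊ < σ := by simpa using hσpos
    have e1 : BerkP1.map φ (dpt x r) = dpt (ev P Q x) (rad P Q x r) :=
      map_dpt_reg hRM.hφ hRM.hQ hreg hxx hrσ.le
    have e2 : BerkP1.map φ (dpt x σ) = dpt (ev P Q x) (rad P Q x σ) :=
      map_dpt_reg hRM.hφ hRM.hQ hreg hxx le_rfl
    obtain ⟨ρ', hρ', hch⟩ := ih (ev P Q x) (rad P Q x r)
      (fun i hi => by
        have := h1 (i + 1) (by omega)
        rwa [Function.iterate_succ_apply, e1] at this)
      (by rwa [Function.iterate_succ_apply, e1] at h2)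
      (fun i hi1 hi2 => h3 i hi1 (by omega))
    have hle : ρ' ≤ rad P Q x σ := by
      by_contra hcon
      push Not at hcon
      apply h3 (k + 1) (by omega) le_rfl _ hTσ
      rw [Function.iterate_succ_apply, e2]
      apply hch.maps_end hRM
      refine dpt_mem_ball.mpr ⟨?_, hcon⟩
      simpa using lt_of_le_of_lt zero_le hcon
    obtain ⟨u, hru, huσ, hu⟩ := exists_rad_eq hrσ.le hρ' hle
    refine ⟨u, hru, ?_⟩
    have hstp : stp P Q (x, u) = (ev P Q x, ρ') := by simp [stp, hu]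
    refine ⟨?_, ?_, ?_⟩
    · intro i hi
      rcases Nat.eq_zero_or_pos i with rfl | hi0
      · exact ⟨hw'.1, lt_of_le_of_lt zero_le hru, hoff.mono huσ, hreg.mono huσ,
          fun ξ hξ => hmaps ξ (ball_mono huσ hξ)⟩
      · obtain ⟨j, rfl⟩ : ∃ j, i = j + 1 := ⟨i - 1, by omega⟩
        rw [stp_iterate_succ, hstp]
        exact hch.good j (by omega)
    · rw [stp_iterate_succ, hstp]; exact hch.rad_eq
    · rw [stp_iterate_succ, hstp]; exact hch.ctr

/-- The discs of a chain are pairwise disjoint. -/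
theorem ChainTo.disjoint {V : ℕ → Set (BerkP1 C)} (hS : Setup φ V) (hRM : RM φ P Q)
    (hTD : TData φ Q Z r0) {k : ℕ} {x : C} {ρ r : ℝ≥0} {xb : C} {s : ℝ≥0}
    (h : ChainTo φ P Q Z r0 k (x, ρ) xb s) (hs : (ball xb s : Set (BerkP1 C)) ⊆ ball 0 1)
    (hr : r < ρ) (hmin : ∀ i, i < k → (BerkP1.map φ)^[i] (dpt x r) ∉ ball xb s)
    {b : ℕ} (hb : zpt φ b ∈ ball xb s) {i j : ℕ} (hij : i < j) (hjk : j ≤ k) {ζ : BerkP1 C}
    (h1 : ζ ∈ ball ((stp P Q)^[i] (x, ρ)).1 ((stp P Q)^[i] (x, ρ)).2)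
    (h2 : ζ ∈ ball ((stp P Q)^[j] (x, ρ)).1 ((stp P Q)^[j] (x, ρ)).2) : False := by
  set p : C × ℝ≥0 := (x, ρ) with hp
  have hdropj : ChainTo φ P Q Z r0 (k - j) ((stp P Q)^[j] p) xb s := by
    have : k = (k - j) + j := by omega
    rw [this] at h; exact h.drop
  have hdropi : ChainTo φ P Q Z r0 (k - i) ((stp P Q)^[i] p) xb s := by
    have : k = (k - i) + i := by omega
    rw [this] at h; exact h.drop
  have h3 : (BerkP1.map φ)^[k - j] ζ ∈ ball xb s := hdropj.maps_end hRM h2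
  have h4 := hdropi.maps_step hRM h1 (k - j) (by omega)
  rw [← Function.iterate_add_apply] at h4
  set l := k - j + i with hl
  have hlk : l < k := by omega
  have hdropl : ChainTo φ P Q Z r0 (k - l) ((stp P Q)^[l] p) xb s := by
    have : k = (k - l) + l := by omega
    rw [this] at h; exact h.drop
  have hxx : dpt x r ∈ ball p.1 p.2 := by
    refine dpt_mem_ball.mpr ⟨?_, hr⟩
    simpa [hp] using lt_of_le_of_lt zero_le hr
  rcases le_total s ((stp P Q)^[l] p).2 with hle | hle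
  · have hsub := ball_subset_of_mem h3 h4 hle
    have hz1 : zpt φ b ∈ ball ((stp P Q)^[l] p).1 ((stp P Q)^[l] p).2 := hsub hb
    have hz2 : zpt φ (k - l + b) ∈ ball ((stp P Q)^[l] p).1 ((stp P Q)^[l] p).2 := by
      rw [zpt_add]
      exact hsub (hdropl.maps_end hRM hz1)
    have := hS.no_return' (M := k - l) (by omega)
      (fun i hi ξ hξ => hdropl.maps_unit hRM hTD hs hξ i hi.le)
      (fun ξ hξ => hsub (hdropl.maps_end hRM hξ)) hz1 hz2
    omega
  · have hsub := ball_subset_of_mem h4 h3 hle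
    exact hmin l hlk (hsub (h.maps_step hRM hxx l hlk.le))

end MP9e71ee

end

section

/-!
# Rationality of the orbit of the Gauss point; exit points
-/

open Polynomial Filter Topology
open scoped NNReal ENNReal

namespace MP9e71ee

variable {C : Type*} [NontriviallyNormedField C] [IsUltrametricDist C] [IsAlgClosed C]
variable {φ : RatFunc C →ₐ[C] RatFunc C} {P Q : C[X]}

omit [IsUltrametricDist C] [IsAlgClosed C] in
/-- Taylor coefficients over a subfield. -/
theorem tc_mem {K : Subfield C} {a : C} (ha : a ∈ K) {H : C[X]} (hH : ∀ k, H.coeff k ∈ K) (k : ℕ) :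
    tc a H k ∈ K := by
  have e : tc a H k = ∑ i ∈ Finset.range (H.natDegree + 1), H.coeff i * ((i.choose k : C) * a ^ (i - k)) := by
    unfold tc
    conv_lhs => rw [Polynomial.as_sum_range_C_mul_X_pow H]
    simp only [map_sum, Polynomial.finsetSum_coeff]
    apply Finset.sum_congr rfl
    intro i _
    rw [Polynomial.taylor_apply, Polynomial.mul_comp, Polynomial.C_comp, Polynomial.pow_comp,
      Polynomial.X_comp, Polynomial.coeff_C_mul, Polynomial.coeff_X_add_C_pow]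
    ring
  rw [e]
  apply Subfield.sum_mem
  intro i _
  exact K.mul_mem (hH i) (K.mul_mem (natCast_mem K _) (K.pow_mem ha _))

theorem gn_le_gauss {x : C} {r : ℝ≥0} (hx : ‖x‖₊ ≤ 1) (hr : r ≤ 1) (H : C[X]) :
    gn x r H ≤ gn 0 1 H := by
  refine (gn_mono x hr H).trans ?_
  rw [gn_recenter (a := x) (a' := 0) (by simpa using hx)]

/-- The orbit of the Gauss point is rational over a discretely valued field. -/
theorem rational_orbit {V : ℕ → Set (BerkP1 C)} (hH : HypH C) (hAP : ClaimAPPROX C)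
    (hS : Setup φ V) (hRM : RM φ P Q) {rs : ℝ≥0} (hrs : 0 < rs) (hrs1 : rs ≤ 1)
    (hB : ∀ n (x γ : C), γ ≠ 0 → zpt φ n = dpt x ‖γ‖₊ → rs ≤ ‖γ‖₊) (S : Finset C) :
    ∃ (K : Subfield C) (κ : ℝ), 0 < κ ∧ κ < 1 ∧ (∀ x ∈ K, x ≠ 0 → ∃ n : ℤ, ‖x‖ = κ ^ n) ∧
      (∀ n, ∃ x ∈ K, ∃ γ ∈ K, γ ≠ 0 ∧ zpt φ n = dpt x ‖γ‖₊) ∧
      ∀ a ∈ S, ∃ a' ∈ K, ‖a - a'‖₊ < rs := by
  set q : ℝ≥0 := rs ^ Q.natDegree * gn 0 1 Q with hq
  have hqpos : 0 < q := mul_pos (pow_pos hrs _)
    (pos_iff_ne_zero.mpr (gn_ne_zero one_pos hRM.hQ))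
  set ε : ℝ≥0 := min rs (rs * q) with hε
  have hεpos : 0 < ε := lt_min hrs (mul_pos hrs hqpos)
  have hεq : ε ≤ q := (min_le_right _ _).trans (by
    calc rs * q ≤ 1 * q := by gcongr
      _ = q := one_mul _)
  obtain ⟨K, κ, hκ0, hκ1, hK, ⟨P', Q', hP', hQ', hPP, hQQ⟩, hSK⟩ := hAP hH P Q S ε hεpos
  refine ⟨K, κ, hκ0, hκ1, hK, ?_, fun a ha => ?_⟩
  · intro n
    induction n with
    | zero => exact ⟨0, K.zero_mem, 1, K.one_mem, one_ne_zero, by simp [zpt]⟩
    | succ n ih =>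
      obtain ⟨x, hxK, γ, hγK, hγ, hz⟩ := ih
      have hrsγ := hB n x γ hγ hz
      set r := ‖γ‖₊ with hr
      have hrpos : 0 < r := lt_of_lt_of_le hrs hrsγ
      -- the point lies in the closed unit disc
      have hin : ‖x‖₊ ≤ 1 ∧ r ≤ 1 := by
        rcases Nat.eq_zero_or_pos n with rfl | hn
        · have h0 : (dpt 0 1 : BerkP1 C) = dpt x r := hz
          have h1 := dpt_eq_iff.mp h0
          refine ⟨?_, h1.1.ge⟩
          have := h1.2
          simpa using this
        · have := hS.zpt_unit hn.ne'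
          rw [hz, dpt_mem_ball, sub_zero] at this
          exact ⟨this.1.le, this.2.le⟩
      have hgQ : q ≤ gn x r Q := by
        have h1 := gn_scale x hin.2 Q le_rfl
        rw [one_pow, mul_one, gn_recenter (a := x) (a' := 0) (by simpa using hin.1)] at h1
        calc q = gn 0 1 Q * rs ^ Q.natDegree := by rw [hq, mul_comm]
          _ ≤ gn 0 1 Q * r ^ Q.natDegree := by gcongr
          _ ≤ gn x r Q := h1
      have hdQ : gn x r (Q - Q') < ε := lt_of_le_of_lt (gn_le_gauss hin.1 hin.2 _) hQQ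
      have hdP : gn x r (P - P') < ε := lt_of_le_of_lt (gn_le_gauss hin.1 hin.2 _) hPP
      have hQeq : gn x r Q' = gn x r Q := by
        have : Q' = Q - (Q - Q') := by ring
        rw [this]
        exact gn_sub_eq_left (lt_of_lt_of_le hdQ (hεq.trans hgQ))
      have hQ0 : gn x r Q ≠ 0 := (lt_of_lt_of_le hqpos hgQ).ne'
      have hQ'0 : gn x r Q' ≠ 0 := by rw [hQeq]; exact hQ0
      -- the next point
      obtain ⟨x2, γ2, hγ2, hz2⟩ := exists_zpt_eq φ (n + 1)
      have hrs2 := hB (n + 1) x2 γ2 hγ2 hz2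
      have hz2u := hS.zpt_unit (n := n + 1) (by omega)
      obtain ⟨k, _, hk⟩ := exists_gn x r Q'
      set c := tc x P' k / tc x Q' k with hc
      have hcK : c ∈ K := K.div_mem (tc_mem hxK hP' k) (tc_mem hxK hQ' k)
      set R := gn x r (P' - Polynomial.C c * Q') / gn x r Q' with hR
      have hval : ∀ b : C, ‖b‖₊ ≤ 1 → zpt φ (n + 1) (lin b) = dpt c R (lin b) := by
        intro b hb
        have h1 : zpt φ (n + 1) (lin b) =
            ((gn x r (P - Polynomial.C b * Q) / gn x r Q : ℝ≥0) : ℝ≥0∞) := by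
          rw [zpt_succ, hz, map_dpt_lin hRM.hφ hRM.hQ hQ0]
        have h2 : rs * gn x r Q ≤ gn x r (P - Polynomial.C b * Q) := by
          rw [hz2, dpt_lin, ENNReal.coe_inj] at h1
          rw [← le_div_iff₀ (pos_iff_ne_zero.mpr hQ0), ← h1]
          exact hrs2.trans (le_max_right _ _)
        have h3 : gn x r ((P - Polynomial.C b * Q) - (P' - Polynomial.C b * Q')) < ε := by
          have e : (P - Polynomial.C b * Q) - (P' - Polynomial.C b * Q') =
              (P - P') - Polynomial.C b * (Q - Q') := by ring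
          rw [e]
          refine lt_of_le_of_lt (gn_sub_le _ _ _ _) (max_lt hdP ?_)
          rw [gn_C_mul]
          calc ‖b‖₊ * gn x r (Q - Q') ≤ 1 * gn x r (Q - Q') := by gcongr
            _ < ε := by rwa [one_mul]
        have h4 : ε ≤ gn x r (P - Polynomial.C b * Q) := by
          refine ((min_le_right _ _).trans ?_).trans h2
          gcongr
        have h5 : gn x r (P' - Polynomial.C b * Q') = gn x r (P - Polynomial.C b * Q) := by
          have e : P' - Polynomial.C b * Q' = (P - Polynomial.C b * Q) -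
              ((P - Polynomial.C b * Q) - (P' - Polynomial.C b * Q')) := by ring
          rw [e]
          exact gn_sub_eq_left (lt_of_lt_of_le h3 h4)
        rw [h1, dpt_lin]
        congr 1
        rw [← h5, ← hQeq]
        have hbc : b = c + (b - c) := by ring
        conv_lhs => rw [hbc, hc, gn_sub_C_mul hk hQ'0, ← hc]
        rw [← max_div_div_right zero_le, mul_div_assoc, div_self hQ'0, mul_one,
          nnnorm_sub_comm' c b, max_comm]
      have h0 := hval 0 (by simp)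
      have hcR : ‖c‖₊ < 1 ∧ R < 1 := by
        rw [mem_ball, h0, dpt_lin, sub_zero] at hz2u
        have : max ‖c‖₊ R < 1 := by exact_mod_cast hz2u
        exact max_lt_iff.mp this
      have heq : dpt c R = zpt φ (n + 1) := by
        apply BerkP1.ext_lin (dpt_X_ne_top _ _)
        intro b
        rcases le_or_gt ‖b‖₊ 1 with hb | hb
        · exact (hval b hb).symm
        · rw [dpt_lin]
          have h1 : ‖c - b‖₊ = ‖b‖₊ := nnnorm_sub_eq_right (lt_trans hcR.1 hb)
          rw [h1, max_eq_left (lt_trans hcR.2 hb).le]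
          have e : lin b = RatFunc.C (-b) + RatFunc.X := by simp [lin]; ring
          have hX : zpt φ (n + 1) RatFunc.X < 1 := mem_unit.mp hz2u
          rw [e, BerkP1.map_add_eq_left, BerkP1.map_C, enorm_neg]
          · rfl
          · rw [BerkP1.map_C, enorm_neg]
            refine lt_trans hX ?_
            show (1 : ℝ≥0∞) < ((‖b‖₊ : ℝ≥0) : ℝ≥0∞)
            exact_mod_cast hb
      have hRpos : 0 < R := by
        have := heq.trans hz2
        rw [(dpt_eq_iff.mp this).1]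
        simpa using hγ2
      -- `R` is the norm of an element of `K`
      have hgK : ∀ H : C[X], (∀ k, H.coeff k ∈ K) → ∃ δ ∈ K, ‖δ‖₊ = gn x r H := by
        intro H hH
        obtain ⟨l, _, hl⟩ := exists_gn x r H
        exact ⟨tc x H l * γ ^ l, K.mul_mem (tc_mem hxK hH l) (K.pow_mem hγK l), by
          rw [← hl, nnnorm_mul, nnnorm_pow]⟩
      obtain ⟨δ1, hδ1, he1⟩ := hgK (P' - Polynomial.C c * Q') (by
        intro k
        rw [Polynomial.coeff_sub, Polynomial.coeff_C_mul]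
        exact K.sub_mem (hP' k) (K.mul_mem hcK (hQ' k)))
      obtain ⟨δ2, hδ2, he2⟩ := hgK Q' hQ'
      refine ⟨c, hcK, δ1 / δ2, K.div_mem hδ1 hδ2, ?_, ?_⟩
      · intro h
        have : ‖δ1 / δ2‖₊ = R := by rw [nnnorm_div, he1, he2]
        rw [h] at this
        simp at this
        exact hRpos.ne this
      · rw [← heq, nnnorm_div, he1, he2]
  · obtain ⟨a', ha', hlt⟩ := hSK a ha
    exact ⟨a', ha', lt_of_lt_of_le hlt (min_le_left _ _)⟩

/-- Exit point of a Fatou component along a vertical path. -/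
theorem exists_exit {U : Set (BerkP1 C)} (hU : IsFatouComponent φ U) {x : C} {r β : ℝ≥0}
    (hrβ : r ≤ β) (hr : dpt x r ∈ U) (hβ : dpt x β ∉ U) :
    ∃ τ, r < τ ∧ τ ≤ β ∧ (∀ ρ, r ≤ ρ → ρ < τ → dpt x ρ ∈ U) ∧ dpt x τ ∉ Fatou φ := by
  set S : Set ℝ≥0 := {ρ | r ≤ ρ ∧ dpt x ρ ∉ U} with hS
  have hne : S.Nonempty := ⟨β, hrβ, hβ⟩
  set τ := sInf S with hτ
  have hτβ : τ ≤ β := csInf_le (OrderBot.bddBelow S) ⟨hrβ, hβ⟩
  have hrτ : r ≤ τ := le_csInf hne (fun ρ hρ => hρ.1)
  have hbelow : ∀ ρ, r ≤ ρ → ρ < τ → dpt x ρ ∈ U := by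
    intro ρ h1 h2
    by_contra hcon
    exact absurd (csInf_le (OrderBot.bddBelow S) (show ρ ∈ S from ⟨h1, hcon⟩)) (not_le.mpr h2)
  have hnot : dpt x τ ∉ Fatou φ := by
    intro hF
    have hopen : IsOpen ((fun ρ => dpt x ρ) ⁻¹' (Fatou φ)) :=
      (isOpen_fatou φ).preimage (continuous_dpt x)
    obtain ⟨ε, hε, hball⟩ := Metric.isOpen_iff.mp hopen τ hF
    obtain ⟨δ, hδ⟩ : ∃ δ : ℝ≥0, (δ : ℝ) = ε / 2 := ⟨⟨ε / 2, by positivity⟩, rfl⟩
    have hδpos : 0 < δ := by
      rw [← NNReal.coe_pos, hδ]; positivity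
    have hI : Set.Icc (τ - δ) (τ + δ) ⊆ (fun ρ => dpt x ρ) ⁻¹' (Fatou φ) := by
      intro ρ hρ
      apply hball
      rw [Metric.mem_ball, NNReal.dist_eq]
      have h1 : (ρ : ℝ) ≤ τ + ε / 2 := by
        have := NNReal.coe_le_coe.mpr hρ.2
        rwa [NNReal.coe_add, hδ] at this
      have h2 : (τ : ℝ) - ε / 2 ≤ ρ := by
        have := tsub_le_iff_right.mp hρ.1
        have := NNReal.coe_le_coe.mpr this
        rw [NNReal.coe_add, hδ] at this
        linarith
      rw [abs_lt]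
      constructor <;> linarith
    have hpre : IsPreconnected ((fun ρ => dpt x ρ) '' Set.Icc (τ - δ) (τ + δ)) :=
      isPreconnected_Icc.image _ (continuous_dpt x).continuousOn
    have hsubF : (fun ρ => dpt x ρ) '' Set.Icc (τ - δ) (τ + δ) ⊆ Fatou φ := by
      rintro _ ⟨ρ, hρ, rfl⟩
      exact hI hρ
    have hmeet : ((fun ρ => dpt x ρ) '' Set.Icc (τ - δ) (τ + δ) ∩ U).Nonempty := by
      refine ⟨dpt x (max r (τ - δ)), ⟨max r (τ - δ), ⟨le_max_right _ _, ?_⟩, rfl⟩, ?_⟩
      · exact max_le (hrτ.trans le_self_add) (tsub_le_self.trans le_self_add)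
      · rcases lt_or_eq_of_le hrτ with h | h
        · apply hbelow _ (le_max_left _ _)
          apply max_lt h
          exact tsub_lt_self (lt_of_le_of_lt zero_le h) hδpos
        · have : max r (τ - δ) = r := by
            rw [h]; exact max_eq_left tsub_le_self
          rw [this]; exact hr
    have hsub := comp_absorb hU hpre hsubF hmeet
    obtain ⟨ρ, hρS, hρ⟩ := exists_lt_of_csInf_lt hne (show sInf S < τ + δ from
      lt_add_of_pos_right _ hδpos)
    apply hρS.2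
    apply hsub
    refine ⟨ρ, ⟨?_, hρ.le⟩, rfl⟩
    exact tsub_le_self.trans (csInf_le (OrderBot.bddBelow S) hρS)
  refine ⟨τ, lt_of_le_of_ne hrτ ?_, hτβ, hbelow, hnot⟩
  intro h
  rw [← h] at hnot
  exact hnot (comp_subset_fatou hU hr)

end MP9e71ee

end

section

/-!
# Slopes along chains, and comparison of chains
-/

open Polynomial Filter Topology
open scoped NNReal ENNReal

namespace MP9e71ee

variable {C : Type*} [NontriviallyNormedField C] [IsUltrametricDist C] [IsAlgClosed C]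
variable {φ : RatFunc C →ₐ[C] RatFunc C} {P Q : C[X]} {Z : Finset C} {r0 : ℝ≥0}

omit [IsUltrametricDist C] [IsAlgClosed C] in
theorem stp_fst (k : ℕ) (x : C) (ρ : ℝ≥0) :
    ((stp P Q)^[k] (x, ρ)).1 = (ev P Q)^[k] x := by
  induction k with
  | zero => rfl
  | succ k ih => rw [Function.iterate_succ_apply', Function.iterate_succ_apply', ← ih]; rfl

omit [IsUltrametricDist C] [IsAlgClosed C] in
theorem stp_snd (k : ℕ) (x : C) (ρ : ℝ≥0) :
    ((stp P Q)^[k + 1] (x, ρ)).2 = rad P Q ((ev P Q)^[k] x) ((stp P Q)^[k] (x, ρ)).2 := by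
  rw [Function.iterate_succ_apply', ← stp_fst (P := P) (Q := Q) k x ρ]; rfl

omit [IsUltrametricDist C] [IsAlgClosed C] in
theorem rad_scale' (P Q : C[X]) (x : C) {r s : ℝ≥0} (hrs : r ≤ s) :
    rad P Q x s * r ^ (mdeg P Q + 1) ≤ rad P Q x r * s ^ (mdeg P Q + 1) := by
  unfold rad
  have := gn_scale x hrs (P - Polynomial.C (ev P Q x) * Q) (d := mdeg P Q + 1)
    ((natDegree_sub_C_mul_le P Q _).trans (Nat.le_succ _))
  rw [div_mul_eq_mul_div, div_mul_eq_mul_div]
  gcongr

/-- Comparison of two concentric chains of the same length. -/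
theorem chain_compare (hRM : RM φ P Q) (hTame : ClaimISO C) (hTM : TameMult P Q)
    {k : ℕ} {x : C} {ρ ρ' : ℝ≥0} (hρ' : 0 < ρ') (hle : ρ' ≤ ρ)
    (hgood : ∀ i, i < k → Good φ Q Z r0 ((stp P Q)^[i] (x, ρ)))
    (Cr : Finset C) (hCr : ∀ b, (wr P Q).eval b = 0 → b ∈ Cr)
    (hdis : ∀ i j, i < j → j < k → ∀ ζ : BerkP1 C,
      ζ ∈ ball ((stp P Q)^[i] (x, ρ)).1 ((stp P Q)^[i] (x, ρ)).2 →
      ζ ∈ ball ((stp P Q)^[j] (x, ρ)).1 ((stp P Q)^[j] (x, ρ)).2 → False) :
    ((stp P Q)^[k] (x, ρ)).2 * ρ' ^ ((mdeg P Q + 1) ^ Cr.card) ≤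
      ((stp P Q)^[k] (x, ρ')).2 * ρ ^ ((mdeg P Q + 1) ^ Cr.card) := by
  classical
  set d := mdeg P Q + 1 with hd
  have hρ : 0 < ρ := lt_of_lt_of_le hρ' hle
  let A : ℕ → Finset ℕ := fun i => (Finset.range i).filter
    (fun l => ∃ c ∈ Cr, ‖c - ((stp P Q)^[l] (x, ρ)).1‖₊ < ((stp P Q)^[l] (x, ρ)).2)
  have key : ∀ i, i ≤ k →
      0 < ((stp P Q)^[i] (x, ρ')).2 ∧ ((stp P Q)^[i] (x, ρ')).2 ≤ ((stp P Q)^[i] (x, ρ)).2 ∧
      ((stp P Q)^[i] (x, ρ)).2 * ρ' ^ (d ^ (A i).card) ≤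
        ((stp P Q)^[i] (x, ρ')).2 * ρ ^ (d ^ (A i).card) := by
    intro i
    induction i with
    | zero =>
      intro _
      refine ⟨hρ', hle, ?_⟩
      have : A 0 = ∅ := by simp [A]
      rw [this]
      simp only [Finset.card_empty, pow_zero, pow_one, Function.iterate_zero, id]
      rw [mul_comm]
    | succ i ih =>
      intro hi
      obtain ⟨ih1, ih2, ih3⟩ := ih (by omega)
      have hg := hgood i (by omega)
      have hc : ((stp P Q)^[i] (x, ρ)).1 = (ev P Q)^[i] x := stp_fst i x ρ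
      set y := (ev P Q)^[i] x with hy
      set a := ((stp P Q)^[i] (x, ρ)).2 with ha
      set a' := ((stp P Q)^[i] (x, ρ')).2 with ha'
      have hreg : Reg Q y a := by have := hg.reg; rwa [hc] at this
      have hQy : Q.eval y ≠ 0 := hreg.eval_ne_zero hg.pos
      rw [stp_snd, stp_snd, ← hy, ← ha, ← ha']
      refine ⟨rad_pos hRM hQy ih1, rad_mono hRM hQy ih2, ?_⟩
      by_cases hcrit : ∃ c ∈ Cr, ‖c - ((stp P Q)^[i] (x, ρ)).1‖₊ < ((stp P Q)^[i] (x, ρ)).2
      · have hA : A (i + 1) = insert i (A i) := by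
          simp only [A, Finset.range_add_one, Finset.filter_insert, if_pos hcrit]
        have hni : i ∉ A i := by simp [A]
        rw [hA, Finset.card_insert_of_notMem hni, pow_succ, pow_mul, pow_mul]
        have h1 := rad_scale' P Q y ih2
        rw [← hd] at h1
        have h2 : (a * ρ' ^ d ^ (A i).card) ^ d ≤ (a' * ρ ^ d ^ (A i).card) ^ d :=
          pow_le_pow_left₀ zero_le ih3 d
        rw [mul_pow, mul_pow] at h2
        have hapos : 0 < a ^ d := pow_pos (lt_of_lt_of_le ih1 ih2) d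
        have hapos' : 0 < a' ^ d := pow_pos ih1 d
        -- rad a * a'^d ≤ rad a' * a^d,  a^d * X' ≤ a'^d * X
        have h3 : rad P Q y a * (ρ' ^ d ^ (A i).card) ^ d * (a' ^ d * a ^ d) ≤
            rad P Q y a' * (ρ ^ d ^ (A i).card) ^ d * (a' ^ d * a ^ d) := by
          calc rad P Q y a * (ρ' ^ d ^ (A i).card) ^ d * (a' ^ d * a ^ d)
              = (rad P Q y a * a' ^ d) * (a ^ d * (ρ' ^ d ^ (A i).card) ^ d) := by ring
            _ ≤ (rad P Q y a' * a ^ d) * (a' ^ d * (ρ ^ d ^ (A i).card) ^ d) :=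
                mul_le_mul' h1 h2
            _ = _ := by ring
        exact le_of_mul_le_mul_right h3 (mul_pos hapos' hapos)
      · have hA : A (i + 1) = A i := by
          simp only [A, Finset.range_add_one, Finset.filter_insert, if_neg hcrit]
        rw [hA]
        have hregW : Reg (wr P Q) y a := by
          intro b hb
          by_contra hlt
          push Not at hlt
          apply hcrit
          refine ⟨b, hCr b hb, ?_⟩
          rw [hc]; exact hlt
        obtain ⟨c, hcpos, hciso⟩ := (hTame φ P Q hRM hTM).2 y a hg.pos hreg hregW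
        have hyy : ‖y - y‖₊ < a := by simpa using hg.pos
        rw [hciso y hyy a le_rfl, hciso y hyy a' ih2, mul_assoc, mul_assoc]
        gcongr
  obtain ⟨_, _, hk⟩ := key k le_rfl
  -- the number of discs containing critical points
  have hcard : (A k).card ≤ Cr.card := by
    have hch : ∀ l ∈ A k, ∃ c ∈ Cr,
        ‖c - ((stp P Q)^[l] (x, ρ)).1‖₊ < ((stp P Q)^[l] (x, ρ)).2 := by
      intro l hl
      exact (Finset.mem_filter.mp hl).2
    choose! f hf1 hf2 using hch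
    apply Finset.card_le_card_of_injOn f (fun l hl => hf1 l hl)
    intro l hl m hm hlm
    by_contra hne
    have hlk : l < k := Finset.mem_range.mp (Finset.mem_filter.mp hl).1
    have hmk : m < k := Finset.mem_range.mp (Finset.mem_filter.mp hm).1
    have p1 : dpt (f l) 0 ∈ ball ((stp P Q)^[l] (x, ρ)).1 ((stp P Q)^[l] (x, ρ)).2 :=
      dpt_mem_ball.mpr ⟨hf2 l hl, (hgood l hlk).pos⟩
    have p2 : dpt (f l) 0 ∈ ball ((stp P Q)^[m] (x, ρ)).1 ((stp P Q)^[m] (x, ρ)).2 :=
      dpt_mem_ball.mpr ⟨by rw [hlm]; exact hf2 m hm, (hgood m hmk).pos⟩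
    rcases lt_or_gt_of_ne hne with h | h
    · exact hdis l m h hmk _ p1 p2
    · exact hdis m l h hlk _ p2 p1
  -- raise the exponent
  have hexp : d ^ (A k).card ≤ d ^ Cr.card := Nat.pow_le_pow_right (by omega) hcard
  obtain ⟨e, he⟩ := Nat.exists_eq_add_of_le hexp
  rw [he, pow_add, pow_add, ← mul_assoc, ← mul_assoc]
  exact mul_le_mul' hk (pow_le_pow_left₀ zero_le hle e)

/-- Chains with the same centre and different lengths do not cross. -/
theorem chain_noncross {V : ℕ → Set (BerkP1 C)} (hS : Setup φ V) (hRM : RM φ P Q)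
    (hTD : TData φ Q Z r0) {k k' : ℕ} (hkk : k < k') {x : C} {ρ ρ' r : ℝ≥0} {xb : C} {s s' : ℝ≥0}
    (h : ChainTo φ P Q Z r0 k (x, ρ) xb s) (h' : ChainTo φ P Q Z r0 k' (x, ρ') xb s')
    (hs' : (ball xb s' : Set (BerkP1 C)) ⊆ ball 0 1) (hs'pos : 0 < s') (hss : s' ≤ s)
    (hr : r < ρ') (hmin : ∀ i, i < k' → (BerkP1.map φ)^[i] (dpt x r) ∉ ball xb s')
    {b : ℕ} (hb : zpt φ b ∈ ball xb s') : ρ' ≤ ρ := by
  by_contra hcon
  push Not at hcon
  have key : ∀ i, i ≤ k → ((stp P Q)^[i] (x, ρ)).2 ≤ ((stp P Q)^[i] (x, ρ')).2 := by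
    intro i
    induction i with
    | zero => intro _; exact hcon.le
    | succ i ih =>
      intro hi
      have hg := h'.good i (by omega)
      have hc : ((stp P Q)^[i] (x, ρ')).1 = (ev P Q)^[i] x := stp_fst i x ρ'
      rw [stp_snd, stp_snd]
      apply rad_mono hRM _ (ih (by omega))
      have := hg.reg.eval_ne_zero hg.pos
      rwa [hc] at this
  have h1 := key k le_rfl
  rw [h.rad_eq] at h1
  have hc1 : ((stp P Q)^[k] (x, ρ)).1 = ((stp P Q)^[k] (x, ρ')).1 := by
    rw [stp_fst, stp_fst]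
  have hctr := h.ctr
  rw [hc1] at hctr
  have p1 : dpt xb 0 ∈ ball ((stp P Q)^[k] (x, ρ')).1 ((stp P Q)^[k] (x, ρ')).2 := by
    apply ball_mono h1
    rw [ball_recenter hctr]
    exact dpt_mem_ball.mpr ⟨by simpa using lt_of_lt_of_le hs'pos hss, lt_of_lt_of_le hs'pos hss⟩
  have p2 : dpt xb 0 ∈ ball ((stp P Q)^[k'] (x, ρ')).1 ((stp P Q)^[k'] (x, ρ')).2 := by
    rw [h'.rad_eq, ball_recenter h'.ctr]
    exact dpt_mem_ball.mpr ⟨by simpa using hs'pos, hs'pos⟩
  exact h'.disjoint hS hRM hTD hs' hr hmin hb hkk le_rfl p1 p2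

end MP9e71ee

end

section

/-!
# Points outside the open unit disc do not return before the tree does
-/

open Polynomial Filter Topology
open scoped NNReal ENNReal

namespace MP9e71ee

variable {C : Type*} [NontriviallyNormedField C] [IsUltrametricDist C] [IsAlgClosed C]
variable {φ : RatFunc C →ₐ[C] RatFunc C} {P Q : C[X]} {Z : Finset C} {r0 : ℝ≥0}

/-- Type I points of the target disc are hit by type I points of the first disc of a chain. -/
theorem chain_surj (hRM : RM φ P Q) {xb : C} {s : ℝ≥0} : ∀ (k : ℕ) (p : C × ℝ≥0),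
    ChainTo φ P Q Z r0 k p xb s → ∀ y : C, ‖y - xb‖₊ < s →
      ∃ y1 : C, ‖y1 - p.1‖₊ < p.2 ∧ (BerkP1.map φ)^[k] (dpt y1 0) = dpt y 0 ∧
        (ev P Q)^[k] y1 = y := by
  intro k
  induction k with
  | zero =>
    intro p h y hy
    refine ⟨y, ?_, rfl, rfl⟩
    have h1 := h.rad_eq
    have h2 := h.ctr
    simp only [Function.iterate_zero, id] at h1 h2
    rw [h1]
    have e : y - p.1 = (y - xb) + (xb - p.1) := by ring
    rw [e]
    refine lt_of_le_of_lt (IsUltrametricDist.nnnorm_add_le_max _ _) (max_lt hy ?_)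
    rwa [nnnorm_sub_comm']
  | succ k ih =>
    intro p h y hy
    obtain ⟨y', hy'1, hy'2, hy'3⟩ := ih _ h.tail y hy
    have hg := h.good 0 (by omega)
    simp only [Function.iterate_zero, id] at hg
    obtain ⟨y1, hy1, hy1e⟩ := exists_ev_eq hRM hg.reg (y' := y') hy'1
    have hQ1 : Q.eval y1 ≠ 0 := (hg.reg.recenter hy1).eval_ne_zero hg.pos
    refine ⟨y1, hy1, ?_, ?_⟩
    · rw [Function.iterate_succ_apply, map_dpt_zero hRM hQ1, hy1e, hy'2]
    · rw [Function.iterate_succ_apply, hy1e, hy'3]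

/-- If all roots are in the open unit disc, the value outside the unit disc. -/
theorem gn_of_roots_unit {H : C[X]} (hr : ∀ e, H.eval e = 0 → ‖e‖₊ < 1) {x : C} {r : ℝ≥0}
    (hm : 1 ≤ max ‖x‖₊ r) : gn x r H = ‖H.leadingCoeff‖₊ * (max ‖x‖₊ r) ^ H.natDegree := by
  by_cases hH : H = 0
  · subst hH; simp [gn_zero]
  rw [gn_prod]
  congr 1
  have hcard : Multiset.card H.roots = H.natDegree :=
    (Polynomial.splits_iff_card_roots.mp (IsAlgClosed.splits H))
  rw [← hcard, ← Multiset.prod_replicate, ← Multiset.map_const']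
  congr 1
  apply Multiset.map_congr rfl
  intro e he
  have he' : ‖e‖₊ < 1 := hr e (by simpa [hH] using he)
  rcases lt_or_ge ‖x‖₊ 1 with h | h
  · have hr1 : 1 ≤ r := by
      rcases le_max_iff.mp hm with h' | h'
      · exact absurd h (not_lt.mpr h')
      · exact h'
    have h1 : ‖x - e‖₊ < 1 := by
      rw [sub_eq_add_neg]
      refine lt_of_le_of_lt (IsUltrametricDist.nnnorm_add_le_max _ _) (max_lt h ?_)
      rwa [nnnorm_neg]
    rw [max_eq_right (h1.le.trans hr1), max_eq_right (h.le.trans hr1)]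
  · have h1 : ‖x - e‖₊ = ‖x‖₊ := by
      rw [nnnorm_sub_comm', nnnorm_sub_eq_right (lt_of_lt_of_le he' h)]
    rw [h1]

/-- Minimum principle outside the open unit disc. -/
theorem exists_root_outside (hRM : RM φ P Q) {x : C} {r : ℝ≥0} (hr : 0 < r)
    (hm : 1 ≤ max ‖x‖₊ r) {y1 : C} {ρ1 : ℝ≥0} (h1 : BerkP1.map φ (dpt x r) ∈ ball y1 ρ1)
    (h2 : BerkP1.map φ (dpt 0 1) ∉ ball y1 ρ1)
    (hdeg : Q.natDegree ≤ (P - Polynomial.C y1 * Q).natDegree) :
    ∃ e : C, 1 ≤ ‖e‖₊ ∧ (P - Polynomial.C y1 * Q).eval e = 0 := by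
  by_contra hcon
  push Not at hcon
  set P1 := P - Polynomial.C y1 * Q with hP1
  have hroots : ∀ e, P1.eval e = 0 → ‖e‖₊ < 1 := by
    intro e he
    by_contra hlt
    exact hcon e (not_lt.mp hlt) he
  have hq1 : gn x r Q ≠ 0 := gn_ne_zero hr hRM.hQ
  have hq2 : gn (0 : C) 1 Q ≠ 0 := gn_ne_zero one_pos hRM.hQ
  rw [mem_ball, map_dpt_lin hRM.hφ hRM.hQ hq1, ENNReal.coe_lt_coe] at h1
  rw [mem_ball, map_dpt_lin hRM.hφ hRM.hQ hq2, ENNReal.coe_lt_coe, not_lt] at h2
  rw [← hP1] at h1 h2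
  set m := max ‖x‖₊ r with hmdef
  have e1 : gn x r P1 = ‖P1.leadingCoeff‖₊ * m ^ P1.natDegree := gn_of_roots_unit hroots hm
  have e2 : gn (0 : C) 1 P1 = ‖P1.leadingCoeff‖₊ := by
    rw [gn_of_roots_unit hroots (by simp)]; simp
  have e3 : gn x r Q ≤ gn 0 1 Q * m ^ Q.natDegree := by
    calc gn x r Q ≤ gn x m Q := gn_mono x (le_max_right _ _) Q
      _ = gn 0 m Q := gn_recenter (by rw [sub_zero]; exact le_max_left _ _) Q
      _ = gn 0 m Q * 1 ^ Q.natDegree := by simp
      _ ≤ _ := gn_scale 0 hm Q le_rfl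
  have e4 : gn (0 : C) 1 P1 / gn 0 1 Q ≤ gn x r P1 / gn x r Q := by
    rw [div_le_div_iff₀ (pos_iff_ne_zero.mpr hq2) (pos_iff_ne_zero.mpr hq1), e1, e2]
    calc ‖P1.leadingCoeff‖₊ * gn x r Q
        ≤ ‖P1.leadingCoeff‖₊ * (gn 0 1 Q * m ^ Q.natDegree) := by gcongr
      _ ≤ ‖P1.leadingCoeff‖₊ * (gn 0 1 Q * m ^ P1.natDegree) := by
          gcongr
      _ = _ := by ring
  exact absurd (lt_of_le_of_lt (h2.trans e4) h1) (lt_irrefl _)

/-- Points outside the open unit disc do not enter the disc before the tree does. -/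
theorem claimE {V : ℕ → Set (BerkP1 C)} (hS : Setup φ V) (hRM : RM φ P Q)
    (hTD : TData φ Q Z r0) {xb γ : C} (hγ : γ ≠ 0) {b : ℕ} (hb : zpt φ b = dpt xb ‖γ‖₊)
    {s : ℝ≥0} (hs : (ball xb s : Set (BerkP1 C)) ⊆ ball 0 1) (hγs : ‖γ‖₊ < s) :
    ∀ (i : ℕ), 1 ≤ i → i < b →
      (∀ j, 1 ≤ j → j ≤ i → ∀ ζ ∈ TSet Z r0, (BerkP1.map φ)^[j] ζ ∉ ball xb s) →
      ∀ (x : C) (r : ℝ≥0), 0 < r → 1 ≤ max ‖x‖₊ r → (BerkP1.map φ)^[i] (dpt x r) ∉ ball xb s := by
  intro i
  induction i using Nat.strong_induction_on with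
  | _ i ih =>
  intro hi1 hib hT x r hr hm hmem
  classical
  -- images of disc points of positive radius
  have himg : ∀ j : ℕ, ∃ (x' : C) (r' : ℝ≥0), 0 < r' ∧ (BerkP1.map φ)^[j] (dpt x r) = dpt x' r' := by
    intro j
    induction j with
    | zero => exact ⟨x, r, hr, rfl⟩
    | succ j ihj =>
      obtain ⟨x', r', hr', he⟩ := ihj
      obtain ⟨n, _, _, _, hpos, hmap⟩ := exists_map_dpt hRM x' hr'
      exact ⟨_, _, hpos, by rw [Function.iterate_succ_apply', he, hmap]⟩
  obtain ⟨k, rfl⟩ : ∃ k, i = k + 1 := ⟨i - 1, by omega⟩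
  obtain ⟨x1, r1, hr1, he1⟩ := himg 1
  rw [Function.iterate_one] at he1
  rw [Function.iterate_succ_apply, he1] at hmem
  have hdisc : (dpt 0 1 : BerkP1 C) ∈ TSet Z r0 :=
    ⟨0, hTD.zero_mem, 1, hTD.r0_lt.le, le_rfl, rfl⟩
  obtain ⟨ρ1, hρ1, hch⟩ := exists_chain hRM hTD (xb := xb) (s := s) k x1 r1
    (by
      intro j hj
      rcases lt_or_eq_of_le hj with hj | rfl
      · by_contra hcon
        obtain ⟨x', r', hr', he⟩ := himg (j + 1)
        rw [Function.iterate_succ_apply, he1] at he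
        rw [he] at hcon
        have hm' : 1 ≤ max ‖x'‖₊ r' := by
          by_contra hlt
          push Not at hlt
          apply hcon
          rw [dpt_mem_ball, sub_zero]
          exact max_lt_iff.mp hlt
        apply ih (k - j) (by omega) (by omega) (by omega)
          (fun l hl1 hl2 => hT l hl1 (by omega)) x' r' hr' hm'
        have e : k = (k - j) + j := by omega
        rw [e, Function.iterate_add_apply, he] at hmem
        exact hmem
      · exact hs hmem)
    hmem (fun j hj1 hj2 => hT j hj1 (by omega))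
  -- the image of the Gauss point is not in the first disc
  have hbot : BerkP1.map φ (dpt 0 1) ∉ ball x1 ρ1 := by
    intro hcon
    apply hT (k + 1) (by omega) le_rfl _ hdisc
    rw [Function.iterate_succ_apply]
    exact hch.maps_end hRM hcon
  -- the exceptional value
  set yinf : C := P.coeff Q.natDegree / Q.leadingCoeff with hyinf
  have hVi : ∀ y : C, ‖y - xb‖₊ < s → y ≠ (ev P Q)^[k] yinf → dpt y 0 ∈ V (k + 1) := by
    intro y hy hyne
    obtain ⟨y1, hy1, hy1m, hy1e⟩ := chain_surj hRM k _ hch y hy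
    have hy1ne : y1 ≠ yinf := by
      rintro rfl
      exact hyne hy1e.symm
    have hdeg : Q.natDegree ≤ (P - Polynomial.C y1 * Q).natDegree := by
      apply Polynomial.le_natDegree_of_ne_zero
      rw [Polynomial.coeff_sub, Polynomial.coeff_C_mul, Polynomial.coeff_natDegree]
      intro h0
      apply hy1ne
      rw [hyinf, eq_div_iff (Polynomial.leadingCoeff_ne_zero.mpr hRM.hQ)]
      exact (sub_eq_zero.mp h0).symm
    have hrec : (ball x1 ρ1 : Set (BerkP1 C)) = ball y1 ρ1 :=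
      ball_recenter (by rw [nnnorm_sub_comm']; exact hy1)
    have hin : BerkP1.map φ (dpt x r) ∈ ball y1 ρ1 := by
      rw [he1, ← hrec]
      exact dpt_mem_ball.mpr ⟨by simpa using lt_of_le_of_lt zero_le hρ1, hρ1⟩
    obtain ⟨e, he1', he2⟩ := exists_root_outside hRM hr hm hin (by rwa [← hrec]) hdeg
    have hQe : Q.eval e ≠ 0 := by
      intro hQe
      have hPe : P.eval e = 0 := by
        rw [Polynomial.eval_sub, Polynomial.eval_mul, hQe] at he2
        simpa using he2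
      obtain ⟨a', b', hab⟩ := hRM.cop
      have := congrArg (fun p : C[X] => p.eval e) hab
      simp [hPe, hQe] at this
    have heve : ev P Q e = y1 := by
      rw [Polynomial.eval_sub, Polynomial.eval_mul, Polynomial.eval_C, sub_eq_zero] at he2
      rw [ev, he2, mul_div_assoc, div_self hQe, mul_one]
    have hV0 : dpt e 0 ∈ V 0 := by
      apply hS.unit
      rw [dpt_X]
      exact_mod_cast le_max_of_le_left he1'
    have := hS.iterate (k + 1) 0 hV0
    rwa [Function.iterate_succ_apply, map_dpt_zero hRM hQe, heve, hy1m, zero_add] at this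
  -- the point `z_b` is in the closure of `V (k+1)`
  have hclos : zpt φ b ∈ closure (V (k + 1)) := by
    rw [mem_closure_iff_nhds]
    intro W hW
    rw [hb] at hW
    obtain ⟨S, hSW⟩ := exists_finset_of_mem_nhds (dpt_X_ne_top _ _) hW
    obtain ⟨y, hy1, hy2⟩ := exists_generic (insert ((ev P Q)^[k] yinf) S) xb γ hγ
    refine ⟨dpt y 0, ?_, ?_⟩
    · apply hSW
      intro t ht
      rw [dpt_lin, dpt_lin, hy2 t (Finset.mem_insert_of_mem ht), max_eq_left zero_le]
    · apply hVi y (lt_of_le_of_lt hy1 hγs)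
      intro hcon
      have := hy2 _ (Finset.mem_insert_self _ _)
      rw [hcon, sub_self, nnnorm_zero] at this
      have h3 : ‖γ‖₊ ≤ 0 := by rw [this]; exact le_max_right _ _
      have h4 : ‖γ‖₊ = 0 := le_antisymm h3 zero_le
      exact hγ (nnnorm_eq_zero.mp h4)
  have hmemV := comp_closed (hS.comp (k + 1)) hclos
    (comp_subset_fatou (hS.comp b) (hS.zpt_mem b))
  exact hS.disjoint (by omega) hmemV (hS.zpt_mem b)

end MP9e71ee

end

section

/-!
# Theorem B: the orbit of the Gauss point has radii bounded below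
-/

open Polynomial Filter Topology
open scoped NNReal ENNReal

namespace MP9e71ee

variable {C : Type*} [NontriviallyNormedField C] [IsUltrametricDist C] [IsAlgClosed C]
variable {φ : RatFunc C →ₐ[C] RatFunc C} {P Q : C[X]} {Z : Finset C} {r0 : ℝ≥0}

theorem isCompact_TSet (Z : Finset C) (r0 : ℝ≥0) : IsCompact (TSet Z r0 : Set (BerkP1 C)) := by
  have e : (TSet Z r0 : Set (BerkP1 C)) = ⋃ a ∈ Z, (fun r => dpt a r) '' Set.Icc r0 1 := by
    ext ζ
    simp only [TSet, Set.mem_iUnion, Set.mem_image, Set.mem_Icc]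
    constructor
    · rintro ⟨a, ha, r, h1, h2, rfl⟩
      exact ⟨a, ha, r, ⟨h1, h2⟩, rfl⟩
    · rintro ⟨a, ha, r, ⟨h1, h2⟩, rfl⟩
      exact ⟨a, ha, r, h1, h2, rfl⟩
  rw [e]
  exact Z.isCompact_biUnion (fun a _ => isCompact_Icc.image (continuous_dpt a))

theorem exists_min_TSet (hTD : TData φ Q Z r0) (xb : C) (n : ℕ) :
    ∃ ζ ∈ TSet Z r0, ∀ ξ ∈ TSet Z r0,
      (BerkP1.map φ)^[n] ζ (lin xb) ≤ (BerkP1.map φ)^[n] ξ (lin xb) := by
  have hne : (TSet Z r0 : Set (BerkP1 C)).Nonempty :=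
    ⟨dpt 0 1, 0, hTD.zero_mem, 1, hTD.r0_lt.le, le_rfl, rfl⟩
  have hcont : Continuous (fun ζ : BerkP1 C => (BerkP1.map φ)^[n] ζ (lin xb)) :=
    (continuous_eval (lin xb)).comp ((continuous_map φ).iterate n)
  obtain ⟨ζ, hζ, hmin⟩ := (isCompact_TSet Z r0).exists_isMinOn hne hcont.continuousOn
  exact ⟨ζ, hζ, fun ξ hξ => hmin hξ⟩

/-- Theorem B for one index. -/
theorem radius_bound {V : ℕ → Set (BerkP1 C)} (hS : Setup φ V) (hRM : RM φ P Q)
    (hTD : TData φ Q Z r0) (hPOT : ClaimPOT) (hISO : ClaimISO C) (hTM : TameMult P Q)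
    (Cr : Finset C) (hCr : ∀ b, (wr P Q).eval b = 0 → b ∈ Cr)
    {M : ℕ} {c : Fin M → C} {ρ0 : ℝ≥0} (hρ0 : 0 < ρ0) (hρ01 : ρ0 ≤ 1)
    (hctr : ∀ ζ ∈ TSet Z r0, ∃ j R, ρ0 ≤ R ∧ BerkP1.map φ ζ = dpt (c j) R)
    {b : ℕ} (hb0 : b ≠ 0) {xb γ : C} (hγ : γ ≠ 0) (hb : zpt φ b = dpt xb ‖γ‖₊) :
    r0 * ρ0 ^ (M * (mdeg P Q + 1) ^ Cr.card) ≤ ‖γ‖₊ := by
  classical
  have hγpos : 0 < ‖γ‖₊ := by simpa using hγ
  have hbu := hS.zpt_unit hb0
  rw [hb, dpt_mem_ball, sub_zero] at hbu
  obtain ⟨σ, hoff, hr0σ, a, haZ, hσ⟩ := exists_sig (r0 := r0) hTD.zero_mem xb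
  have hσ1 : σ < 1 := hTD.off_lt hbu.1 hoff
  have hpow : ρ0 ^ (M * (mdeg P Q + 1) ^ Cr.card) ≤ 1 := pow_le_one₀ zero_le hρ01
  rcases le_or_gt σ ‖γ‖₊ with hle | hγσ
  · calc r0 * ρ0 ^ (M * (mdeg P Q + 1) ^ Cr.card) ≤ r0 * 1 := by gcongr
      _ ≤ ‖γ‖₊ := by rw [mul_one]; exact hr0σ.trans hle
  -- minimising points on the tree
  have hmin := fun n => exists_min_TSet hTD xb n
  choose ζm hζT hζmin using hmin
  set Δ := (mdeg P Q + 1) ^ Cr.card with hΔ
  -- thresholds
  let τ : ℕ → ℝ≥0 := fun n => (min ((BerkP1.map φ)^[n + 1] (ζm (n + 1)) (lin xb)) (σ : ℝ≥0∞)).toNNReal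
  have hτ : ∀ n, (τ n : ℝ≥0∞) = min ((BerkP1.map φ)^[n + 1] (ζm (n + 1)) (lin xb)) (σ : ℝ≥0∞) := by
    intro n
    exact ENNReal.coe_toNNReal (ne_of_lt (lt_of_le_of_lt (min_le_right _ _) ENNReal.coe_lt_top))
  let v : ℕ → ℝ≥0 := fun n => Nat.rec (motive := fun _ => ℝ≥0) σ (fun n vn => max ‖γ‖₊ (min vn (τ n))) n
  have hv0 : v 0 = σ := rfl
  have hvs : ∀ n, v (n + 1) = max ‖γ‖₊ (min (v n) (τ n)) := fun n => rfl
  have hvge : ∀ n, ‖γ‖₊ ≤ v n := by
    intro n
    cases n with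
    | zero => exact hγσ.le
    | succ n => rw [hvs]; exact le_max_left _ _
  have hvanti : ∀ n, v (n + 1) ≤ v n := by
    intro n
    rw [hvs]
    exact max_le (hvge n) (min_le_left _ _)
  have hvσ : ∀ n, v n ≤ σ := by
    intro n
    induction n with
    | zero => exact le_rfl
    | succ n ih => exact (hvanti n).trans ih
  -- consequences for a radius in the n-th interval
  have hA : ∀ n s, v (n + 1) < s → s ≤ v n → ‖γ‖₊ < s ∧ s ≤ σ ∧
      (BerkP1.map φ)^[n + 1] (ζm (n + 1)) (lin xb) < s := by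
    intro n s h1 h2
    rw [hvs] at h1
    have h3 := max_lt_iff.mp h1
    refine ⟨h3.1, h2.trans (hvσ n), ?_⟩
    have h4 : τ n < s := by
      rcases min_lt_iff.mp h3.2 with h | h
      · exact absurd h (not_lt.mpr h2)
      · exact h
    have h5 : (τ n : ℝ≥0∞) < s := by exact_mod_cast h4
    rw [hτ] at h5
    rcases min_lt_iff.mp h5 with h | h
    · exact h
    · exact absurd h (not_lt.mpr (by exact_mod_cast h2.trans (hvσ n)))
  have hB : ∀ n s, ‖γ‖₊ < s → s ≤ v n → ∀ i, 1 ≤ i → i ≤ n → ∀ ζ ∈ TSet Z r0,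
      (BerkP1.map φ)^[i] ζ ∉ ball xb s := by
    intro n
    induction n with
    | zero => intro s _ _ i hi1 hi2; omega
    | succ n ih =>
      intro s h1 h2 i hi1 hi2 ζ hζ
      rw [hvs] at h2
      have h3 : s ≤ min (v n) (τ n) := by
        rcases le_max_iff.mp h2 with h | h
        · exact absurd h (not_le.mpr h1)
        · exact h
      rcases Nat.lt_or_ge i (n + 1) with hin | hin
      · exact ih s h1 (h3.trans (min_le_left _ _)) i hi1 (by omega) ζ hζ
      · obtain rfl : i = n + 1 := by omega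
        intro hmem
        rw [mem_ball] at hmem
        have h4 : (s : ℝ≥0∞) ≤ τ n := by exact_mod_cast h3.trans (min_le_right _ _)
        rw [hτ] at h4
        have h5 := (h4.trans (min_le_left _ _)).trans (hζmin (n + 1) ζ hζ)
        exact absurd hmem (not_lt.mpr h5)
  -- centres of the images
  have hC : ∀ n, ∃ j R, ρ0 ≤ R ∧ BerkP1.map φ (ζm (n + 1)) = dpt (c j) R :=
    fun n => hctr _ (hζT (n + 1))
  choose j R hR hjR using hC
  have hsubu : ∀ s, s ≤ σ → (ball xb s : Set (BerkP1 C)) ⊆ ball 0 1 :=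
    fun s hs => ball_subset_unit hbu.1 (hs.trans hσ1.le)
  have hbmem : ∀ s, ‖γ‖₊ < s → zpt φ b ∈ ball xb s := by
    intro s hs
    rw [hb]
    exact dpt_mem_ball.mpr ⟨by simpa using lt_trans hγpos hs, hs⟩
  -- existence of the chains
  have hD : ∀ n s, n < b → v (n + 1) < s → s ≤ v n →
      ∃ ρ, R n < ρ ∧ ChainTo φ P Q Z r0 n (c (j n), ρ) xb s := by
    intro n s hnb h1 h2
    obtain ⟨hs1, hs2, hs3⟩ := hA n s h1 h2
    have hT := hB n s hs1 h2
    apply exists_chain hRM hTD n (c (j n)) (R n)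
    · intro i hi
      rw [← hjR, ← Function.iterate_succ_apply]
      rcases lt_or_eq_of_le hi with hi | rfl
      · by_contra hcon
        -- a disc point outside the unit disc
        have himg : ∀ l : ℕ, ∃ (x' : C) (r' : ℝ≥0), 0 < r' ∧
            (BerkP1.map φ)^[l + 1] (ζm (n + 1)) = dpt x' r' := by
          intro l
          induction l with
          | zero =>
            exact ⟨c (j n), R n, lt_of_lt_of_le hρ0 (hR n), by
              rw [zero_add, Function.iterate_one]; exact hjR n⟩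
          | succ l ihl =>
            obtain ⟨x', r', hr', he⟩ := ihl
            obtain ⟨m, _, _, _, hpos, hmap⟩ := exists_map_dpt hRM x' hr'
            exact ⟨_, _, hpos, by rw [Function.iterate_succ_apply', he, hmap]⟩
        obtain ⟨x', r', hr', he⟩ := himg i
        rw [he] at hcon
        have hm' : 1 ≤ max ‖x'‖₊ r' := by
          by_contra hlt
          push Not at hlt
          apply hcon
          rw [dpt_mem_ball, sub_zero]
          exact max_lt_iff.mp hlt
        have hE := claimE hS hRM hTD hγ hb (hsubu s hs2) hs1 (n - i) (by omega) (by omega)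
          (fun l hl1 hl2 => hT l hl1 (by omega)) x' r' hr' hm'
        apply hE
        rw [← he, ← Function.iterate_add_apply]
        have e : n - i + (i + 1) = n + 1 := by omega
        rw [e]
        exact hs3
      · exact hsubu s hs2 hs3
    · rw [← hjR, ← Function.iterate_succ_apply]; exact hs3
    · exact hT
  -- radii of the first discs
  have hD' : ∀ (n : ℕ) (s : ℝ≥0), ∃ ρ : ℝ≥0, n < b → v (n + 1) < s → s ≤ v n →
      R n < ρ ∧ ChainTo φ P Q Z r0 n (c (j n), ρ) xb s := by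
    intro n s
    by_cases h : n < b ∧ v (n + 1) < s ∧ s ≤ v n
    · obtain ⟨ρ, hρ⟩ := hD n s h.1 h.2.1 h.2.2
      exact ⟨ρ, fun _ _ _ => hρ⟩
    · exact ⟨0, fun h0 h1 h2 => absurd ⟨h0, h1, h2⟩ h⟩
  choose ρf hρf using hD'
  -- points of the chain base orbit avoid the disc
  have hminf : ∀ n s, v (n + 1) < s → s ≤ v n → ∀ i, i < n →
      (BerkP1.map φ)^[i] (dpt (c (j n)) (R n)) ∉ ball xb s := by
    intro n s h1 h2 i hi
    obtain ⟨hs1, hs2, hs3⟩ := hA n s h1 h2
    rw [← hjR, ← Function.iterate_succ_apply]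
    exact hB n s hs1 h2 (i + 1) (by omega) (by omega) _ (hζT (n + 1))
  have hPot := hPOT (Fin M) b Δ ρ0 v j ρf hρ0 hρ01 (fun n _ => hvanti n)
    (fun n _ => lt_of_lt_of_le hγpos (hvge n))
    (by
      intro n hnb s h1 h2
      obtain ⟨hR1, hch⟩ := hρf n s hnb h1 h2
      refine ⟨(hR n).trans hR1.le, ?_⟩
      rcases Nat.eq_zero_or_pos n with rfl | hn
      · have := hch.rad_eq
        simp only [Function.iterate_zero, id] at this
        rw [this]
        exact (hA 0 s h1 h2).2.1.trans hσ1.le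
      · have hg := hch.good 0 hn
        simp only [Function.iterate_zero, id] at hg
        exact (hTD.off_lt hg.unit hg.off).le)
    (by
      intro n hnb s s' h1 h2 h3
      have h1' : v (n + 1) < s := lt_trans h1 h2
      have h3' : s' ≤ v n := h2.le.trans h3
      obtain ⟨hRs, hch⟩ := hρf n s hnb h1' h3
      obtain ⟨hRs', hch'⟩ := hρf n s' hnb h1 h3'
      have hAs := hA n s h1' h3
      -- the smaller target has the smaller first disc
      have hle : ρf n s' ≤ ρf n s := by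
        by_contra hcon
        push Not at hcon
        have key : ∀ i, i ≤ n → ((stp P Q)^[i] (c (j n), ρf n s)).2 ≤
            ((stp P Q)^[i] (c (j n), ρf n s')).2 := by
          intro i
          induction i with
          | zero => intro _; exact hcon.le
          | succ i ih =>
            intro hi
            have hg := hch'.good i (by omega)
            have hc := stp_fst (P := P) (Q := Q) i (c (j n)) (ρf n s')
            rw [stp_snd, stp_snd]
            apply rad_mono hRM _ (ih (by omega))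
            have := hg.reg.eval_ne_zero hg.pos
            rwa [hc] at this
        have := key n le_rfl
        rw [hch.rad_eq, hch'.rad_eq] at this
        exact absurd h2 (not_lt.mpr this)
      have hcmp := chain_compare hRM hISO hTM (k := n)
        (lt_of_le_of_lt zero_le hRs') hle (fun i hi => hch.good i hi) Cr hCr
        (fun i l hil hln ξ hξ1 hξ2 => hch.disjoint hS hRM hTD (hsubu s hAs.2.1) hRs
          (hminf n s h1' h3) (hbmem s hAs.1) hil hln.le hξ1 hξ2)
      rw [hch.rad_eq, hch'.rad_eq] at hcmp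
      exact hcmp)
    (by
      intro n m hnm hmb hj s s' h1 h2 h3 h4
      obtain ⟨hRs, hch⟩ := hρf n s (by omega) h1 h2
      obtain ⟨hRs', hch'⟩ := hρf m s' hmb h3 h4
      have hAs := hA n s h1 h2
      have hAs' := hA m s' h3 h4
      rw [hj] at hch
      have hvm : v m ≤ v (n + 1) := by
        have : ∀ k, v (n + 1 + k) ≤ v (n + 1) := by
          intro k
          induction k with
          | zero => exact le_rfl
          | succ k ih => exact (hvanti (n + 1 + k)).trans ih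
        obtain ⟨k, rfl⟩ := Nat.exists_eq_add_of_le (show n + 1 ≤ m by omega)
        exact this k
      exact chain_noncross hS hRM hTD hnm hch hch' (hsubu s' hAs'.2.1)
        (lt_trans hγpos hAs'.1) ((h4.trans hvm).trans h1.le) hRs' (hminf m s' h3 h4)
        (hbmem s' hAs'.1))
  rw [Fintype.card_fin, hv0] at hPot
  have hvb : v b ≤ ‖γ‖₊ := by
    obtain ⟨b', rfl⟩ : ∃ b', b = b' + 1 := ⟨b - 1, by omega⟩
    rw [hvs]
    apply max_le le_rfl
    refine (min_le_right _ _).trans ?_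
    have h1 : (τ b' : ℝ≥0∞) ≤ (‖γ‖₊ : ℝ≥0) := by
      rw [hτ]
      refine (min_le_left _ _).trans ?_
      have h2 : (dpt 0 1 : BerkP1 C) ∈ TSet Z r0 :=
        ⟨0, hTD.zero_mem, 1, hTD.r0_lt.le, le_rfl, rfl⟩
      refine (hζmin (b' + 1) _ h2).trans ?_
      have h3 : (BerkP1.map φ)^[b' + 1] (dpt 0 1) = dpt xb ‖γ‖₊ := hb
      rw [h3, dpt_lin]
      simp
    exact_mod_cast h1
  calc r0 * ρ0 ^ (M * Δ) ≤ σ * ρ0 ^ (M * Δ) := by gcongr
    _ ≤ v b := hPot
    _ ≤ ‖γ‖₊ := hvb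

end MP9e71ee

end

section

/-!
# Theorem C: conclusion in the normalised situation
-/

open Polynomial Filter Topology
open scoped NNReal ENNReal

namespace MP9e71ee

variable {C : Type*} [NontriviallyNormedField C] [IsUltrametricDist C] [IsAlgClosed C]
variable {φ : RatFunc C →ₐ[C] RatFunc C} {P Q : C[X]}

/-- Finitely many radii in the value group between `rs` and `1`. -/
theorem finite_radii {κ : ℝ} (h0 : 0 < κ) (h1 : κ < 1) {rs : ℝ≥0} (hrs : 0 < rs) :
    {r : ℝ≥0 | rs ≤ r ∧ r ≤ 1 ∧ ∃ m : ℤ, (r : ℝ) = κ ^ m}.Finite := by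
  obtain ⟨n, hn⟩ := exists_pow_lt_of_lt_one (show (0 : ℝ) < rs by exact_mod_cast hrs) h1
  have hsub : {r : ℝ≥0 | rs ≤ r ∧ r ≤ 1 ∧ ∃ m : ℤ, (r : ℝ) = κ ^ m} ⊆
      (fun m : ℕ => (⟨κ ^ m, (pow_pos h0 m).le⟩ : ℝ≥0)) '' (Set.Iic n) := by
    rintro r ⟨hr1, hr2, m, hm⟩
    have hm0 : 0 ≤ m := by
      by_contra hcon
      push Not at hcon
      have : (1 : ℝ) < κ ^ m := by
        have := one_lt_zpow_of_neg₀ h0 h1 hcon
        exact this
      rw [← hm] at this
      have h2 : (r : ℝ) ≤ 1 := by exact_mod_cast hr2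
      linarith
    obtain ⟨k, rfl⟩ := Int.eq_ofNat_of_zero_le hm0
    rw [zpow_natCast] at hm
    refine ⟨k, ?_, ?_⟩
    · rw [Set.mem_Iic]
      by_contra hcon
      push Not at hcon
      have h2 : κ ^ k ≤ κ ^ n := pow_le_pow_of_le_one h0.le h1.le hcon.le
      have h3 : (rs : ℝ) ≤ r := by exact_mod_cast hr1
      rw [hm] at h3
      linarith
    · apply NNReal.coe_injective
      rw [hm]; rfl
  exact (Set.finite_Iic n |>.image _).subset hsub

/-- The orbit of the Gauss point after the components have left the ramification tree. -/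
structure TailData (φ : RatFunc C →ₐ[C] RatFunc C) (P Q : C[X]) (V : ℕ → Set (BerkP1 C)) (n1 : ℕ)
    (y : ℕ → C) (ρ b c : ℕ → ℝ≥0) : Prop where
  ylt : ∀ m, ‖y m‖₊ < 1
  ρpos : ∀ m, 0 < ρ m
  blt : ∀ m, b m < 1
  ρlt : ∀ m, ρ m < b m
  z : ∀ m, zpt φ (n1 + m) = dpt (y m) (ρ m)
  notin : ∀ m, dpt (y m) (b m) ∉ V (n1 + m)
  next : ∀ m, y (m + 1) = ev P Q (y m)
  ρnext : ∀ m, ρ (m + 1) = c m * ρ m
  reg : ∀ m, Reg Q (y m) (b m)
  cpos : ∀ m, 0 < c m
  iso : ∀ m r, r ≤ b m → rad P Q (y m) r = c m * r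
  typeII : ∀ m, IsTypeII (dpt (y m) (b m))
  fin_b : (Set.range (fun m => dpt (y m) (b m))).Finite
  fin_ratio : (Set.range (fun m => b m / ρ m)).Finite

section tail

variable {V : ℕ → Set (BerkP1 C)} {n1 : ℕ} {y : ℕ → C} {ρ b c : ℕ → ℝ≥0}

theorem TailData.orbit_ball (hRM : RM φ P Q) (h : TailData φ P Q V n1 y ρ b c) {m : ℕ} {t : ℝ≥0}
    (ht : ∀ k, t * ρ (m + k) ≤ b (m + k)) {ξ : BerkP1 C} (hξ : ξ ∈ ball (y m) (t * ρ m)) (k : ℕ) :
    (BerkP1.map φ)^[k] ξ ∈ ball (y (m + k)) (t * ρ (m + k)) := by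
  induction k with
  | zero => exact hξ
  | succ k ih =>
    rw [Function.iterate_succ_apply']
    have hb : 0 < b (m + k) := lt_trans (h.ρpos _) (h.ρlt _)
    have h1 := map_mem_ball' hRM (h.reg (m + k)) (y := y (m + k)) (by simpa using hb) (ht k) ih
    rw [h.iso (m + k) _ (ht k), ← h.next] at h1
    have e : c (m + k) * (t * ρ (m + k)) = t * ρ (m + (k + 1)) := by
      rw [← add_assoc, h.ρnext]; ring
    rw [e] at h1
    exact h1

theorem TailData.orbit_unit (hRM : RM φ P Q) (h : TailData φ P Q V n1 y ρ b c) {m : ℕ} {t : ℝ≥0}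
    (ht : ∀ k, t * ρ (m + k) ≤ b (m + k)) (k : ℕ) (ξ : BerkP1 C) (hξ : ξ ∈ ball (y m) (t * ρ m)) :
    (BerkP1.map φ)^[k] ξ ∈ ball (0 : C) 1 :=
  ball_subset_unit (h.ylt (m + k)) ((ht k).trans (h.blt _).le) (h.orbit_ball hRM ht hξ k)

/-- The conclusion from the tail data. -/
theorem TailData.conclusion (hS : Setup φ V) (hRM : RM φ P Q)
    (h : TailData φ P Q V n1 y ρ b c) : InTypeIIBasin φ (V 0) := by
  have hy0 : dpt (y 0) (ρ 0) ∈ V n1 := by
    have := hS.zpt_mem (n1 + 0)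
    rw [h.z] at this
    exact this
  obtain ⟨τ0, hτ1, hτ2, hτ3, hτ4⟩ := exists_exit (hS.comp n1) (h.ρlt 0).le hy0 (h.notin 0)
  set θ : ℝ≥0 := τ0 / ρ 0 with hθ
  have hθ1 : 1 < θ := by rw [hθ, one_lt_div (h.ρpos 0)]; exact hτ1
  have hθ0 : θ * ρ 0 = τ0 := by rw [hθ, div_mul_cancel₀ _ (h.ρpos 0).ne']
  -- the exit segments are mapped to each other
  have hH : ∀ m, (∀ r, ρ m ≤ r → r < θ * ρ m → dpt (y m) r ∈ V (n1 + m)) ∧ θ * ρ m ≤ b m := by
    intro m
    induction m with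
    | zero => rw [hθ0]; exact ⟨hτ3, hτ2⟩
    | succ m ih =>
      obtain ⟨ih1, ih2⟩ := ih
      have hb : 0 < b m := lt_trans (h.ρpos _) (h.ρlt _)
      have h1 : ∀ r, ρ (m + 1) ≤ r → r < θ * ρ (m + 1) → dpt (y (m + 1)) r ∈ V (n1 + (m + 1)) := by
        intro r hr1 hr2
        have hc := h.cpos m
        have e1 : c m * (r / c m) = r := mul_div_cancel₀ _ hc.ne'
        have h2 : ρ m ≤ r / c m := by
          rw [le_div_iff₀ hc, mul_comm, ← h.ρnext]; exact hr1
        have h3 : r / c m < θ * ρ m := by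
          rw [div_lt_iff₀ hc]
          calc r < θ * ρ (m + 1) := hr2
            _ = θ * ρ m * c m := by rw [h.ρnext]; ring
        have h4 := hS.maps _ (ih1 _ h2 h3)
        rw [map_dpt_reg hRM.hφ hRM.hQ (h.reg m) (by simpa using hb) (h3.le.trans ih2),
          h.iso m _ (h3.le.trans ih2), e1, ← h.next] at h4
        exact h4
      refine ⟨h1, ?_⟩
      by_contra hcon
      push Not at hcon
      exact h.notin (m + 1) (h1 _ (h.ρlt (m + 1)).le hcon)
  set xh : ℕ → BerkP1 C := fun m => dpt (y m) (θ * ρ m) with hxh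
  have hxs : ∀ m, BerkP1.map φ (xh m) = xh (m + 1) := by
    intro m
    have hb : 0 < b m := lt_trans (h.ρpos _) (h.ρlt _)
    simp only [hxh]
    rw [map_dpt_reg hRM.hφ hRM.hQ (h.reg m) (by simpa using hb) (hH m).2, h.iso m _ (hH m).2,
      ← h.next, h.ρnext]
    congr 1; ring
  have hxi : ∀ m k, (BerkP1.map φ)^[k] (xh m) = xh (m + k) := by
    intro m k
    induction k with
    | zero => rfl
    | succ k ih => rw [Function.iterate_succ_apply', ih, hxs]; rfl
  have hθt : ∀ m k, θ * ρ (m + k) ≤ b (m + k) := fun m k => (hH (m + k)).2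
  have hxu : ∀ m, xh m ∈ ball (0 : C) 1 := by
    intro m
    simp only [hxh]
    rw [dpt_mem_ball, sub_zero]
    exact ⟨h.ylt m, lt_of_le_of_lt (hH m).2 (h.blt m)⟩
  -- infinitely often the exit point is the branch point
  have hinf : {m | θ * ρ m = b m}.Infinite := by
    by_contra hfin
    rw [Set.not_infinite] at hfin
    obtain ⟨N, hN⟩ := hfin.bddAbove
    have hlt : ∀ m, N + 1 ≤ m → θ < b m / ρ m := by
      intro m hm
      rw [lt_div_iff₀ (h.ρpos m)]
      refine lt_of_le_of_ne (hH m).2 ?_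
      intro he
      have := hN he
      omega
    obtain ⟨μ, hμ1, hμ2⟩ : ∃ μ, θ < μ ∧ ∀ m, N + 1 ≤ m → μ ≤ b m / ρ m := by
      have hF : ((fun m => b m / ρ m) '' (Set.Ici (N + 1))).Finite :=
        h.fin_ratio.subset (Set.image_subset_range _ _)
      have hne : ((fun m => b m / ρ m) '' (Set.Ici (N + 1))).Nonempty :=
        ⟨_, N + 1, Set.self_mem_Ici, rfl⟩
      obtain ⟨μ, ⟨m0, hm0, rfl⟩, hμ⟩ := hF.exists_minimal hne
      refine ⟨_, hlt m0 hm0, ?_⟩
      intro m hm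
      rcases le_total (b m0 / ρ m0) (b m / ρ m) with h' | h'
      · exact h'
      · exact hμ ⟨m, hm, rfl⟩ h'
    have hμt : ∀ k, μ * ρ (N + 1 + k) ≤ b (N + 1 + k) := by
      intro k
      exact (le_div_iff₀ (h.ρpos _)).mp (hμ2 _ (by omega))
    apply hτ4
    set W : Set (BerkP1 C) := (⋂ i ∈ Finset.range (N + 1), (BerkP1.map φ)^[i] ⁻¹' (ball (0 : C) 1)) ∩
      (BerkP1.map φ)^[N + 1] ⁻¹' (ball (y (N + 1)) (μ * ρ (N + 1))) with hW
    have hWo : IsOpen W :=
      (isOpen_biInter_finset (fun i _ =>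
        (isOpen_ball 0 1).preimage ((continuous_map φ).iterate i))).inter
        ((isOpen_ball _ _).preimage ((continuous_map φ).iterate (N + 1)))
    have hWF : W ⊆ Fatou φ := by
      apply subset_fatou_of_orbit hWo
      intro k ξ hξ
      rcases Nat.lt_or_ge k (N + 1) with hk | hk
      · have := Set.mem_iInter₂.mp hξ.1 k (Finset.mem_range.mpr hk)
        exact this
      · obtain ⟨l, rfl⟩ := Nat.exists_eq_add_of_le hk
        rw [add_comm, Function.iterate_add_apply]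
        exact h.orbit_unit hRM hμt l _ hξ.2
    have hx0 : dpt (y 0) τ0 = xh 0 := by simp only [hxh]; rw [hθ0]
    rw [hx0]
    apply hWF
    refine ⟨?_, ?_⟩
    · rw [Set.mem_iInter₂]
      intro i _
      rw [Set.mem_preimage, hxi]
      exact hxu _
    · rw [Set.mem_preimage, hxi, zero_add]
      simp only [hxh]
      rw [dpt_mem_ball]
      have hμpos : 0 < μ * ρ (N + 1) := mul_pos (lt_of_le_of_lt zero_le hμ1) (h.ρpos _)
      exact ⟨by simpa using hμpos, mul_lt_mul_of_pos_right hμ1 (h.ρpos _)⟩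
  -- a repetition
  obtain ⟨m0, hm0, m1, hm1, hlt01, he01⟩ := hinf.exists_lt_map_eq_of_mapsTo (f := xh)
    (t := Set.range (fun m => dpt (y m) (b m))) (by
      intro m hm
      refine ⟨m, ?_⟩
      simp only [hxh]
      rw [show θ * ρ m = b m from hm]) h.fin_b
  set ζ0 := xh m0 with hζ0
  obtain ⟨l, rfl⟩ := Nat.exists_eq_add_of_lt hlt01
  have hper : Function.IsPeriodicPt (BerkP1.map φ) (l + 1) ζ0 := by
    show (BerkP1.map φ)^[l + 1] ζ0 = ζ0
    rw [hζ0, hxi, ← add_assoc]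
    exact he01.symm
  set q := Function.minimalPeriod (BerkP1.map φ) ζ0 with hq
  have hqpos : 0 < q := hper.minimalPeriod_pos (Nat.succ_pos l)
  have hqper : ∀ k, (BerkP1.map φ)^[q * k] ζ0 = ζ0 := fun k =>
    (Function.isPeriodicPt_minimalPeriod (BerkP1.map φ) ζ0).mul_const k
  have hperx : ∀ e k, xh (m0 + (e + q * k)) = (BerkP1.map φ)^[e] ζ0 := by
    intro e k
    rw [← hxi, Function.iterate_add_apply, hqper]
  -- the discs below the exit points
  have hzball : ∀ m, zpt φ (n1 + m) ∈ ball (y m) (θ * ρ m) := by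
    intro m
    rw [h.z, dpt_mem_ball]
    have h1 : ρ m < θ * ρ m := by
      calc ρ m = 1 * ρ m := (one_mul _).symm
        _ < θ * ρ m := mul_lt_mul_of_pos_right hθ1 (h.ρpos m)
    exact ⟨by simpa using lt_trans (h.ρpos m) h1, h1⟩
  have hballF : ∀ m, ball (y m) (θ * ρ m) ⊆ Fatou φ := fun m =>
    subset_fatou_of_orbit (isOpen_ball _ _) (fun k ξ hξ => h.orbit_unit hRM (hθt m) k ξ hξ)
  have hJ : ζ0 ∉ Fatou φ := by
    intro hF
    have key : ∀ k, ζ0 ∈ V (n1 + (m0 + q * k)) := by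
      intro k
      have hx : dpt (y (m0 + q * k)) (θ * ρ (m0 + q * k)) = ζ0 := by
        have := hperx 0 k
        rw [zero_add, Function.iterate_zero, id] at this
        exact this
      have hsub : (ball (y (m0 + q * k)) (θ * ρ (m0 + q * k)) ∪
          {dpt (y (m0 + q * k)) (θ * ρ (m0 + q * k))} : Set (BerkP1 C)) ⊆ Fatou φ := by
        apply Set.union_subset (hballF _)
        rw [Set.singleton_subset_iff, hx]
        exact hF
      have := comp_absorb (hS.comp (n1 + (m0 + q * k)))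
        (isPreconnected_ball_union (y (m0 + q * k)) (θ * ρ (m0 + q * k))) hsub
        ⟨_, Or.inl (hzball (m0 + q * k)), hS.zpt_mem _⟩
      rw [← hx]
      exact this (Or.inr rfl)
    refine hS.disjoint (m := n1 + (m0 + q * 0)) (n := n1 + (m0 + q * 1)) ?_ (key 0) (key 1)
    simp only [mul_zero, mul_one]
    omega
  -- the index sequence
  set e0 := (n1 + m0) * q - (n1 + m0) with he0
  have he0' : n1 + m0 + e0 = (n1 + m0) * q := by
    have : n1 + m0 ≤ (n1 + m0) * q := Nat.le_mul_of_pos_right _ hqpos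
    omega
  set mm : ℕ → ℕ := fun k => m0 + (e0 + q * k) with hmm
  have hmmk : ∀ k, n1 + mm k = (k + (n1 + m0)) * q := by
    intro k
    simp only [hmm]
    calc n1 + (m0 + (e0 + q * k)) = (n1 + m0 + e0) + q * k := by ring
      _ = (n1 + m0) * q + q * k := by rw [he0']
      _ = _ := by ring
  have hxm : ∀ k, dpt (y (mm k)) (θ * ρ (mm k)) = (BerkP1.map φ)^[e0] ζ0 := fun k => hperx e0 k
  have hrad : ∀ k, θ * ρ (mm k) = θ * ρ (mm 0) := by
    intro k
    have := (hxm k).trans (hxm 0).symm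
    exact (dpt_eq_iff.mp this).1
  have hdist : ∀ k l, k ≠ l → ‖y (mm k) - y (mm l)‖₊ = θ * ρ (mm 0) := by
    intro k l hkl
    have h1 := (hxm k).trans (hxm l).symm
    have h2 := (dpt_eq_iff.mp h1).2
    rw [hrad k] at h2
    apply le_antisymm h2
    by_contra hcon
    push Not at hcon
    have h3 : (ball (y (mm k)) (θ * ρ (mm k)) : Set (BerkP1 C)) =
        ball (y (mm l)) (θ * ρ (mm l)) := by
      rw [hrad k, hrad l]
      exact ball_recenter hcon
    have h4 : zpt φ (n1 + mm k) ∈ ball (y (mm l)) (θ * ρ (mm l)) := by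
      rw [← h3]; exact hzball (mm k)
    have h5 := hS.no_return (fun i ξ hξ => h.orbit_unit hRM (hθt (mm l)) i ξ hξ) h4
      (hzball (mm l))
    rw [hmmk, hmmk] at h5
    have h6 := Nat.eq_of_mul_eq_mul_right hqpos h5
    omega
  have hV1 : V n1 ⊆ ball (y 0) (θ * ρ 0) := by
    apply subset_ball_of_preconnected (comp_preconnected (hS.comp n1))
    · rw [hθ0]
      intro hcon
      exact hτ4 (comp_subset_fatou (hS.comp n1) hcon)
    · exact ⟨_, hy0, by
        have := hzball 0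
        rwa [h.z] at this⟩
  have hII : IsTypeII ζ0 := by
    have : ζ0 = dpt (y m0) (b m0) := by
      rw [hζ0]
      simp only [hxh]
      rw [show θ * ρ m0 = b m0 from hm0]
    rw [this]
    exact h.typeII m0
  refine ⟨ζ0, hJ, hII, q, hqpos, hq.symm, e0, ?_⟩
  intro ξ hξ
  rw [← tendsto_add_atTop_iff_nat (n1 + m0)]
  have hconv := tendsto_of_directions (x := fun k => y (mm k)) (s := θ * ρ (mm 0))
    (ζ := fun k => (BerkP1.map φ)^[(k + (n1 + m0)) * q] ξ)
    (by
      intro k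
      rw [← hmmk, add_comm n1, Function.iterate_add_apply, ← hrad k]
      have h1 : (BerkP1.map φ)^[n1] ξ ∈ ball (y 0) (θ * ρ 0) := by
        apply hV1
        have := hS.iterate n1 0 hξ
        rwa [zero_add] at this
      have h2 := h.orbit_ball hRM (m := 0) (hθt 0) h1 (mm k)
      rwa [zero_add] at h2)
    hdist
  rw [hxm 0] at hconv
  exact hconv

end tail

end MP9e71ee

end

section

/-!
# Existence of the tail data
-/

open Polynomial Filter Topology
open scoped NNReal ENNReal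

namespace MP9e71ee

variable {C : Type*} [NontriviallyNormedField C] [IsUltrametricDist C] [IsAlgClosed C]
variable {φ : RatFunc C →ₐ[C] RatFunc C} {P Q : C[X]}

theorem exists_tail {V : ℕ → Set (BerkP1 C)} (hH : HypH C) (hAP : ClaimAPPROX C)
    (hISO : ClaimISO C) (hTM : TameMult P Q) (hS : Setup φ V) (hRM : RM φ P Q)
    {rs : ℝ≥0} (hrs : 0 < rs) (hrs1 : rs ≤ 1)
    (hB : ∀ n (x γ : C), γ ≠ 0 → zpt φ n = dpt x ‖γ‖₊ → rs ≤ ‖γ‖₊) :
    ∃ (n1 : ℕ) (y : ℕ → C) (ρ b c : ℕ → ℝ≥0), TailData φ P Q V n1 y ρ b c := by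
  classical
  have hW0 : wr P Q ≠ 0 := (hISO φ P Q hRM hTM).1
  have hQW : Q * wr P Q ≠ 0 := mul_ne_zero hRM.hQ hW0
  set C0 : Finset C := insert 0 ((Q * wr P Q).roots.toFinset.filter (fun a => ‖a‖₊ < 1)) with hC0
  have h0C0 : (0 : C) ∈ C0 := Finset.mem_insert_self _ _
  obtain ⟨K, κ, hκ0, hκ1, hK, horb, happ⟩ := rational_orbit hH hAP hS hRM hrs hrs1 hB C0
  choose x hxK γ hγK hγ hz using horb
  choose! a' ha'K ha' using happ
  set r : ℕ → ℝ≥0 := fun n => ‖γ n‖₊ with hr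
  have hrsr : ∀ n, rs ≤ r n := fun n => hB n (x n) (γ n) (hγ n) (hz n)
  have hrpos : ∀ n, 0 < r n := fun n => lt_of_lt_of_le hrs (hrsr n)
  have hβex : ∀ n, ∃ a ∈ C0, ∀ b ∈ C0, max ‖x n - a‖₊ (r n) ≤ max ‖x n - b‖₊ (r n) := fun n =>
    Finset.exists_min_image C0 (fun a => max ‖x n - a‖₊ (r n)) ⟨0, h0C0⟩
  choose an hanC hanmin using hβex
  set β : ℕ → ℝ≥0 := fun n => max ‖x n - an n‖₊ (r n) with hβ
  have hrβ : ∀ n, r n ≤ β n := fun n => le_max_right _ _
  have hunit : ∀ n, n ≠ 0 → ‖x n‖₊ < 1 ∧ r n < 1 := by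
    intro n hn
    have := hS.zpt_unit hn
    rw [hz n, dpt_mem_ball, sub_zero] at this
    exact this
  have hβ1 : ∀ n, n ≠ 0 → β n < 1 := by
    intro n hn
    have h1 := hanmin n 0 h0C0
    rw [sub_zero] at h1
    exact lt_of_le_of_lt h1 (max_lt (hunit n hn).1 (hunit n hn).2)
  -- rational centres
  have hβ' : ∀ n, β n = max ‖x n - a' (an n)‖₊ (r n) := by
    intro n
    have h1 : ‖an n - a' (an n)‖₊ ≤ r n := (ha' _ (hanC n)).le.trans (hrsr n)
    have h2 := max_recenter h1 (x n)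
    rw [nnnorm_sub_comm' (an n), nnnorm_sub_comm' (a' (an n))] at h2
    exact h2
  have hδ : ∀ n, ∃ δ ∈ K, δ ≠ 0 ∧ β n = ‖δ‖₊ := by
    intro n
    rw [hβ' n]
    rcases le_total ‖x n - a' (an n)‖₊ (r n) with h | h
    · exact ⟨γ n, hγK n, hγ n, max_eq_right h⟩
    · refine ⟨x n - a' (an n), K.sub_mem (hxK n) (ha'K _ (hanC n)), ?_, max_eq_left h⟩
      intro h0
      rw [h0, nnnorm_zero] at h
      exact absurd (hrpos n) (not_lt.mpr h)
  set Fs : Set ℝ≥0 := {r : ℝ≥0 | rs ≤ r ∧ r ≤ 1 ∧ ∃ m : ℤ, (r : ℝ) = κ ^ m} with hFs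
  have hFsfin : Fs.Finite := finite_radii hκ0 hκ1 hrs
  have hrFs : ∀ n, n ≠ 0 → r n ∈ Fs := fun n hn =>
    ⟨hrsr n, (hunit n hn).2.le, hK _ (hγK n) (hγ n)⟩
  have hβFs : ∀ n, n ≠ 0 → β n ∈ Fs := by
    intro n hn
    obtain ⟨δ, hδK, hδ0, hδe⟩ := hδ n
    refine ⟨(hrsr n).trans (hrβ n), (hβ1 n hn).le, ?_⟩
    rw [hδe]
    exact hK δ hδK hδ0
  have hbpt : ∀ n, dpt (x n) (β n) = dpt (a' (an n)) (β n) := by
    intro n
    apply dpt_eq_of_le
    rw [hβ' n]; exact le_max_left _ _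
  set G : Set (BerkP1 C) := ⋃ a ∈ C0, (fun s => dpt (a' a) s) '' Fs with hG
  have hGfin : G.Finite := C0.finite_toSet.biUnion (fun a _ => hFsfin.image _)
  have hbG : ∀ n, n ≠ 0 → dpt (x n) (β n) ∈ G := by
    intro n hn
    rw [hbpt]
    simp only [hG, Set.mem_iUnion]
    exact ⟨an n, hanC n, β n, hβFs n hn, rfl⟩
  -- eventually the components miss the branch points
  have hAfin : {n | n ≠ 0 ∧ dpt (x n) (β n) ∈ V n}.Finite := by
    apply Set.Finite.of_finite_image (f := fun n => dpt (x n) (β n))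
    · apply hGfin.subset
      rintro _ ⟨n, hn, rfl⟩
      exact hbG n hn.1
    · intro n hn m hm hnm
      by_contra hne
      have h1 : dpt (x n) (β n) = dpt (x m) (β m) := hnm
      have h2 := hn.2
      rw [h1] at h2
      exact hS.disjoint hne h2 hm.2
  obtain ⟨N, hN⟩ := hAfin.bddAbove
  set n1 := N + 1 with hn1
  have hnot : ∀ n, n1 ≤ n → dpt (x n) (β n) ∉ V n := by
    intro n hn hmem
    have := hN (show n ∈ {n | n ≠ 0 ∧ dpt (x n) (β n) ∈ V n} from ⟨by omega, hmem⟩)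
    omega
  have hrβlt : ∀ n, n1 ≤ n → r n < β n := by
    intro n hn
    refine lt_of_le_of_ne (hrβ n) ?_
    intro he
    apply hnot n hn
    rw [← he]
    have := hS.zpt_mem n
    rwa [hz n] at this
  have hregx : ∀ n, n1 ≤ n → Reg (Q * wr P Q) (x n) (β n) := by
    intro n hn b hb
    rcases lt_or_ge ‖b‖₊ 1 with hb1 | hb1
    · have hbC : b ∈ C0 := by
        rw [hC0, Finset.mem_insert, Finset.mem_filter]
        right
        exact ⟨by simpa [hQW] using hb, hb1⟩
      have h1 := hanmin n b hbC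
      rcases le_max_iff.mp h1 with h2 | h2
      · rw [nnnorm_sub_comm' b]; exact h2
      · exact absurd (hrβlt n hn) (not_lt.mpr h2)
    · have h1 : ‖b - x n‖₊ = ‖b‖₊ := by
        rw [nnnorm_sub_comm']
        exact nnnorm_sub_eq_right (lt_of_lt_of_le (hunit n (by omega)).1 hb1)
      rw [h1]
      exact (hβ1 n (by omega)).le.trans hb1
  -- centres along the orbit
  set y : ℕ → C := fun m => (ev P Q)^[m] (x n1) with hy
  have hysucc : ∀ m, y (m + 1) = ev P Q (y m) := fun m => Function.iterate_succ_apply' _ _ _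
  have hregy : ∀ m, zpt φ (n1 + m) = dpt (y m) (r (n1 + m)) →
      Reg Q (y m) (β (n1 + m)) ∧ Reg (wr P Q) (y m) (β (n1 + m)) := by
    intro m hm
    have h1 : dpt (y m) (r (n1 + m)) = dpt (x (n1 + m)) (r (n1 + m)) := hm.symm.trans (hz _)
    have h2 : ‖y m - x (n1 + m)‖₊ < β (n1 + m) :=
      lt_of_le_of_lt (dpt_eq_iff.mp h1).2 (hrβlt _ (by omega))
    have h3 := (hregx (n1 + m) (by omega)).recenter h2
    constructor
    · intro b hb
      apply h3
      rw [Polynomial.eval_mul, hb, zero_mul]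
    · intro b hb
      apply h3
      rw [Polynomial.eval_mul, hb, mul_zero]
  have hβpos : ∀ n, 0 < β n := fun n => lt_of_lt_of_le (hrpos n) (hrβ n)
  have hzy : ∀ m, zpt φ (n1 + m) = dpt (y m) (r (n1 + m)) := by
    intro m
    induction m with
    | zero => exact hz n1
    | succ m ih =>
      obtain ⟨hreg, _⟩ := hregy m ih
      have h1 : zpt φ (n1 + (m + 1)) = dpt (y (m + 1)) (rad P Q (y m) (r (n1 + m))) := by
        rw [← add_assoc, zpt_succ, ih, hysucc]
        exact map_dpt_reg hRM.hφ hRM.hQ hreg (by simpa using hβpos (n1 + m)) (hrβ _)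
      have h2 := h1.symm.trans (hz (n1 + (m + 1)))
      rw [h1, (dpt_eq_iff.mp h2).1]
  have hiso : ∀ m, ∃ c : ℝ≥0, 0 < c ∧ ∀ s, s ≤ β (n1 + m) → rad P Q (y m) s = c * s := by
    intro m
    obtain ⟨h1, h2⟩ := hregy m (hzy m)
    obtain ⟨c, hc, hc2⟩ := (hISO φ P Q hRM hTM).2 (y m) (β (n1 + m)) (hβpos _) h1 h2
    exact ⟨c, hc, hc2 (y m) (by simpa using hβpos (n1 + m))⟩
  choose c hcpos hciso using hiso
  have hyx : ∀ m, dpt (y m) (β (n1 + m)) = dpt (x (n1 + m)) (β (n1 + m)) := by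
    intro m
    apply dpt_eq_of_le
    have h1 : dpt (y m) (r (n1 + m)) = dpt (x (n1 + m)) (r (n1 + m)) := (hzy m).symm.trans (hz _)
    exact (dpt_eq_iff.mp h1).2.trans (hrβ _)
  refine ⟨n1, y, fun m => r (n1 + m), fun m => β (n1 + m), c, ?_⟩
  refine
    { ylt := ?_
      ρpos := fun m => hrpos _
      blt := fun m => hβ1 _ (by omega)
      ρlt := fun m => hrβlt _ (by omega)
      z := hzy
      notin := ?_
      next := hysucc
      ρnext := ?_
      reg := fun m => (hregy m (hzy m)).1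
      cpos := hcpos
      iso := fun m s hs => hciso m s hs
      typeII := ?_
      fin_b := ?_
      fin_ratio := ?_ }
  · intro m
    have := hS.zpt_unit (n := n1 + m) (by omega)
    rw [hzy, dpt_mem_ball, sub_zero] at this
    exact this.1
  · intro m
    rw [hyx]
    exact hnot _ (by omega)
  · intro m
    have h1 : zpt φ (n1 + (m + 1)) = dpt (y (m + 1)) (rad P Q (y m) (r (n1 + m))) := by
      rw [← add_assoc, zpt_succ, hzy m, hysucc]
      exact map_dpt_reg hRM.hφ hRM.hQ (hregy m (hzy m)).1 (by simpa using hβpos (n1 + m)) (hrβ _)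
    have h2 := (hzy (m + 1)).symm.trans h1
    rw [(dpt_eq_iff.mp h2).1, hciso m _ (hrβ _)]
  · intro m
    obtain ⟨δ, _, hδ0, hδe⟩ := hδ (n1 + m)
    rw [hδe]
    exact isTypeII_dpt _ _ hδ0
  · apply hGfin.subset
    rintro _ ⟨m, rfl⟩
    show dpt (y m) (β (n1 + m)) ∈ G
    rw [hyx]
    exact hbG _ (by omega)
  · apply ((hFsfin.prod hFsfin).image (fun p : ℝ≥0 × ℝ≥0 => p.1 / p.2)).subset
    rintro _ ⟨m, rfl⟩
    exact ⟨(β (n1 + m), r (n1 + m)), ⟨hβFs _ (by omega), hrFs _ (by omega)⟩, rfl⟩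

end MP9e71ee

end
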